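import Pool.Agent.Helper246.FG.Defs

open MeasureTheory Filter Topology ProbabilityTheory
open scoped InnerProductSpace ENNReal

namespace Pool.Agent.Helper38.FE.FG

theorem al_sq : al ^ 2 = -(1 / 2) := by
  unfold al
  rw [div_pow, Complex.I_sq]
  have h : ((√2 : ℝ) : ℂ) ^ 2 = 2 := by
    rw [← Complex.ofReal_pow, Real.sq_sqrt (by norm_num)]
    norm_num
  rw [h]
  norm_num

theorem al_im_ne : al.im ≠ 0 := by
  intro h
  have h2 := al_sq
  have h3 : al = (al.re : ℂ) := by
    apply Complex.ext
    · simp
    · simp [h]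
  rw [h3] at h2
  have h4 : ((al.re ^ 2 : ℝ) : ℂ) = ((-(1 / 2) : ℝ) : ℂ) := by
    push_cast
    rw [h2]
  have h5 : al.re ^ 2 = -(1 / 2) := by exact_mod_cast h4
  nlinarith [sq_nonneg al.re]

theorem conj_al : (starRingEnd ℂ) al = -al := by
  unfold al
  rw [map_div₀, Complex.conj_I, Complex.conj_ofReal, neg_div]

theorem isUnit_sub_al {A : Type*} [CStarAlgebra A] (s : A) (hs : IsSelfAdjoint s) :
    IsUnit (s - al • (1 : A)) := by
  have h1 : al ∉ spectrum ℂ s := by
    intro h
    exact al_im_ne (hs.im_eq_zero_of_mem_spectrum h)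
  rw [spectrum.notMem_iff] at h1
  have h2 : s - al • (1 : A) = -(algebraMap ℂ A al - s) := by
    rw [Algebra.algebraMap_eq_smul_one]
    abel
  rw [h2]
  exact h1.neg

theorem star_sub_al {A : Type*} [CStarAlgebra A] (s : A) (hs : IsSelfAdjoint s) :
    star (s - al • (1 : A)) = s + al • (1 : A) := by
  rw [star_sub, hs.star_eq, star_smul, star_one]
  have h : star al = -al := conj_al
  rw [h, neg_smul, sub_neg_eq_add]

theorem star_add_al {A : Type*} [CStarAlgebra A] (s : A) (hs : IsSelfAdjoint s) :
    star (s + al • (1 : A)) = s - al • (1 : A) := by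
  rw [← star_sub_al s hs, star_star]

theorem isUnit_add_al {A : Type*} [CStarAlgebra A] (s : A) (hs : IsSelfAdjoint s) :
    IsUnit (s + al • (1 : A)) := by
  rw [← star_sub_al s hs]
  exact (isUnit_sub_al s hs).star

theorem cay_eq {A : Type*} [CStarAlgebra A] (s : A) (hs : IsSelfAdjoint s) :
    cay s = 1 + (2 * al) • Ring.inverse (s - al • (1 : A)) := by
  unfold cay
  have h1 : s + al • (1 : A) = (s - al • (1 : A)) + (2 * al) • (1 : A) := by
    rw [two_mul, add_smul]
    abel
  rw [h1, add_mul, Ring.mul_inverse_cancel _ (isUnit_sub_al s hs), smul_mul_assoc, one_mul]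

theorem inverse_eq {A : Type*} [CStarAlgebra A] (s : A) (hs : IsSelfAdjoint s) :
    Ring.inverse (s - al • (1 : A)) = (-al) • (cay s - 1) := by
  rw [cay_eq s hs, add_sub_cancel_left, smul_smul]
  have h : -al * (2 * al) = 1 := by
    have := al_sq
    linear_combination (-2) * this
  rw [h, one_smul]

theorem star_cay_mul {A : Type*} [CStarAlgebra A] (s : A) (hs : IsSelfAdjoint s) :
    star (cay s) * cay s = 1 := by
  have hM := isUnit_sub_al s hs
  have hP := isUnit_add_al s hs
  unfold cay
  rw [star_mul, star_add_al s hs, ← Ring.inverse_star, star_sub_al s hs]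
  have hc : (s - al • (1 : A)) * (s + al • (1 : A)) = (s + al • (1 : A)) * (s - al • (1 : A)) := by
    have h1 : s * (al • (1 : A)) = (al • (1 : A)) * s := by
      rw [mul_smul_comm, smul_mul_assoc, one_mul, mul_one]
    generalize al • (1 : A) = t at h1
    rw [sub_mul, mul_add, mul_add, add_mul, mul_sub, mul_sub, h1]
    abel
  calc Ring.inverse (s + al • (1 : A)) * (s - al • (1 : A)) *
        ((s + al • (1 : A)) * Ring.inverse (s - al • (1 : A)))
      = Ring.inverse (s + al • (1 : A)) * ((s - al • (1 : A)) *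
        (s + al • (1 : A))) * Ring.inverse (s - al • (1 : A)) := by
        simp only [mul_assoc]
    _ = (Ring.inverse (s + al • (1 : A)) * (s + al • (1 : A))) * ((s - al • (1 : A)) *
          Ring.inverse (s - al • (1 : A))) := by
        rw [hc]
        simp only [mul_assoc]
    _ = 1 := by
        rw [Ring.inverse_mul_cancel _ hP, Ring.mul_inverse_cancel _ hM, mul_one]

theorem cay_mul_star {A : Type*} [CStarAlgebra A] (s : A) (hs : IsSelfAdjoint s) :
    cay s * star (cay s) = 1 := by
  have hM := isUnit_sub_al s hs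
  have hP := isUnit_add_al s hs
  have hu : IsUnit (cay s) := by
    unfold cay
    exact hP.mul hM.ringInverse
  obtain ⟨u, hu⟩ := hu
  have h1 := star_cay_mul s hs
  rw [← hu] at h1 ⊢
  have h2 : star (u : A) = ((u⁻¹ : Aˣ) : A) := by
    calc star (u : A) = star (u : A) * ((u : A) * ((u⁻¹ : Aˣ) : A)) := by
          rw [Units.mul_inv, mul_one]
      _ = ((u⁻¹ : Aˣ) : A) := by rw [← mul_assoc, h1, one_mul]
  rw [h2]
  exact Units.mul_inv u

end Pool.Agent.Helper38.FE.FG
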