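import Pool.Agent.Helper246.FG.A1

open MeasureTheory Filter Topology ProbabilityTheory
open scoped InnerProductSpace ENNReal

namespace Pool.Agent.Helper38.FE.FG

theorem hasFDerivAt_cay {A : Type*} [CStarAlgebra A] {E : Type*} [NormedAddCommGroup E]
    [NormedSpace ℝ E] (X : E →L[ℝ] A) (hX : ∀ x, IsSelfAdjoint (X x)) (x : E) :
    ∃ D : E →L[ℝ] A, HasFDerivAt (fun y => cay (X y)) D x ∧
      ∀ h, D h = al • ((cay (X x) - 1) * X h * (cay (X x) - 1)) := by
  obtain ⟨u, hu⟩ := isUnit_sub_al (X x) (hX x)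
  have h1 : HasFDerivAt (Ring.inverse : A → A)
      (-(ContinuousLinearMap.mulLeftRight ℝ A ↑u⁻¹ ↑u⁻¹)) (X x - al • (1 : A)) := by
    rw [← hu]
    exact hasFDerivAt_ringInverse u
  have h2 : HasFDerivAt (fun y => X y - al • (1 : A)) X x := X.hasFDerivAt.sub_const _
  have h3 := h1.comp x h2
  have h4 := (h3.const_smul (2 * al)).const_add (1 : A)
  have e1 : (fun y => cay (X y)) = fun y => (1 : A) + (2 * al) • (Ring.inverse ∘
      fun y => X y - al • (1 : A)) y := by
    funext y
    exact cay_eq (X y) (hX y)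
  refine ⟨_, e1 ▸ h4, ?_⟩
  intro h
  have e2 : ((u⁻¹ : Aˣ) : A) = (-al) • (cay (X x) - 1) := by
    rw [← inverse_eq (X x) (hX x), ← hu, Ring.inverse_unit]
  have e3 : ((2 * al) • (-(ContinuousLinearMap.mulLeftRight ℝ A ↑u⁻¹ ↑u⁻¹)).comp X) h =
      (2 * al) • (-(((u⁻¹ : Aˣ) : A) * X h * ((u⁻¹ : Aˣ) : A))) := rfl
  rw [e3, e2, smul_mul_assoc, smul_mul_assoc, mul_smul_comm, smul_neg, smul_smul, smul_smul,
    ← neg_smul]
  congr 1
  linear_combination (-2 * al) * al_sq

theorem contDiff_cay {A : Type*} [CStarAlgebra A] {E : Type*} [NormedAddCommGroup E]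
    [NormedSpace ℝ E] (X : E →L[ℝ] A) (hX : ∀ x, IsSelfAdjoint (X x)) (n : ℕ) :
    ContDiff ℝ n (fun y => cay (X y)) := by
  have e1 : (fun y => cay (X y)) = fun y => (1 : A) + (2 * al) • (Ring.inverse
      (X y - al • (1 : A))) := by
    funext y
    exact cay_eq (X y) (hX y)
  rw [e1]
  refine contDiff_const.add (ContDiff.const_smul _ ?_)
  rw [contDiff_iff_contDiffAt]
  intro x
  obtain ⟨u, hu⟩ := isUnit_sub_al (X x) (hX x)
  have h1 : ContDiffAt ℝ n (Ring.inverse : A → A) (X x - al • (1 : A)) := by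
    rw [← hu]
    exact contDiffAt_ringInverse ℝ u
  exact h1.comp x (X.contDiff.contDiffAt.sub contDiffAt_const)

theorem PW_cons' {A : Type*} [Ring A] (u : Fin 3 → A) (i : Fin 3) (b : List (Fin 3)) :
    PW u (i :: b) = u i * PW u b := by simp [PW]

theorem contDiff_PW {A : Type*} [CStarAlgebra A] {E : Type*} [NormedAddCommGroup E]
    [NormedSpace ℝ E] (X : Fin 3 → E →L[ℝ] A) (hX : ∀ i x, IsSelfAdjoint (X i x))
    (b : List (Fin 3)) (n : ℕ) :
    ContDiff ℝ n (fun y => PW (fun i => cay (X i y)) b) := by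
  induction b with
  | nil => simpa [PW] using (contDiff_const : ContDiff ℝ n fun _ : E => (1 : A))
  | cons i b ih =>
    simp only [PW_cons']
    exact (contDiff_cay (X i) (hX i) n).mul ih

theorem DW_cons' {A : Type*} [Ring A] [Algebra ℂ A] (u h : Fin 3 → A) (i : Fin 3)
    (b : List (Fin 3)) : DW u h (i :: b) =
      (al • ((u i - 1) * h i * (u i - 1))) * PW u b + u i * DW u h b := by
  unfold DW
  have e : (i :: b).length = b.length + 1 := rfl
  refine (Fin.sum_univ_succ (n := b.length)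
    (fun j : Fin (b.length + 1) =>
      al • (AW u (i :: b) j * h ((i :: b).get j) * BW u (i :: b) j))).trans ?_
  congr 1
  · simp [AW, BW, PW, mul_assoc]
  · rw [Finset.mul_sum]
    refine Finset.sum_congr rfl fun j _ => ?_
    rw [mul_smul_comm]
    congr 1
    simp [AW, BW, PW, mul_assoc]

theorem hasFDerivAt_PW {A : Type*} [CStarAlgebra A] {E : Type*} [NormedAddCommGroup E]
    [NormedSpace ℝ E] (X : Fin 3 → E →L[ℝ] A) (hX : ∀ i x, IsSelfAdjoint (X i x))
    (b : List (Fin 3)) (x : E) :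
    ∃ D : E →L[ℝ] A, HasFDerivAt (fun y => PW (fun i => cay (X i y)) b) D x ∧
      ∀ h, D h = DW (fun i => cay (X i x)) (fun i => X i h) b := by
  induction b with
  | nil =>
    refine ⟨0, ?_, fun h => by simp [DW]⟩
    have e : (fun y => PW (fun i => cay (X i y)) []) = fun _ : E => (1 : A) := by
      funext y; simp [PW]
    rw [e]
    exact hasFDerivAt_const _ _
  | cons i b ih =>
    obtain ⟨D, hD, hD'⟩ := ih
    obtain ⟨C, hC, hC'⟩ := hasFDerivAt_cay (X i) (hX i) x
    have h1 := hC.mul' hD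
    have e : (fun y => PW (fun i => cay (X i y)) (i :: b)) =
        fun y => cay (X i y) * PW (fun i => cay (X i y)) b := by
      funext y; exact PW_cons' _ _ _
    rw [e]
    refine ⟨_, h1, fun h => ?_⟩
    rw [DW_cons']
    have e5 : (cay ((X i) x) • D + MulOpposite.op (PW (fun i => cay ((X i) x)) b) • C) h =
        cay ((X i) x) * D h + C h * PW (fun i => cay ((X i) x)) b := rfl
    rw [e5, hC', hD', add_comm]

end Pool.Agent.Helper38.FE.FG
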