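import Pool.Agent.Helper246.FG.A2

open MeasureTheory Filter Topology ProbabilityTheory
open scoped InnerProductSpace ENNReal

namespace Pool.Agent.Helper38.FE.FG

section aux15768
variable {A : Type*} [Ring A]

theorem PW_nil15768 (u : Fin 3 → A) : PW u [] = 1 := rfl

theorem PW_cons15768 (u : Fin 3 → A) (i : Fin 3) (b : List (Fin 3)) :
    PW u (i :: b) = u i * PW u b := by
  unfold PW
  rw [List.map_cons, List.prod_cons]

theorem AW_zero15768 (u : Fin 3 → A) (i : Fin 3) (b : List (Fin 3)) :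
    AW u (i :: b) (0 : Fin (b.length + 1)) = u i - 1 := by
  show PW u [] * (u i - 1) = u i - 1
  rw [PW_nil15768, one_mul]

theorem AW_succ15768 (u : Fin 3 → A) (i : Fin 3) (b : List (Fin 3)) (j : Fin b.length) :
    AW u (i :: b) (j.succ : Fin (b.length + 1)) = u i * AW u b j := by
  show PW u (i :: b.take j) * (u (b.get j) - 1) = u i * (PW u (b.take j) * (u (b.get j) - 1))
  rw [PW_cons15768, mul_assoc]

theorem BW_zero15768 (u : Fin 3 → A) (i : Fin 3) (b : List (Fin 3)) :
    BW u (i :: b) (0 : Fin (b.length + 1)) = (u i - 1) * PW u b := rfl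

theorem BW_succ15768 (u : Fin 3 → A) (i : Fin 3) (b : List (Fin 3)) (j : Fin b.length) :
    BW u (i :: b) (j.succ : Fin (b.length + 1)) = BW u b j := rfl

theorem EW_zero15768 (u : Fin 3 → A) (i : Fin 3) (b : List (Fin 3)) :
    EW u (i :: b) (0 : Fin (b.length + 1)) (0 : Fin (b.length + 1)) = u i - 1 := by
  unfold EW
  exact if_pos rfl

theorem EW_zero_succ15768 (u : Fin 3 → A) (i : Fin 3) (b : List (Fin 3)) (l : Fin b.length) :
    EW u (i :: b) (0 : Fin (b.length + 1)) (l.succ : Fin (b.length + 1)) =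
      (u i - 1) * AW u b l := by
  have h : ¬ ((0 : Fin (b.length + 1)) = l.succ) := (Fin.succ_ne_zero l).symm
  unfold EW
  rw [if_neg h]
  show (u i - 1) * PW u (b.take l) * (u (b.get l) - 1) =
    (u i - 1) * (PW u (b.take l) * (u (b.get l) - 1))
  rw [mul_assoc]

theorem EW_succ15768 (u : Fin 3 → A) (i : Fin 3) (b : List (Fin 3)) (j l : Fin b.length) :
    EW u (i :: b) (j.succ : Fin (b.length + 1)) (l.succ : Fin (b.length + 1)) = EW u b j l := by
  unfold EW
  by_cases h : j = l
  · rw [if_pos h, if_pos (by rw [h])]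
    rfl
  · have h' : ¬ ((j.succ : Fin (b.length + 1)) = l.succ) := fun e => h (Fin.succ_injective _ e)
    rw [if_neg h, if_neg h']
    rfl

end aux15768

theorem DW_cons_aux15768 {A : Type*} [Ring A] [Algebra ℂ A] (u h : Fin 3 → A) (i : Fin 3)
    (b : List (Fin 3)) :
    DW u h (i :: b) = (al • ((u i - 1) * h i * (u i - 1))) * PW u b + u i * DW u h b := by
  have h1 : DW u h (i :: b) = ∑ j : Fin (b.length + 1),
      al • (AW u (i :: b) j * h ((i :: b).get j) * BW u (i :: b) j) := rfl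
  rw [h1, Fin.sum_univ_succ]
  congr 1
  · rw [AW_zero15768, BW_zero15768]
    show al • ((u i - 1) * h i * ((u i - 1) * PW u b)) = _
    rw [smul_mul_assoc, mul_assoc ((u i - 1) * h i)]
  · unfold DW
    rw [Finset.mul_sum]
    refine Finset.sum_congr rfl fun j _ => ?_
    rw [AW_succ15768, BW_succ15768]
    show al • (u i * AW u b j * h (b.get j) * BW u b j) = _
    rw [mul_smul_comm]
    simp only [mul_assoc]

/-- the sum in `DW` without the scalar -/
noncomputable def SW15768 {A : Type*} [Ring A] (u h : Fin 3 → A) (b : List (Fin 3)) : A :=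
  ∑ j : Fin b.length, AW u b j * h (b.get j) * BW u b j

theorem DW_eq15768 {A : Type*} [Ring A] [Algebra ℂ A] (u h : Fin 3 → A) (b : List (Fin 3)) :
    DW u h b = al • SW15768 u h b := by
  unfold DW SW15768
  rw [Finset.smul_sum]

theorem TW_cons15768 {A : Type*} [Ring A] [Algebra ℂ A] (u h k : Fin 3 → A) (i : Fin 3)
    (b : List (Fin 3)) :
    TW u h k (i :: b) = (u i - 1) * h i * (u i - 1) * k i * (u i - 1) * PW u b +
      (u i - 1) * h i * (u i - 1) * SW15768 u k b + u i * TW u h k b := by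
  have h1 : TW u h k (i :: b) = ∑ j : Fin (b.length + 1), ∑ l : Fin (b.length + 1),
      if j ≤ l then AW u (i :: b) j * h ((i :: b).get j) * EW u (i :: b) j l *
        k ((i :: b).get l) * BW u (i :: b) l else 0 := rfl
  rw [h1, Fin.sum_univ_succ]
  congr 1
  · rw [Fin.sum_univ_succ]
    congr 1
    · rw [if_pos le_rfl, AW_zero15768, BW_zero15768, EW_zero15768]
      show (u i - 1) * h i * (u i - 1) * k i * ((u i - 1) * PW u b) = _
      simp only [mul_assoc]
    · unfold SW15768
      rw [Finset.mul_sum]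
      refine Finset.sum_congr rfl fun l _ => ?_
      rw [if_pos (Fin.zero_le _), AW_zero15768, BW_succ15768, EW_zero_succ15768]
      show (u i - 1) * h i * ((u i - 1) * AW u b l) * k (b.get l) * BW u b l = _
      simp only [mul_assoc]
  · unfold TW
    rw [Finset.mul_sum]
    refine Finset.sum_congr rfl fun j _ => ?_
    rw [Fin.sum_univ_succ, if_neg (by rw [not_le]; exact Fin.succ_pos j), zero_add,
      Finset.mul_sum]
    refine Finset.sum_congr rfl fun l _ => ?_
    rw [AW_succ15768, BW_succ15768, EW_succ15768]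
    by_cases hjl : j ≤ l
    · rw [if_pos (Fin.succ_le_succ_iff.2 hjl), if_pos hjl]
      show u i * AW u b j * h (b.get j) * EW u b j l * k (b.get l) * BW u b l = _
      simp only [mul_assoc]
    · rw [if_neg (fun e => hjl (Fin.succ_le_succ_iff.1 e)), if_neg hjl, mul_zero]

section calc15768
variable {A : Type*} [CStarAlgebra A] {E : Type*} [NormedAddCommGroup E] [NormedSpace ℝ E]

theorem mul_aux15768 {f g F G : E → A} {x : E}
    (hf : ∃ D : E →L[ℝ] A, HasFDerivAt f D x ∧ ∀ h, D h = F h)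
    (hg : ∃ D : E →L[ℝ] A, HasFDerivAt g D x ∧ ∀ h, D h = G h) :
    ∃ D : E →L[ℝ] A, HasFDerivAt (fun y => f y * g y) D x ∧
      ∀ h, D h = F h * g x + f x * G h := by
  obtain ⟨D1, h1, e1⟩ := hf
  obtain ⟨D2, h2, e2⟩ := hg
  refine ⟨_, h1.mul' h2, fun h => ?_⟩
  rw [← e1, ← e2]
  simp [add_comm]

theorem add_aux15768 {f g F G : E → A} {x : E}
    (hf : ∃ D : E →L[ℝ] A, HasFDerivAt f D x ∧ ∀ h, D h = F h)
    (hg : ∃ D : E →L[ℝ] A, HasFDerivAt g D x ∧ ∀ h, D h = G h) :
    ∃ D : E →L[ℝ] A, HasFDerivAt (fun y => f y + g y) D x ∧ ∀ h, D h = F h + G h := by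
  obtain ⟨D1, h1, e1⟩ := hf
  obtain ⟨D2, h2, e2⟩ := hg
  refine ⟨_, h1.add h2, fun h => ?_⟩
  rw [← e1, ← e2]
  rfl

theorem smul_aux15768 {f F : E → A} {x : E} (c : ℂ)
    (hf : ∃ D : E →L[ℝ] A, HasFDerivAt f D x ∧ ∀ h, D h = F h) :
    ∃ D : E →L[ℝ] A, HasFDerivAt (fun y => c • f y) D x ∧ ∀ h, D h = c • F h := by
  obtain ⟨D1, h1, e1⟩ := hf
  refine ⟨_, h1.const_smul c, fun h => ?_⟩
  rw [← e1]
  rfl

theorem sub_one_aux15768 {f F : E → A} {x : E}
    (hf : ∃ D : E →L[ℝ] A, HasFDerivAt f D x ∧ ∀ h, D h = F h) :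
    ∃ D : E →L[ℝ] A, HasFDerivAt (fun y => f y - 1) D x ∧ ∀ h, D h = F h := by
  obtain ⟨D1, h1, e1⟩ := hf
  exact ⟨_, h1.sub_const 1, e1⟩

theorem const_aux15768 (c : A) (x : E) :
    ∃ D : E →L[ℝ] A, HasFDerivAt (fun _ : E => c) D x ∧ ∀ h, D h = (0 : A) :=
  ⟨0, hasFDerivAt_const c x, fun _ => rfl⟩

theorem congr_aux15768 {f g F G : E → A} {x : E}
    (hf : ∃ D : E →L[ℝ] A, HasFDerivAt f D x ∧ ∀ h, D h = F h)
    (hfg : ∀ y, g y = f y) (hFG : ∀ h, F h = G h) :
    ∃ D : E →L[ℝ] A, HasFDerivAt g D x ∧ ∀ h, D h = G h := by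
  obtain ⟨D1, h1, e1⟩ := hf
  have : g = f := funext hfg
  rw [this]
  exact ⟨D1, h1, fun h => (e1 h).trans (hFG h)⟩

end calc15768

/-- algebraic recursion of `DW` along the list -/
theorem DW_cons {A : Type*} [Ring A] [Algebra ℂ A] (u h : Fin 3 → A) (i : Fin 3)
    (b : List (Fin 3)) :
    DW u h (i :: b) = (al • ((u i - 1) * h i * (u i - 1))) * PW u b + u i * DW u h b :=
  DW_cons_aux15768 u h i b

/-- algebraic recursion of `D2W` along the list -/
theorem D2W_cons {A : Type*} [Ring A] [Algebra ℂ A] (u h k : Fin 3 → A) (i : Fin 3)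
    (b : List (Fin 3)) :
    D2W u h k (i :: b) =
      (-(1 / 2 : ℂ)) • ((u i - 1) * h i * (u i - 1) * k i * (u i - 1) +
        (u i - 1) * k i * (u i - 1) * h i * (u i - 1)) * PW u b +
      (al • ((u i - 1) * h i * (u i - 1))) * DW u k b +
      (al • ((u i - 1) * k i * (u i - 1))) * DW u h b + u i * D2W u h k b := by
  have hal : ∀ P S : A, (al • P) * (al • S) = (-(1 / 2 : ℂ)) • (P * S) := by
    intro P S
    rw [smul_mul_smul_comm, ← sq, al_sq]
  unfold D2W
  rw [TW_cons15768, TW_cons15768, DW_eq15768, DW_eq15768, hal, hal, smul_mul_assoc,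
    mul_smul_comm (-(1 / 2 : ℂ)) (u i)]
  simp only [← smul_add]
  congr 1
  simp only [add_mul, mul_add]
  abel

theorem fderiv2_PW {A : Type*} [CStarAlgebra A] {E : Type*} [NormedAddCommGroup E]
    [NormedSpace ℝ E] (X : Fin 3 → E →L[ℝ] A) (hX : ∀ i x, IsSelfAdjoint (X i x))
    (b : List (Fin 3)) (x h k : E) :
    fderiv ℝ (fderiv ℝ (fun y => PW (fun i => cay (X i y)) b)) x h k =
      D2W (fun i => cay (X i x)) (fun i => X i h) (fun i => X i k) b := by
  -- the derivative of `y ↦ DW (u y) (X k) b`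
  have key : ∀ b : List (Fin 3), ∃ D : E →L[ℝ] A,
      HasFDerivAt (fun y => DW (fun i => cay (X i y)) (fun i => X i k) b) D x ∧
      ∀ h, D h = D2W (fun i => cay (X i x)) (fun i => X i h) (fun i => X i k) b := by
    intro b
    induction b with
    | nil =>
      refine congr_aux15768 (const_aux15768 (0 : A) x) ?_ ?_
      · intro y
        rfl
      · intro h
        show (0 : A) = (-(1 / 2 : ℂ)) • ((0 : A) + 0)
        rw [add_zero, smul_zero]
    | cons i b ih =>
      have hu : ∃ D : E →L[ℝ] A, HasFDerivAt (fun y => cay (X i y)) D x ∧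
          ∀ h, D h = al • ((cay (X i x) - 1) * X i h * (cay (X i x) - 1)) :=
        hasFDerivAt_cay (X i) (hX i) x
      have hP := hasFDerivAt_PW X hX b x
      have hg := smul_aux15768 al (mul_aux15768 (mul_aux15768 (sub_one_aux15768 hu)
        (const_aux15768 (X i k) x)) (sub_one_aux15768 hu))
      have htot := add_aux15768 (mul_aux15768 hg hP) (mul_aux15768 hu ih)
      refine congr_aux15768 htot ?_ ?_
      · intro y
        exact DW_cons_aux15768 _ _ i b
      · intro h
        have hc := D2W_cons (fun i => cay (X i x)) (fun i => X i h) (fun i => X i k) i b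
        rw [hc]
        obtain ⟨c, hcdef⟩ : ∃ c, c = cay (X i x) := ⟨_, rfl⟩
        obtain ⟨P, hPdef⟩ : ∃ P, P = PW (fun i => cay (X i x)) b := ⟨_, rfl⟩
        obtain ⟨W1, hW1⟩ : ∃ W, W = DW (fun i => cay (X i x)) (fun i => X i h) b := ⟨_, rfl⟩
        obtain ⟨W2, hW2⟩ : ∃ W, W = DW (fun i => cay (X i x)) (fun i => X i k) b := ⟨_, rfl⟩
        obtain ⟨W3, hW3⟩ : ∃ W, W = D2W (fun i => cay (X i x)) (fun i => X i h)
          (fun i => X i k) b := ⟨_, rfl⟩
        simp only [← hcdef, ← hPdef, ← hW1, ← hW2, ← hW3]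
        have e1 : al • (((al • ((c - 1) * X i h * (c - 1))) * X i k + (c - 1) * 0) * (c - 1) +
            (c - 1) * X i k * (al • ((c - 1) * X i h * (c - 1)))) =
            (-(1 / 2 : ℂ)) • ((c - 1) * X i h * (c - 1) * X i k * (c - 1) +
              (c - 1) * X i k * (c - 1) * X i h * (c - 1)) := by
          rw [mul_zero, add_zero, smul_mul_assoc, smul_mul_assoc, mul_smul_comm, ← smul_add,
            smul_smul, ← sq, al_sq]
          congr 1
          simp only [mul_assoc]
        rw [e1]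
        abel
  have hc2 := contDiff_PW X hX b 2
  have hd : Differentiable ℝ (fderiv ℝ (fun y => PW (fun i => cay (X i y)) b)) :=
    (hc2.fderiv_right (m := 1) (by norm_num)).differentiable (by norm_num)
  have hfd : (fun y => fderiv ℝ (fun y => PW (fun i => cay (X i y)) b) y k) =
      fun y => DW (fun i => cay (X i y)) (fun i => X i k) b := by
    funext y
    obtain ⟨D, hD, hDk⟩ := hasFDerivAt_PW X hX b y
    rw [hD.fderiv, hDk]
  obtain ⟨D, hD, hDh⟩ := key b
  have h1 : HasFDerivAt (fun y => fderiv ℝ (fun y => PW (fun i => cay (X i y)) b) y k)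
      ((ContinuousLinearMap.apply ℝ A k).comp
        (fderiv ℝ (fderiv ℝ (fun y => PW (fun i => cay (X i y)) b)) x)) x :=
    (ContinuousLinearMap.apply ℝ A k).hasFDerivAt.comp x (hd x).hasFDerivAt
  rw [hfd] at h1
  have h2 := h1.unique hD
  have h3 := congrArg (fun L : E →L[ℝ] A => L h) h2
  simp only [ContinuousLinearMap.comp_apply, ContinuousLinearMap.apply_apply] at h3
  rw [h3, hDh]

end Pool.Agent.Helper38.FE.FG
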