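import Pool.Agent.Helper246.FG.Defs

open MeasureTheory Filter Topology ProbabilityTheory
open scoped InnerProductSpace ENNReal

namespace Pool.Agent.Helper38.FE.FG

theorem a4_PW_cons {A : Type*} [Ring A] (u : Fin 3 → A) (a : Fin 3) (l : List (Fin 3)) :
    PW u (a :: l) = u a * PW u l := by
  simp [PW]

theorem a4_PW_append {A : Type*} [Ring A] (u : Fin 3 → A) (l l' : List (Fin 3)) :
    PW u (l ++ l') = PW u l * PW u l' := by
  simp [PW]

theorem a4_star_mul {A : Type*} [Ring A] [StarRing A] (u : Fin 3 → A)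
    (hu : ∀ i, star (u i) * u i = 1) (l : List (Fin 3)) : star (PW u l) * PW u l = 1 := by
  induction l with
  | nil => simp [PW]
  | cons a l ih =>
    rw [a4_PW_cons, star_mul, mul_assoc, ← mul_assoc (star (u a)), hu, one_mul, ih]

theorem a4_mul_star {A : Type*} [Ring A] [StarRing A] (u : Fin 3 → A)
    (hu' : ∀ i, u i * star (u i) = 1) (l : List (Fin 3)) : PW u l * star (PW u l) = 1 := by
  induction l with
  | nil => simp [PW]
  | cons a l ih =>
    rw [a4_PW_cons, star_mul, mul_assoc, ← mul_assoc (PW u l), ih, one_mul, hu']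

theorem a4_norm_u {A : Type*} [CStarAlgebra A] [Nontrivial A] (u : Fin 3 → A)
    (hu : ∀ i, star (u i) * u i = 1) (hu' : ∀ i, u i * star (u i) = 1) (i : Fin 3) :
    ‖u i‖ = 1 :=
  CStarRing.norm_of_mem_unitary (U := u i) ⟨hu i, hu' i⟩

theorem a4_norm_sub {A : Type*} [CStarAlgebra A] [Nontrivial A] (u : Fin 3 → A)
    (hu : ∀ i, star (u i) * u i = 1) (hu' : ∀ i, u i * star (u i) = 1) (i : Fin 3) :
    ‖u i - 1‖ ≤ 2 := by
  refine (norm_sub_le _ _).trans ?_
  rw [a4_norm_u u hu hu' i, CStarRing.norm_one]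
  norm_num

theorem a4_take {A : Type*} [Ring A] (u : Fin 3 → A) (b : List (Fin 3))
    (j k : Fin b.length) (hjk : j < k) :
    PW u (b.take k) = PW u (b.take j) * (u (b.get j) * PW u ((b.take k).drop (j + 1))) := by
  have hjk' : (j : ℕ) < k := hjk
  have h1 : b.take k = b.take j ++ (b.get j :: (b.take k).drop (j + 1)) := by
    have h2 := (List.take_append_drop (j : ℕ) (b.take k)).symm
    rw [List.take_take, min_eq_left hjk'.le] at h2
    have h3 : (j : ℕ) < (b.take k).length := by
      rw [List.length_take]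
      exact lt_min hjk' j.2
    rw [List.drop_eq_getElem_cons h3, List.getElem_take] at h2
    exact h2
  conv_lhs => rw [h1]
  rw [a4_PW_append, a4_PW_cons]

theorem a4_drop {A : Type*} [Ring A] (u : Fin 3 → A) (b : List (Fin 3))
    (j k : Fin b.length) (hjk : j < k) :
    PW u (b.drop (j + 1)) = PW u ((b.take k).drop (j + 1)) *
      (u (b.get k) * PW u (b.drop (k + 1))) := by
  have hjk' : (j : ℕ) < k := hjk
  have h1 : b.drop (j + 1) = (b.take k).drop (j + 1) ++ (b.get k :: b.drop (k + 1)) := by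
    have h2 := (List.take_append_drop ((k : ℕ) - (j + 1)) (b.drop (j + 1))).symm
    rw [List.drop_drop] at h2
    have h3 : (j : ℕ) + 1 + (k - (j + 1)) = k := by omega
    rw [h3, List.drop_eq_getElem_cons k.2, ← List.drop_take] at h2
    exact h2
  conv_lhs => rw [h1]
  rw [a4_PW_append, a4_PW_cons]

theorem norm_PW_le {A : Type*} [CStarAlgebra A] [Nontrivial A] (u : Fin 3 → A)
    (hu : ∀ i, star (u i) * u i = 1) (hu' : ∀ i, u i * star (u i) = 1) (l : List (Fin 3)) :
    ‖PW u l‖ ≤ 1 := by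
  induction l with
  | nil => simp [PW]
  | cons a l ih =>
    rw [a4_PW_cons]
    refine (norm_mul_le _ _).trans ?_
    rw [a4_norm_u u hu hu' a, one_mul]
    exact ih

theorem norm_AW_le {A : Type*} [CStarAlgebra A] [Nontrivial A] (u : Fin 3 → A)
    (hu : ∀ i, star (u i) * u i = 1) (hu' : ∀ i, u i * star (u i) = 1) (b : List (Fin 3))
    (j : Fin b.length) : ‖AW u b j‖ ≤ 2 := by
  unfold AW
  refine (norm_mul_le _ _).trans ?_
  have h1 := norm_PW_le u hu hu' (b.take j)
  have h2 := a4_norm_sub u hu hu' (b.get j)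
  calc ‖PW u (b.take j)‖ * ‖u (b.get j) - 1‖ ≤ 1 * 2 :=
        mul_le_mul h1 h2 (norm_nonneg _) zero_le_one
    _ = 2 := by norm_num

theorem norm_BW_le {A : Type*} [CStarAlgebra A] [Nontrivial A] (u : Fin 3 → A)
    (hu : ∀ i, star (u i) * u i = 1) (hu' : ∀ i, u i * star (u i) = 1) (b : List (Fin 3))
    (j : Fin b.length) : ‖BW u b j‖ ≤ 2 := by
  unfold BW
  refine (norm_mul_le _ _).trans ?_
  have h1 := norm_PW_le u hu hu' (b.drop (j + 1))
  have h2 := a4_norm_sub u hu hu' (b.get j)
  calc ‖u (b.get j) - 1‖ * ‖PW u (b.drop (j + 1))‖ ≤ 2 * 1 :=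
        mul_le_mul h2 h1 (norm_nonneg _) zero_le_two
    _ = 2 := by norm_num

theorem norm_EW_le {A : Type*} [CStarAlgebra A] [Nontrivial A] (u : Fin 3 → A)
    (hu : ∀ i, star (u i) * u i = 1) (hu' : ∀ i, u i * star (u i) = 1) (b : List (Fin 3))
    (j l : Fin b.length) : ‖EW u b j l‖ ≤ 4 := by
  unfold EW
  have h2 := a4_norm_sub u hu hu' (b.get j)
  have h3 := a4_norm_sub u hu hu' (b.get l)
  split_ifs with h
  · linarith
  · have h1 := norm_PW_le u hu hu' ((b.take l).drop (j + 1))
    refine (norm_mul_le _ _).trans ?_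
    have h4 : ‖(u (b.get j) - 1) * PW u ((b.take l).drop (j + 1))‖ ≤ 2 * 1 :=
      (norm_mul_le _ _).trans (mul_le_mul h2 h1 (norm_nonneg _) zero_le_two)
    calc ‖(u (b.get j) - 1) * PW u ((b.take l).drop (j + 1))‖ * ‖u (b.get l) - 1‖
        ≤ (2 * 1) * 2 := mul_le_mul h4 h3 (norm_nonneg _) (by norm_num)
      _ = 4 := by norm_num

theorem star_AW_mul_AW {A : Type*} [Ring A] [StarRing A] (u : Fin 3 → A)
    (hu : ∀ i, star (u i) * u i = 1) (hu' : ∀ i, u i * star (u i) = 1) (b : List (Fin 3))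
    (j k : Fin b.length) (hjk : j < k) : star (AW u b j) * AW u b k = - EW u b j k := by
  unfold AW EW
  rw [if_neg hjk.ne, a4_take u b j k hjk, star_mul, star_sub, star_one]
  generalize PW u (List.drop (↑j + 1) (List.take (↑k) b)) = M
  have h1 := a4_star_mul u hu (b.take j)
  generalize PW u (List.take (↑j) b) = P at h1 ⊢
  have h2 := hu (b.get j)
  generalize u (b.get j) = x at h2 ⊢
  generalize u (b.get k) = y
  calc (star x - 1) * star P * (P * (x * M) * (y - 1))
      = (star x - 1) * (star P * P) * (x * M * (y - 1)) := by noncomm_ring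
    _ = (star x * x - x) * M * (y - 1) := by rw [h1]; noncomm_ring
    _ = -((x - 1) * M * (y - 1)) := by rw [h2]; noncomm_ring

theorem BW_mul_star_BW {A : Type*} [Ring A] [StarRing A] (u : Fin 3 → A)
    (hu : ∀ i, star (u i) * u i = 1) (hu' : ∀ i, u i * star (u i) = 1) (b : List (Fin 3))
    (j k : Fin b.length) (hjk : j < k) : BW u b k * star (BW u b j) = - star (EW u b j k) := by
  unfold BW EW
  rw [if_neg hjk.ne, a4_drop u b j k hjk]
  simp only [star_mul, star_sub, star_one]
  generalize PW u (List.drop (↑j + 1) (List.take (↑k) b)) = M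
  have h1 := a4_mul_star u hu' (b.drop (k + 1))
  generalize PW u (List.drop (↑k + 1) b) = Q at h1 ⊢
  have h2 := hu' (b.get k)
  generalize u (b.get k) = y at h2 ⊢
  generalize u (b.get j) = x
  calc (y - 1) * Q * (star Q * star y * star M * (star x - 1))
      = (y - 1) * (Q * star Q) * (star y * star M * (star x - 1)) := by noncomm_ring
    _ = (y * star y - star y) * star M * (star x - 1) := by rw [h1]; noncomm_ring
    _ = -((star y - 1) * (star M * (star x - 1))) := by rw [h2]; noncomm_ring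

end Pool.Agent.Helper38.FE.FG
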