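import Pool.Agent.Helper246.FG.Defs

open MeasureTheory Filter Topology ProbabilityTheory
open scoped InnerProductSpace ENNReal

namespace Pool.Agent.Helper38.FE.FG

theorem FGB1_expand {N : ℕ} (v : EuclideanSpace ℂ (Fin N)) :
    v = ∑ r, v r • EuclideanSpace.single r (1 : ℂ) := by
  ext i
  simp [Finset.sum_apply, Pi.single_apply]

theorem FGB1_ent_mul {N : ℕ} (S T : BN N) (p q : Fin N) :
    ent (S * T) p q = ∑ r, ent S p r * ent T r q := by
  have h : (S * T) (EuclideanSpace.single q 1) =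
      ∑ r, ent T r q • S (EuclideanSpace.single r (1 : ℂ)) := by
    show S (T (EuclideanSpace.single q 1)) = _
    conv_lhs => rw [FGB1_expand (T (EuclideanSpace.single q 1))]
    rw [map_sum]
    refine Finset.sum_congr rfl fun r _ => ?_
    rw [map_smul]
    rfl
  unfold ent
  rw [h]
  simp [ent, Finset.sum_apply, mul_comm]

theorem FGB1_ent_star {N : ℕ} (T : BN N) (p q : Fin N) :
    ent (star T) p q = star (ent T q p) := by
  have h1 : ent (star T) p q = ⟪EuclideanSpace.single p (1 : ℂ),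
      (star T) (EuclideanSpace.single q (1 : ℂ))⟫_ℂ := by
    rw [EuclideanSpace.inner_single_left]
    simp [ent]
  rw [h1, ContinuousLinearMap.star_eq_adjoint, ContinuousLinearMap.adjoint_inner_right,
    EuclideanSpace.inner_single_right]
  simp [ent]

theorem FGB1_ent_le {N : ℕ} (T : BN N) (p q : Fin N) : ‖ent T p q‖ ≤ ‖T‖ := by
  refine (PiLp.norm_apply_le (T (EuclideanSpace.single q 1)) p).trans ?_
  refine (T.le_opNorm _).trans ?_
  simp

theorem tr_add {N : ℕ} (S T : BN N) : tr (S + T) = tr S + tr T := by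
  simp [tr, ent, Finset.sum_add_distrib, mul_add]

theorem tr_smul {N : ℕ} (c : ℂ) (T : BN N) : tr (c • T) = c * tr T := by
  simp only [tr, ent, ContinuousLinearMap.smul_apply, PiLp.smul_apply, smul_eq_mul,
    ← Finset.mul_sum]
  ring

theorem FGB1_neg {N : ℕ} (T : BN N) : tr (-T) = - tr T := by
  have h := tr_smul (-1) T
  rwa [neg_one_smul ℂ T, neg_one_mul] at h

theorem tr_sub {N : ℕ} (S T : BN N) : tr (S - T) = tr S - tr T := by
  rw [sub_eq_add_neg, tr_add, FGB1_neg, sub_eq_add_neg]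

theorem tr_neg {N : ℕ} (T : BN N) : tr (-T) = - tr T := FGB1_neg T

theorem tr_zero {N : ℕ} : tr (0 : BN N) = 0 := by
  simp [tr, ent]

theorem tr_sum {N : ℕ} {κ : Type*} (s : Finset κ) (T : κ → BN N) :
    tr (∑ i ∈ s, T i) = ∑ i ∈ s, tr (T i) := by
  classical
  induction s using Finset.induction_on with
  | empty => simp [tr_zero]
  | insert a s ha ih => rw [Finset.sum_insert ha, Finset.sum_insert ha, tr_add, ih]

theorem tr_mul_comm {N : ℕ} (S T : BN N) : tr (S * T) = tr (T * S) := by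
  simp only [tr, FGB1_ent_mul]
  rw [Finset.sum_comm]
  congr 1
  exact Finset.sum_congr rfl fun p _ => Finset.sum_congr rfl fun q _ => mul_comm _ _

theorem tr_star {N : ℕ} (T : BN N) : tr (star T) = star (tr T) := by
  simp only [tr, FGB1_ent_star]
  simp

theorem tr_one {N : ℕ} (hN : 0 < N) : tr (1 : BN N) = 1 := by
  have hN' : (N : ℂ) ≠ 0 := Nat.cast_ne_zero.2 hN.ne'
  simp [tr, ent, hN']

theorem norm_tr_le {N : ℕ} (T : BN N) : ‖tr T‖ ≤ ‖T‖ := by
  unfold tr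
  rcases Nat.eq_zero_or_pos N with rfl | hN
  · simp
  have hN' : (0 : ℝ) < N := Nat.cast_pos.2 hN
  rw [norm_mul]
  have h1 : ‖∑ p, ent T p p‖ ≤ N * ‖T‖ := by
    refine (norm_sum_le _ _).trans ?_
    refine (Finset.sum_le_sum (fun p _ => FGB1_ent_le T p p)).trans ?_
    simp
  have h2 : ‖(1 / (N : ℂ))‖ = 1 / (N : ℝ) := by simp
  rw [h2]
  calc 1 / (N : ℝ) * ‖∑ p, ent T p p‖ ≤ 1 / (N : ℝ) * (N * ‖T‖) :=
        mul_le_mul_of_nonneg_left h1 (by positivity)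
    _ = ‖T‖ := by field_simp

/-- `tr(T T*) = (1/N) ∑ |T_pq|²` -/
theorem tr_mul_star_self {N : ℕ} (T : BN N) :
    tr (T * star T) = (((1 / (N : ℝ)) * ∑ p, ∑ q, ‖ent T p q‖ ^ 2 : ℝ) : ℂ) := by
  simp only [tr, FGB1_ent_mul, FGB1_ent_star]
  push_cast
  congr 1
  refine Finset.sum_congr rfl fun p _ => Finset.sum_congr rfl fun q _ => ?_
  exact Complex.mul_conj' _

theorem FGB1_hs {N : ℕ} (T : BN N) :
    ∑ p, ∑ q, ‖ent T p q‖ ^ 2 = ∑ q, ‖T (EuclideanSpace.single q 1)‖ ^ 2 := by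
  rw [Finset.sum_comm]
  refine Finset.sum_congr rfl fun q _ => ?_
  rw [EuclideanSpace.norm_sq_eq]
  rfl

theorem FGB1_hs_star {N : ℕ} (T : BN N) :
    ∑ p, ∑ q, ‖ent (star T) p q‖ ^ 2 = ∑ p, ∑ q, ‖ent T p q‖ ^ 2 := by
  simp only [FGB1_ent_star, norm_star]
  rw [Finset.sum_comm]

theorem FGB1_hs_mul {N : ℕ} (S T : BN N) :
    ∑ p, ∑ q, ‖ent (S * T) p q‖ ^ 2 ≤ ‖S‖ ^ 2 * ∑ p, ∑ q, ‖ent T p q‖ ^ 2 := by
  rw [FGB1_hs, FGB1_hs, Finset.mul_sum]
  refine Finset.sum_le_sum fun q _ => ?_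
  rw [← mul_pow]
  exact pow_le_pow_left₀ (norm_nonneg _) (S.le_opNorm _) 2

/-- two sided ideal property of the Hilbert-Schmidt norm -/
theorem tr_hs_mul_le {N : ℕ} (S T R : BN N) :
    (tr ((S * T * R) * star (S * T * R))).re ≤ ‖S‖ ^ 2 * ‖R‖ ^ 2 * (tr (T * star T)).re := by
  rw [tr_mul_star_self, tr_mul_star_self, Complex.ofReal_re, Complex.ofReal_re]
  have h1 : ∑ p, ∑ q, ‖ent (S * T * R) p q‖ ^ 2 ≤
      ‖R‖ ^ 2 * ∑ p, ∑ q, ‖ent (S * T) p q‖ ^ 2 := by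
    rw [← FGB1_hs_star (S * T * R), star_mul, ← FGB1_hs_star (S * T), ← norm_star R]
    exact FGB1_hs_mul _ _
  have h2 := FGB1_hs_mul S T
  have h3 : (0 : ℝ) ≤ 1 / (N : ℝ) := by positivity
  calc (1 / (N : ℝ)) * ∑ p, ∑ q, ‖ent (S * T * R) p q‖ ^ 2
      ≤ (1 / (N : ℝ)) * (‖R‖ ^ 2 * (‖S‖ ^ 2 * ∑ p, ∑ q, ‖ent T p q‖ ^ 2)) :=
        mul_le_mul_of_nonneg_left (h1.trans (mul_le_mul_of_nonneg_left h2 (by positivity))) h3
    _ = _ := by ring

end Pool.Agent.Helper38.FE.FG
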