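import Pool.Agent.Helper246.FG.B1

open MeasureTheory Filter Topology ProbabilityTheory
open scoped InnerProductSpace ENNReal

namespace Pool.Agent.Helper38.FE.FG

theorem fgb_ent_CLM {N : ℕ} (A : Matrix (Fin N) (Fin N) ℂ) (p q : Fin N) :
    ent (Matrix.toEuclideanCLM (n := Fin N) (𝕜 := ℂ) A) p q = A p q := by
  unfold ent
  rw [Matrix.ofLp_toEuclideanCLM]
  simp

theorem fgb_ent_Hm {N : ℕ} (a : EuclideanSpace ℝ (Fin N × Fin N)) (p q : Fin N) :
    ent (Hm N a) p q = ((1 / √(N : ℝ) : ℝ) : ℂ) *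
      (((1 + Complex.I) / 2) * (a (p, q) : ℂ) + ((1 - Complex.I) / 2) * (a (q, p) : ℂ)) := by
  unfold Hm
  rw [fgb_ent_CLM]
  rfl

theorem Hm_sa (N : ℕ) (a : EuclideanSpace ℝ (Fin N × Fin N)) : IsSelfAdjoint (Hm N a) := by
  unfold IsSelfAdjoint Hm
  rw [← map_star]
  congr 1
  ext p q
  simp only [Matrix.star_apply, Matrix.of_apply, star_mul', star_add, RCLike.star_def,
    Complex.conj_ofReal, map_div₀, map_add, map_sub, map_one, Complex.conj_I, map_ofNat]
  ring

/-- `Hm` as a continuous real linear map -/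
theorem exists_HmL (N : ℕ) : ∃ L : EuclideanSpace ℝ (Fin N × Fin N) →L[ℝ] BN N, ∀ a, L a = Hm N a := by
  let L : EuclideanSpace ℝ (Fin N × Fin N) →ₗ[ℝ] BN N :=
    { toFun := Hm N
      map_add' := by
        intro a b
        unfold Hm
        rw [← map_add]
        congr 1
        ext p q
        simp only [Matrix.add_apply, Matrix.of_apply, PiLp.add_apply, Complex.ofReal_add]
        ring
      map_smul' := by
        intro r a
        unfold Hm
        have h : r • (Matrix.toEuclideanCLM (n := Fin N) (𝕜 := ℂ)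
            (Matrix.of fun p q => ((1 / √(N : ℝ) : ℝ) : ℂ) *
            (((1 + Complex.I) / 2) * (a (p, q) : ℂ) + ((1 - Complex.I) / 2) * (a (q, p) : ℂ)))) =
            (r : ℂ) • (Matrix.toEuclideanCLM (n := Fin N) (𝕜 := ℂ)
            (Matrix.of fun p q => ((1 / √(N : ℝ) : ℝ) : ℂ) *
            (((1 + Complex.I) / 2) * (a (p, q) : ℂ) + ((1 - Complex.I) / 2) * (a (q, p) : ℂ)))) := by
          ext v k
          simp
        rw [RingHom.id_apply, h, ← map_smul]
        congr 1
        ext p q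
        simp only [Matrix.smul_apply, Matrix.of_apply, PiLp.smul_apply, smul_eq_mul,
          Complex.ofReal_mul]
        ring }
  exact ⟨LinearMap.toContinuousLinearMap L, fun a => rfl⟩

/-- `crd` as a continuous real linear map -/
theorem exists_crdL (N : ℕ) : ∃ L : BN N →L[ℝ] EuclideanSpace ℝ (Fin N × Fin N), ∀ T, L T = crd T := by
  have : FiniteDimensional ℝ (BN N) := FiniteDimensional.complexToReal _
  let L : BN N →ₗ[ℝ] EuclideanSpace ℝ (Fin N × Fin N) :=
    { toFun := crd
      map_add' := by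
        intro S T
        ext p
        simp only [crd, ent, PiLp.add_apply, add_apply, Complex.add_re, Complex.add_im]
        ring
      map_smul' := by
        intro r T
        ext p
        simp only [crd, ent, PiLp.smul_apply, smul_apply, Complex.smul_re, Complex.smul_im,
          smul_eq_mul, RingHom.id_apply]
        ring }
  exact ⟨LinearMap.toContinuousLinearMap L, fun a => rfl⟩

theorem crd_Hm {N : ℕ} (hN : 0 < N) (a : EuclideanSpace ℝ (Fin N × Fin N)) :
    crd (Hm N a) = a := by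
  ext ⟨p, q⟩
  have hs : √(N : ℝ) ≠ 0 := by
    have : (0 : ℝ) < N := by exact_mod_cast hN
    exact (Real.sqrt_pos.2 this).ne'
  show √(N : ℝ) * ((ent (Hm N a) p q).re + (ent (Hm N a) p q).im) = a (p, q)
  rw [fgb_ent_Hm]
  rw [Complex.re_ofReal_mul, Complex.im_ofReal_mul]
  have h1 : (((1 + Complex.I) / 2) * (a (p, q) : ℂ) + ((1 - Complex.I) / 2) * (a (q, p) : ℂ)).re
      = (a (p, q) + a (q, p)) / 2 := by
    have : (((1 + Complex.I) / 2) * (a (p, q) : ℂ) + ((1 - Complex.I) / 2) * (a (q, p) : ℂ))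
        = (((a (p, q) + a (q, p)) / 2 : ℝ) : ℂ) + (((a (p, q) - a (q, p)) / 2 : ℝ) : ℂ) * Complex.I := by
      push_cast; ring
    rw [this]
    simp
  have h2 : (((1 + Complex.I) / 2) * (a (p, q) : ℂ) + ((1 - Complex.I) / 2) * (a (q, p) : ℂ)).im
      = (a (p, q) - a (q, p)) / 2 := by
    have : (((1 + Complex.I) / 2) * (a (p, q) : ℂ) + ((1 - Complex.I) / 2) * (a (q, p) : ℂ))
        = (((a (p, q) + a (q, p)) / 2 : ℝ) : ℂ) + (((a (p, q) - a (q, p)) / 2 : ℝ) : ℂ) * Complex.I := by
      push_cast; ring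
    rw [this]
    simp
  rw [h1, h2]
  field_simp
  ring

theorem fgb_ent_inner {N : ℕ} (T : BN N) (p q : Fin N) :
    ent T p q = ⟪EuclideanSpace.single p (1 : ℂ), T (EuclideanSpace.single q 1)⟫_ℂ := by
  rw [EuclideanSpace.inner_single_left]
  simp [ent]

theorem fgb_ent_sa {N : ℕ} (T : BN N) (hT : IsSelfAdjoint T) (p q : Fin N) :
    ent T q p = (starRingEnd ℂ) (ent T p q) := by
  rw [fgb_ent_inner, fgb_ent_inner, inner_conj_symm]
  conv_lhs => rw [← hT.star_eq, ContinuousLinearMap.star_eq_adjoint,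
    ContinuousLinearMap.adjoint_inner_right]

theorem fgb_ent_mul {N : ℕ} (S T : BN N) (p q : Fin N) :
    ent (S * T) p q = ∑ r, ent S p r * ent T r q := by
  have h : T (EuclideanSpace.single q 1) = ∑ r, ent T r q • EuclideanSpace.single r (1 : ℂ) := by
    ext k
    simp only [ent]
    rw [WithLp.ofLp_sum, Finset.sum_apply]
    simp [PiLp.smul_apply]
  show (S (T (EuclideanSpace.single q 1))) p = _
  rw [h, map_sum, WithLp.ofLp_sum, Finset.sum_apply]
  refine Finset.sum_congr rfl (fun r _ => ?_)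
  rw [map_smul, PiLp.smul_apply, smul_eq_mul, mul_comm]
  rfl

theorem inner_crd {N : ℕ} (S T : BN N) (hS : IsSelfAdjoint S) (hT : IsSelfAdjoint T) :
    ⟪crd S, crd T⟫_ℝ = (N : ℝ) ^ 2 * (tr (S * T)).re := by
  have hcross : ∑ p : Fin N, ∑ q : Fin N, ((ent S p q).re * (ent T p q).im +
      (ent S p q).im * (ent T p q).re) = 0 := by
    have h1 : ∑ p : Fin N, ∑ q : Fin N, ((ent S p q).re * (ent T p q).im +
      (ent S p q).im * (ent T p q).re) = ∑ p : Fin N, ∑ q : Fin N, -((ent S p q).re * (ent T p q).im +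
      (ent S p q).im * (ent T p q).re) := by
      rw [Finset.sum_comm]
      refine Finset.sum_congr rfl (fun p _ => Finset.sum_congr rfl (fun q _ => ?_))
      rw [fgb_ent_sa S hS p q, fgb_ent_sa T hT p q]
      simp only [Complex.conj_re, Complex.conj_im]
      ring
    simp only [Finset.sum_neg_distrib] at h1
    linarith
  have hL : ⟪crd S, crd T⟫_ℝ = (N : ℝ) * ∑ p : Fin N, ∑ q : Fin N,
      ((ent S p q).re * (ent T p q).re + (ent S p q).im * (ent T p q).im) := by
    rw [PiLp.inner_apply, Fintype.sum_prod_type]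
    have hs : √(N : ℝ) * √(N : ℝ) = N := Real.mul_self_sqrt (by positivity)
    have : ∀ p q : Fin N, inner ℝ ((crd S) (p, q)) ((crd T) (p, q)) =
        (N : ℝ) * (((ent S p q).re * (ent T p q).re + (ent S p q).im * (ent T p q).im) +
          ((ent S p q).re * (ent T p q).im + (ent S p q).im * (ent T p q).re)) := by
      intro p q
      show (√(N : ℝ) * ((ent T p q).re + (ent T p q).im)) *
        (√(N : ℝ) * ((ent S p q).re + (ent S p q).im)) = _
      linear_combination ((ent T p q).re + (ent T p q).im) * ((ent S p q).re + (ent S p q).im) * hs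
    simp only [this]
    simp only [← Finset.mul_sum, Finset.sum_add_distrib]
    simp only [Finset.sum_add_distrib] at hcross
    rw [hcross, add_zero]
  rw [hL]
  have hR : (∑ p, ent (S * T) p p).re = ∑ p : Fin N, ∑ q : Fin N,
      ((ent S p q).re * (ent T p q).re + (ent S p q).im * (ent T p q).im) := by
    rw [Complex.re_sum]
    refine Finset.sum_congr rfl (fun p _ => ?_)
    rw [fgb_ent_mul, Complex.re_sum]
    refine Finset.sum_congr rfl (fun q _ => ?_)
    rw [fgb_ent_sa T hT p q]
    simp only [Complex.mul_re, Complex.conj_re, Complex.conj_im]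
    ring
  have htr : (tr (S * T)).re = (1 / (N : ℝ)) * (∑ p, ent (S * T) p p).re := by
    unfold tr
    rw [show (1 / (N : ℂ)) = ((1 / (N : ℝ) : ℝ) : ℂ) by push_cast; rfl, Complex.re_ofReal_mul]
  rw [htr, hR]
  rcases Nat.eq_zero_or_pos N with h0 | h0
  · subst h0
    simp
  · have : (N : ℝ) ≠ 0 := by exact_mod_cast h0.ne'
    field_simp

theorem norm_crd_sq {N : ℕ} (T : BN N) (hT : IsSelfAdjoint T) :
    ‖crd T‖ ^ 2 = (N : ℝ) ^ 2 * (tr (T * star T)).re := by
  rw [hT.star_eq, ← inner_crd T T hT hT, real_inner_self_eq_norm_sq]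

end Pool.Agent.Helper38.FE.FG
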