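import Pool.Agent.Helper246.FG.Defs

open MeasureTheory Filter Topology ProbabilityTheory
open scoped InnerProductSpace ENNReal

namespace Pool.Agent.Helper38.FE.FG

/-- matrix of the basis element -/
noncomputable def sum_Eb_EM (N : ℕ) (p : Fin N × Fin N) : Matrix (Fin N) (Fin N) ℂ :=
  Matrix.of fun i j => ((1 / √(N : ℝ) : ℝ) : ℂ) *
      (((1 + Complex.I) / 2) *
        (((EuclideanSpace.single p (1 : ℝ) : EuclideanSpace ℝ (Fin N × Fin N)) (i, j) : ℝ) : ℂ) +
      ((1 - Complex.I) / 2) *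
        (((EuclideanSpace.single p (1 : ℝ) : EuclideanSpace ℝ (Fin N × Fin N)) (j, i) : ℝ) : ℂ))

theorem sum_Eb_eq (N : ℕ) (p : Fin N × Fin N) :
    Eb N p = Matrix.toEuclideanCLM (n := Fin N) (𝕜 := ℂ) (sum_Eb_EM N p) := rfl

theorem sum_Eb_apply (N : ℕ) (p : Fin N × Fin N) (i j : Fin N) :
    sum_Eb_EM N p i j = ((1 / √(N : ℝ) : ℝ) : ℂ) *
      (((1 + Complex.I) / 2) * (if (i, j) = p then 1 else 0) +
        ((1 - Complex.I) / 2) * (if (j, i) = p then 1 else 0)) := by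
  unfold sum_Eb_EM
  rw [Matrix.of_apply]
  simp only [PiLp.single_apply]
  congr 3
  · split_ifs <;> simp
  · split_ifs <;> simp

theorem sum_Eb_delta {N : ℕ} (a b : Fin N × Fin N) :
    ∑ p : Fin N × Fin N, (if a = p then (1:ℂ) else 0) * (if b = p then 1 else 0) =
      if a = b then 1 else 0 := by
  simp only [ite_mul, one_mul, zero_mul, Finset.sum_ite_eq, Finset.mem_univ, if_true]
  by_cases h : a = b
  · rw [if_pos h, if_pos h.symm]
  · rw [if_neg h, if_neg (Ne.symm h)]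

theorem sum_Eb_cov {N : ℕ} (_hN : 0 < N) (i j k l : Fin N) :
    ∑ p : Fin N × Fin N, sum_Eb_EM N p i j * sum_Eb_EM N p k l =
      (1 / (N : ℂ)) * (if i = l ∧ j = k then 1 else 0) := by
  have hc : ((1 / √(N : ℝ) : ℝ) : ℂ) * ((1 / √(N : ℝ) : ℝ) : ℂ) = 1 / (N : ℂ) := by
    rw [← Complex.ofReal_mul]
    have h1 : (1 / √(N : ℝ)) * (1 / √(N : ℝ)) = 1 / (N : ℝ) := by
      rw [div_mul_div_comm, one_mul, Real.mul_self_sqrt (Nat.cast_nonneg N)]
    rw [h1]
    push_cast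
    rfl
  have h1 : ∀ p : Fin N × Fin N, sum_Eb_EM N p i j * sum_Eb_EM N p k l =
      (1 / (N : ℂ)) * (((1 + Complex.I) / 2) ^ 2 *
          ((if (i, j) = p then 1 else 0) * (if (k, l) = p then 1 else 0)) +
        ((1 + Complex.I) / 2) * ((1 - Complex.I) / 2) *
          ((if (i, j) = p then 1 else 0) * (if (l, k) = p then 1 else 0)) +
        ((1 + Complex.I) / 2) * ((1 - Complex.I) / 2) *
          ((if (j, i) = p then 1 else 0) * (if (k, l) = p then 1 else 0)) +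
        ((1 - Complex.I) / 2) ^ 2 *
          ((if (j, i) = p then 1 else 0) * (if (l, k) = p then 1 else 0))) := by
    intro p
    rw [sum_Eb_apply, sum_Eb_apply, ← hc]
    ring
  rw [Finset.sum_congr rfl fun p _ => h1 p, ← Finset.mul_sum]
  simp only [Finset.sum_add_distrib, ← Finset.mul_sum, sum_Eb_delta]
  have e1 : (if (j, i) = (l, k) then (1:ℂ) else 0) = if (i, j) = (k, l) then 1 else 0 := by
    congr 1
    simp only [Prod.mk.injEq, eq_iff_iff]
    tauto
  have e2 : (if (j, i) = (k, l) then (1:ℂ) else 0) = if i = l ∧ j = k then 1 else 0 := by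
    congr 1
    simp only [Prod.mk.injEq, eq_iff_iff]
    tauto
  have e3 : (if (i, j) = (l, k) then (1:ℂ) else 0) = if i = l ∧ j = k then 1 else 0 := by
    congr 1
    simp only [Prod.mk.injEq]
  rw [e1, e2, e3]
  have hI : Complex.I ^ 2 = -1 := Complex.I_sq
  congr 1
  linear_combination ((1/2 : ℂ) * (if (i, j) = (k, l) then (1:ℂ) else 0) -
    (1/2 : ℂ) * (if i = l ∧ j = k then 1 else 0)) * hI

theorem sum_Eb_ent {N : ℕ} (A : Matrix (Fin N) (Fin N) ℂ) (p q : Fin N) :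
    ent (Matrix.toEuclideanCLM (n := Fin N) (𝕜 := ℂ) A) p q = A p q := by
  unfold ent
  rw [Matrix.ofLp_toEuclideanCLM]
  simp

theorem sum_Eb_tr {N : ℕ} (A : Matrix (Fin N) (Fin N) ℂ) :
    tr (Matrix.toEuclideanCLM (n := Fin N) (𝕜 := ℂ) A) = (1 / (N : ℂ)) * ∑ p, A p p := by
  unfold tr
  simp only [sum_Eb_ent]

theorem sum_Eb_mul_Eb {N : ℕ} (hN : 0 < N) (T : BN N) :
    ∑ p, Eb N p * T * Eb N p = tr T • (1 : BN N) := by
  obtain ⟨A, rfl⟩ : ∃ A, Matrix.toEuclideanCLM (n := Fin N) (𝕜 := ℂ) A = T :=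
    ⟨(Matrix.toEuclideanCLM (n := Fin N) (𝕜 := ℂ)).symm T,
      (Matrix.toEuclideanCLM (n := Fin N) (𝕜 := ℂ)).apply_symm_apply T⟩
  simp only [sum_Eb_eq, ← map_mul]
  rw [← map_sum, ← map_one (Matrix.toEuclideanCLM (n := Fin N) (𝕜 := ℂ)), ← map_smul]
  congr 1
  ext i l
  rw [Matrix.sum_apply, sum_Eb_tr, Matrix.smul_apply, smul_eq_mul]
  have h1 : ∀ p : Fin N × Fin N, (sum_Eb_EM N p * A * sum_Eb_EM N p) i l =
      ∑ k, ∑ j, A j k * (sum_Eb_EM N p i j * sum_Eb_EM N p k l) := by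
    intro p
    rw [Matrix.mul_apply]
    refine Finset.sum_congr rfl fun k _ => ?_
    rw [Matrix.mul_apply, Finset.sum_mul]
    refine Finset.sum_congr rfl fun j _ => ?_
    ring
  rw [Finset.sum_congr rfl fun p _ => h1 p, Finset.sum_comm]
  have h2 : ∀ k : Fin N, ∑ p : Fin N × Fin N, ∑ j, A j k *
      (sum_Eb_EM N p i j * sum_Eb_EM N p k l) =
      ∑ j, A j k * ((1 / (N : ℂ)) * (if i = l ∧ j = k then 1 else 0)) := by
    intro k
    rw [Finset.sum_comm]
    refine Finset.sum_congr rfl fun j _ => ?_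
    rw [← Finset.mul_sum, sum_Eb_cov hN]
  rw [Finset.sum_congr rfl fun k _ => h2 k]
  by_cases hil : i = l
  · subst hil
    rw [Matrix.one_apply_eq, mul_one, Finset.mul_sum]
    refine Finset.sum_congr rfl fun k _ => ?_
    rw [Finset.sum_eq_single k]
    · simp
      ring
    · intro j _ hj
      simp [hj]
    · intro h
      exact absurd (Finset.mem_univ k) h
  · rw [Matrix.one_apply_ne hil, mul_zero]
    simp [hil]

theorem sum_tr_Eb_tr_Eb {N : ℕ} (hN : 0 < N) (S T : BN N) :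
    ∑ p, tr (Eb N p * S) * tr (Eb N p * T) = (1 / (N : ℂ) ^ 2) * tr (S * T) := by
  obtain ⟨A, rfl⟩ : ∃ A, Matrix.toEuclideanCLM (n := Fin N) (𝕜 := ℂ) A = S :=
    ⟨(Matrix.toEuclideanCLM (n := Fin N) (𝕜 := ℂ)).symm S,
      (Matrix.toEuclideanCLM (n := Fin N) (𝕜 := ℂ)).apply_symm_apply S⟩
  obtain ⟨B, rfl⟩ : ∃ B, Matrix.toEuclideanCLM (n := Fin N) (𝕜 := ℂ) B = T :=
    ⟨(Matrix.toEuclideanCLM (n := Fin N) (𝕜 := ℂ)).symm T,
      (Matrix.toEuclideanCLM (n := Fin N) (𝕜 := ℂ)).apply_symm_apply T⟩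
  simp only [sum_Eb_eq, ← map_mul, sum_Eb_tr]
  have h1 : ∀ p : Fin N × Fin N, (1 / (N : ℂ) * ∑ i, (sum_Eb_EM N p * A) i i) *
      (1 / (N : ℂ) * ∑ k, (sum_Eb_EM N p * B) k k) =
      (1 / (N : ℂ)) ^ 2 * ∑ i, ∑ k, ∑ j, ∑ l,
        (A j i * B l k) * (sum_Eb_EM N p i j * sum_Eb_EM N p k l) := by
    intro p
    rw [mul_mul_mul_comm, ← pow_two, Finset.sum_mul_sum]
    congr 1
    refine Finset.sum_congr rfl fun i _ => Finset.sum_congr rfl fun k _ => ?_
    rw [Matrix.mul_apply, Matrix.mul_apply, Finset.sum_mul_sum]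
    refine Finset.sum_congr rfl fun j _ => Finset.sum_congr rfl fun l _ => ?_
    ring
  rw [Finset.sum_congr rfl fun p _ => h1 p, ← Finset.mul_sum, Finset.sum_comm]
  have h2 : ∀ i : Fin N, ∑ p : Fin N × Fin N, ∑ k, ∑ j, ∑ l,
        (A j i * B l k) * (sum_Eb_EM N p i j * sum_Eb_EM N p k l) =
      1 / (N : ℂ) * ∑ k, A k i * B i k := by
    intro i
    rw [Finset.sum_comm, Finset.mul_sum]
    refine Finset.sum_congr rfl fun k _ => ?_
    rw [Finset.sum_comm]
    rw [Finset.sum_eq_single k]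
    · rw [Finset.sum_comm, Finset.sum_eq_single i]
      · rw [← Finset.mul_sum, sum_Eb_cov hN]
        simp
        ring
      · intro l _ hl
        rw [← Finset.mul_sum, sum_Eb_cov hN]
        simp [Ne.symm hl]
      · intro h
        exact absurd (Finset.mem_univ i) h
    · intro j _ hj
      rw [Finset.sum_comm]
      refine Finset.sum_eq_zero fun l _ => ?_
      rw [← Finset.mul_sum, sum_Eb_cov hN]
      simp [hj]
    · intro h
      exact absurd (Finset.mem_univ k) h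
  rw [Finset.sum_congr rfl fun i _ => h2 i, ← Finset.mul_sum]
  have h3 : ∑ p, (A * B) p p = ∑ i, ∑ k, A k i * B i k := by
    rw [Finset.sum_comm]
    exact Finset.sum_congr rfl fun p _ => Matrix.mul_apply
  rw [h3]
  ring

end Pool.Agent.Helper38.FE.FG
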