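import Pool.Agent.Helper246.FG.B2
import Pool.Agent.Helper246.FG.B3

open MeasureTheory Filter Topology ProbabilityTheory
open scoped InnerProductSpace ENNReal

namespace Pool.Agent.Helper38.FE.FG

theorem Eb_sa (N : ℕ) (p : Fin N × Fin N) : star (Eb N p) = Eb N p := Hm_sa N _

theorem j16145_a1 {R : Type*} [Monoid R] (a e t b : R) :
    a * e * t * e * b = a * (e * t * e) * b := by simp only [mul_assoc]

theorem j16145_a2 {R : Type*} [Monoid R] [StarMul R] (A B C D e : R) (he : star e = e) :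
    (A * e * B) * star (C * e * D) = A * e * (B * star D) * e * star C := by
  simp only [star_mul, he, mul_assoc]

theorem j16145_a3 {R : Type*} [Monoid R] (A B C D e : R) :
    (A * e * B) * (C * e * D) = A * e * (B * C) * e * D := by
  simp only [mul_assoc]

theorem j16145_a4 {R : Type*} [Monoid R] (e X f Y : R) :
    e * X * f * Y = e * (X * f * Y) := by
  simp only [mul_assoc]

theorem j16145_a5 {R : Type*} [Monoid R] [StarMul R] (e X f Y : R) (he : star e = e)
    (hf : star f = f) : star (e * X * f * Y) = (star Y * f * star X) * e := by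
  simp only [star_mul, he, hf, mul_assoc]

theorem j16145_a6 {R : Type*} [Monoid R] [StarMul R] (X Y X' Y' f : R) :
    X * f * Y * (star Y' * f * star X') = X * f * (Y * star Y') * f * star X' := by
  simp only [mul_assoc]

theorem j16145_a7 {R : Type*} [Monoid R] [StarMul R] (A M B A' M' B' e f : R) (he : star e = e)
    (hf : star f = f) :
    (A * e * M * f * B) * star (A' * e * M' * f * B') =
      (A * e * M) * f * (B * star B') * f * (star M' * e * star A') := by
  simp only [star_mul, he, hf, mul_assoc]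

theorem j16145_a8 {R : Type*} [Monoid R] [StarMul R] (A M A' M' e : R) :
    A * e * M * (star M' * e * star A') = A * e * (M * star M') * e * star A' := by
  simp only [mul_assoc]

theorem j16145_key {N : ℕ} (hN : 0 < N) (A T B : BN N) :
    ∑ p, tr (A * Eb N p * T * Eb N p * B) = tr T * tr (A * B) := by
  rw [← tr_sum, ← tr_smul]
  congr 1
  have h1 : ∑ p, A * Eb N p * T * Eb N p * B = A * (∑ p, Eb N p * T * Eb N p) * B := by
    rw [Finset.mul_sum, Finset.sum_mul]
    exact Finset.sum_congr rfl fun p _ => j16145_a1 _ _ _ _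
  rw [h1, sum_Eb_mul_Eb hN, mul_smul_comm, mul_one, smul_mul_assoc]

theorem sum_H1 {N : ℕ} (hN : 0 < N) (A B C D : BN N) :
    ∑ p, tr ((A * Eb N p * B) * star (C * Eb N p * D)) = tr (star D * B) * tr (star C * A) := by
  rw [tr_mul_comm (star D), tr_mul_comm (star C), ← j16145_key hN]
  exact Finset.sum_congr rfl fun p _ => congrArg tr (j16145_a2 _ _ _ _ _ (Eb_sa N p))

theorem sum_H2 {N : ℕ} (hN : 0 < N) (A B C D : BN N) :
    ∑ p, tr ((A * Eb N p * B) * (C * Eb N p * D)) = tr (B * C) * tr (D * A) := by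
  rw [tr_mul_comm D, ← j16145_key hN]
  exact Finset.sum_congr rfl fun p _ => congrArg tr (j16145_a3 _ _ _ _ _)

theorem j16145_pair {N : ℕ} (hN : 0 < N) (X Y X' Y' : BN N) :
    ∑ p, ∑ p', tr (Eb N p * X * Eb N p' * Y) * star (tr (Eb N p * X' * Eb N p' * Y')) =
      (1 / (N : ℂ) ^ 2) * (tr (star Y' * Y) * tr (star X' * X)) := by
  rw [Finset.sum_comm]
  have h1 : ∀ p p' : Fin N × Fin N,
      tr (Eb N p * X * Eb N p' * Y) * star (tr (Eb N p * X' * Eb N p' * Y')) =
      tr (Eb N p * (X * Eb N p' * Y)) * tr (Eb N p * (star Y' * Eb N p' * star X')) := by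
    intro p p'
    rw [← tr_star]
    have e1 := congrArg tr (j16145_a4 (Eb N p) X (Eb N p') Y)
    have e2 := congrArg tr (j16145_a5 (Eb N p) X' (Eb N p') Y' (Eb_sa N p) (Eb_sa N p'))
    rw [tr_mul_comm (star Y' * Eb N p' * star X')] at e2
    rw [e1, e2]
  have h2 : ∀ p' : Fin N × Fin N, ∑ p, tr (Eb N p * X * Eb N p' * Y) *
      star (tr (Eb N p * X' * Eb N p' * Y')) =
      (1 / (N : ℂ) ^ 2) * tr (X * Eb N p' * (Y * star Y') * Eb N p' * star X') := by
    intro p'
    rw [← congrArg tr (j16145_a6 X Y X' Y' (Eb N p')), ← sum_tr_Eb_tr_Eb hN]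
    exact Finset.sum_congr rfl fun p _ => h1 p p'
  rw [Finset.sum_congr rfl fun p' _ => h2 p', ← Finset.mul_sum, j16145_key hN,
    tr_mul_comm (star Y'), tr_mul_comm (star X')]

theorem j16145_swap {I κ : Type*} [Fintype I] (s : Finset κ) (F : I → I → κ → κ → ℂ) :
    ∑ p, ∑ p', ∑ q ∈ s, ∑ q' ∈ s, F p p' q q' = ∑ q ∈ s, ∑ q' ∈ s, ∑ p, ∑ p', F p p' q q' := by
  calc ∑ p, ∑ p', ∑ q ∈ s, ∑ q' ∈ s, F p p' q q'
        = ∑ p, ∑ q ∈ s, ∑ p', ∑ q' ∈ s, F p p' q q' :=
          Finset.sum_congr rfl fun p _ => Finset.sum_comm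
      _ = ∑ p, ∑ q ∈ s, ∑ q' ∈ s, ∑ p', F p p' q q' :=
          Finset.sum_congr rfl fun p _ => Finset.sum_congr rfl fun q _ => Finset.sum_comm
      _ = ∑ q ∈ s, ∑ p, ∑ q' ∈ s, ∑ p', F p p' q q' := Finset.sum_comm
      _ = ∑ q ∈ s, ∑ q' ∈ s, ∑ p, ∑ p', F p p' q q' :=
          Finset.sum_congr rfl fun q _ => Finset.sum_comm

theorem j16145_normsq {κ : Type*} (s : Finset κ) (z : κ → ℂ) :
    ((‖∑ q ∈ s, z q‖ ^ 2 : ℝ) : ℂ) = ∑ q ∈ s, ∑ q' ∈ s, z q * star (z q') := by
  push_cast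
  rw [← Complex.mul_conj', Finset.sum_mul]
  refine Finset.sum_congr rfl fun q _ => ?_
  rw [map_sum, Finset.mul_sum]
  rfl

theorem sum_H3 {N : ℕ} (hN : 0 < N) {κ : Type} (s : Finset κ) (X Y : κ → BN N) :
    ∑ p, ∑ p', ‖∑ q ∈ s, tr (Eb N p * X q * Eb N p' * Y q)‖ ^ 2 =
      (1 / (N : ℝ) ^ 2) * ∑ q ∈ s, ∑ q' ∈ s,
        (tr (star (Y q') * Y q) * tr (star (X q') * X q)).re := by
  have h1 : ((∑ p, ∑ p', ‖∑ q ∈ s, tr (Eb N p * X q * Eb N p' * Y q)‖ ^ 2 : ℝ) : ℂ) =
      (1 / (N : ℂ) ^ 2) * ∑ q ∈ s, ∑ q' ∈ s,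
        (tr (star (Y q') * Y q) * tr (star (X q') * X q)) := by
    rw [Complex.ofReal_sum]
    have h2 : ∀ p : Fin N × Fin N,
        ((∑ p', ‖∑ q ∈ s, tr (Eb N p * X q * Eb N p' * Y q)‖ ^ 2 : ℝ) : ℂ) =
        ∑ p', ∑ q ∈ s, ∑ q' ∈ s, tr (Eb N p * X q * Eb N p' * Y q) *
          star (tr (Eb N p * X q' * Eb N p' * Y q')) := by
      intro p
      rw [Complex.ofReal_sum]
      exact Finset.sum_congr rfl fun p' _ => j16145_normsq s _
    rw [Finset.sum_congr rfl fun p _ => h2 p]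
    rw [j16145_swap s (fun p p' q q' => tr (Eb N p * X q * Eb N p' * Y q) *
          star (tr (Eb N p * X q' * Eb N p' * Y q')))]
    rw [Finset.mul_sum]
    refine Finset.sum_congr rfl fun q _ => ?_
    rw [Finset.mul_sum]
    exact Finset.sum_congr rfl fun q' _ => j16145_pair hN _ _ _ _
  have h3 := congrArg Complex.re h1
  rw [Complex.ofReal_re] at h3
  rw [h3]
  have h4 : (1 / (N : ℂ) ^ 2) = (((1 / (N : ℝ) ^ 2 : ℝ)) : ℂ) := by push_cast; rfl
  rw [h4, Complex.re_ofReal_mul, Complex.re_sum]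
  congr 1
  exact Finset.sum_congr rfl fun q _ => Complex.re_sum _ _

theorem j16145_quad {N : ℕ} (hN : 0 < N) (A M B A' M' B' : BN N) :
    ∑ p, ∑ p', tr ((A * Eb N p * M * Eb N p' * B) * star (A' * Eb N p * M' * Eb N p' * B')) =
      tr (star A' * A) * tr (star M' * M) * tr (star B' * B) := by
  have h1 : ∀ p : Fin N × Fin N,
      ∑ p', tr ((A * Eb N p * M * Eb N p' * B) * star (A' * Eb N p * M' * Eb N p' * B')) =
      tr (B * star B') * tr (A * Eb N p * (M * star M') * Eb N p * star A') := by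
    intro p
    rw [← congrArg tr (j16145_a8 A M A' M' (Eb N p)), ← j16145_key hN]
    exact Finset.sum_congr rfl fun p' _ => congrArg tr
      (j16145_a7 _ _ _ _ _ _ _ _ (Eb_sa N p) (Eb_sa N p'))
  rw [Finset.sum_congr rfl fun p _ => h1 p, ← Finset.mul_sum, j16145_key hN,
    tr_mul_comm (star A'), tr_mul_comm (star M'), tr_mul_comm (star B')]
  ring

theorem j16145_star_sum {N : ℕ} {κ : Type} (s : Finset κ) (F : κ → BN N) :
    star (∑ q ∈ s, F q) = ∑ q ∈ s, star (F q) := by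
  show ContinuousLinearMap.adjoint (∑ q ∈ s, F q) = ∑ q ∈ s, ContinuousLinearMap.adjoint (F q)
  rw [map_sum]

theorem sum_H4 {N : ℕ} (hN : 0 < N) {κ : Type} (s : Finset κ) (A M B : κ → BN N) :
    ∑ p, ∑ p', (tr ((∑ q ∈ s, A q * Eb N p * M q * Eb N p' * B q) *
        star (∑ q ∈ s, A q * Eb N p * M q * Eb N p' * B q))).re =
      ∑ q ∈ s, ∑ q' ∈ s, (tr (star (A q') * A q) * tr (star (M q') * M q) *
        tr (star (B q') * B q)).re := by
  have h1 : ∑ p, ∑ p', (tr ((∑ q ∈ s, A q * Eb N p * M q * Eb N p' * B q) *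
        star (∑ q ∈ s, A q * Eb N p * M q * Eb N p' * B q))) =
      ∑ q ∈ s, ∑ q' ∈ s, (tr (star (A q') * A q) * tr (star (M q') * M q) *
        tr (star (B q') * B q)) := by
    have h2 : ∀ p p' : Fin N × Fin N, tr ((∑ q ∈ s, A q * Eb N p * M q * Eb N p' * B q) *
        star (∑ q ∈ s, A q * Eb N p * M q * Eb N p' * B q)) =
        ∑ q ∈ s, ∑ q' ∈ s, tr ((A q * Eb N p * M q * Eb N p' * B q) *
          star (A q' * Eb N p * M q' * Eb N p' * B q')) := by
      intro p p'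
      rw [Finset.sum_mul, tr_sum]
      refine Finset.sum_congr rfl fun q _ => ?_
      rw [j16145_star_sum, Finset.mul_sum, tr_sum]
    rw [Finset.sum_congr rfl fun p _ => Finset.sum_congr rfl fun p' _ => h2 p p']
    rw [j16145_swap s (fun p p' q q' => tr ((A q * Eb N p * M q * Eb N p' * B q) *
          star (A q' * Eb N p * M q' * Eb N p' * B q')))]
    exact Finset.sum_congr rfl fun q _ => Finset.sum_congr rfl fun q' _ => j16145_quad hN _ _ _ _ _ _
  have h3 := congrArg Complex.re h1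
  rw [Complex.re_sum, Complex.re_sum] at h3
  rw [Finset.sum_congr rfl fun p _ => Complex.re_sum _ _] at h3
  rw [h3]
  exact Finset.sum_congr rfl fun q _ => Complex.re_sum _ _

end Pool.Agent.Helper38.FE.FG
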