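import Pool.Agent.Helper246.FG.B4
import Pool.Agent.Helper246.FG.A1

open MeasureTheory Filter Topology ProbabilityTheory
open scoped InnerProductSpace ENNReal

namespace Pool.Agent.Helper38.FE.FG

theorem norm_al_sq : ‖al‖ ^ 2 = 1 / 2 := by
  rw [al, norm_div, Complex.norm_I, Complex.norm_real, Real.norm_of_nonneg (Real.sqrt_nonneg 2),
    div_pow, Real.sq_sqrt (by norm_num)]
  norm_num

theorem hs_gen {N : ℕ} (hN : 0 < N) {n : ℕ} (A B : Fin n → BN N) (c : Fin n → Fin 3)
    (a : Fin 3 → Fin N × Fin N → BN N)
    (ha : ∀ i p, a i p = ∑ j, al • (A j * (if c j = i then Eb N p else 0) * B j)) :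
    ∑ i, ∑ p, ‖crd (a i p + star (a i p))‖ ^ 2 = (N : ℝ) ^ 2 * (∑ j, ∑ k,
      if c j = c k then tr (star (A k) * A j) * tr (star (B k) * B j)
        - tr (B j * A k) * tr (B k * A j) else 0).re := by
  classical
  have hal : al * star al = 1 / 2 := by
    have h1 : al * star al = ((‖al‖ ^ 2 : ℝ) : ℂ) := by
      rw [← Complex.normSq_eq_norm_sq]
      exact Complex.mul_conj al
    rw [h1, norm_al_sq]
    norm_num
  have sadd : ∀ x y : BN N, star (x + y) = star x + star y := fun x y => star_add x y
  have ssum : ∀ f : Fin n → BN N, star (∑ j, f j) = ∑ j, star (f j) := fun f => star_sum _ f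
  have ssmul : ∀ (c : ℂ) (x : BN N), star (c • x) = star c • star x := fun c x => star_smul c x
  have sss : ∀ x : BN N, star (star x) = x := fun x => star_star x
  have smul' : ∀ x y : BN N, star (x * y) = star y * star x := fun x y => star_mul x y
  have hS : ∀ i, ∑ p, tr (a i p * star (a i p)) = ∑ j, ∑ k, if c j = i ∧ c k = i then
      (1 / 2 : ℂ) * (tr (star (B k) * B j) * tr (star (A k) * A j)) else 0 := by
    intro i
    have h1 : ∀ p, tr (a i p * star (a i p)) = ∑ j, ∑ k, if c j = i ∧ c k = i then
        (1 / 2 : ℂ) * tr ((A j * Eb N p * B j) * star (A k * Eb N p * B k)) else 0 := by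
      intro p
      rw [ha, ssum, Finset.sum_mul_sum, tr_sum]
      apply Finset.sum_congr rfl
      intro j _
      rw [tr_sum]
      apply Finset.sum_congr rfl
      intro k _
      rw [ssmul, smul_mul_smul_comm, tr_smul, hal]
      by_cases hj : c j = i
      · by_cases hk : c k = i
        · rw [if_pos hj, if_pos hk, if_pos ⟨hj, hk⟩]
        · have hn : ¬ (c j = i ∧ c k = i) := fun h => hk h.2
          rw [if_neg hk, if_neg hn]
          simp [tr_zero]
      · have hn : ¬ (c j = i ∧ c k = i) := fun h => hj h.1
        rw [if_neg hj, if_neg hn]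
        simp [tr_zero]
    rw [Finset.sum_congr rfl (fun p _ => h1 p), Finset.sum_comm]
    apply Finset.sum_congr rfl
    intro j _
    rw [Finset.sum_comm]
    apply Finset.sum_congr rfl
    intro k _
    by_cases h : c j = i ∧ c k = i
    · simp only [if_pos h]
      rw [← Finset.mul_sum, sum_H1 hN]
    · simp only [if_neg h]
      simp
  have hR : ∀ i, ∑ p, tr (a i p * a i p) = ∑ j, ∑ k, if c j = i ∧ c k = i then
      (-(1 / 2) : ℂ) * (tr (B j * A k) * tr (B k * A j)) else 0 := by
    intro i
    have h1 : ∀ p, tr (a i p * a i p) = ∑ j, ∑ k, if c j = i ∧ c k = i then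
        (-(1 / 2) : ℂ) * tr ((A j * Eb N p * B j) * (A k * Eb N p * B k)) else 0 := by
      intro p
      rw [ha, Finset.sum_mul_sum, tr_sum]
      apply Finset.sum_congr rfl
      intro j _
      rw [tr_sum]
      apply Finset.sum_congr rfl
      intro k _
      rw [smul_mul_smul_comm, tr_smul, ← sq, al_sq]
      by_cases hj : c j = i
      · by_cases hk : c k = i
        · rw [if_pos hj, if_pos hk, if_pos ⟨hj, hk⟩]
        · have hn : ¬ (c j = i ∧ c k = i) := fun h => hk h.2
          rw [if_neg hk, if_neg hn]
          simp [tr_zero]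
      · have hn : ¬ (c j = i ∧ c k = i) := fun h => hj h.1
        rw [if_neg hj, if_neg hn]
        simp [tr_zero]
    rw [Finset.sum_congr rfl (fun p _ => h1 p), Finset.sum_comm]
    apply Finset.sum_congr rfl
    intro j _
    rw [Finset.sum_comm]
    apply Finset.sum_congr rfl
    intro k _
    by_cases h : c j = i ∧ c k = i
    · simp only [if_pos h]
      rw [← Finset.mul_sum, sum_H2 hN]
    · simp only [if_neg h]
      simp
  have hT : ∀ i p, ‖crd (a i p + star (a i p))‖ ^ 2
      = (N : ℝ) ^ 2 * (2 * tr (a i p * star (a i p)) + 2 * tr (a i p * a i p)).re := by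
    intro i p
    set x := a i p with hx
    have hsa : IsSelfAdjoint (x + star x) := by
      rw [isSelfAdjoint_iff, sadd, sss, add_comm]
    rw [norm_crd_sq _ hsa]
    congr 1
    have e1 : (x + star x) * star (x + star x) = x * star x + x * x + star (x * x) + star x * x := by
      rw [sadd, sss, smul']
      noncomm_ring
    rw [e1, tr_add, tr_add, tr_add, tr_star, tr_mul_comm (star x) x]
    simp only [Complex.add_re, Complex.star_def, Complex.conj_re, Complex.mul_re, Complex.re_ofNat,
      Complex.im_ofNat, zero_mul, sub_zero]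
    ring
  calc ∑ i, ∑ p, ‖crd (a i p + star (a i p))‖ ^ 2
      = ∑ i, ∑ p, (N : ℝ) ^ 2 * (2 * tr (a i p * star (a i p)) + 2 * tr (a i p * a i p)).re := by
        simp only [hT]
    _ = (N : ℝ) ^ 2 * (∑ i, (2 * ∑ p, tr (a i p * star (a i p)) + 2 * ∑ p, tr (a i p * a i p))).re := by
        rw [Complex.re_sum, Finset.mul_sum]
        apply Finset.sum_congr rfl
        intro i _
        rw [← Finset.mul_sum]
        congr 1
        rw [Finset.mul_sum, Finset.mul_sum, ← Finset.sum_add_distrib, Complex.re_sum]
    _ = _ := by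
        congr 2
        simp only [hS, hR, Finset.mul_sum, ← Finset.sum_add_distrib]
        rw [Finset.sum_comm]
        apply Finset.sum_congr rfl
        intro j _
        rw [Finset.sum_comm]
        apply Finset.sum_congr rfl
        intro k _
        by_cases h : c j = c k
        · rw [if_pos h, Finset.sum_eq_single (c j)]
          · rw [if_pos ⟨rfl, h.symm⟩, if_pos ⟨rfl, h.symm⟩]
            ring
          · intro i _ hi
            rw [if_neg (fun h' => hi h'.1.symm), if_neg (fun h' => hi h'.1.symm)]
            simp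
          · intro h'; exact absurd (Finset.mem_univ _) h'
        · rw [if_neg h]
          apply Finset.sum_eq_zero
          intro i _
          rw [if_neg (fun h' => h (h'.1.trans h'.2.symm)), if_neg (fun h' => h (h'.1.trans h'.2.symm))]
          simp

end Pool.Agent.Helper38.FE.FG
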