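import Pool.Agent.Helper246.FG.B2

open MeasureTheory Filter Topology ProbabilityTheory
open scoped InnerProductSpace ENNReal

namespace Pool.Agent.Helper38.FE.FG

theorem j16148_Q {A : Type*} [Ring A] [StarRing A] [Algebra ℂ A] [StarModule ℂ A] (a : A) :
    IsSelfAdjoint (Complex.I • (a - star a)) := by
  rw [isSelfAdjoint_iff, star_smul, star_sub, star_star, Complex.star_def, Complex.conj_I,
    neg_smul, ← smul_neg, neg_sub]

theorem j16148_mul {A : Type*} [Ring A] [StarRing A] [Algebra ℂ A] (a b : A) :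
    (Complex.I • (a - star a)) * (Complex.I • (b - star b)) =
        -(a * b - a * star b - star a * b + star a * star b) := by
  rw [smul_mul_smul_comm, Complex.I_mul_I, neg_one_smul, sub_mul, mul_sub, mul_sub]
  congr 1
  abel

theorem j16148_mul' {A : Type*} [Ring A] [StarRing A] (a b : A) :
    (a + star a) * (b + star b) = a * b + a * star b + star a * b + star a * star b := by
  rw [add_mul, mul_add, mul_add]; abel

theorem j16148_star {A : Type*} [Ring A] [StarRing A] (a b : A) :
    star (star a * b) = star b * a := by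
  rw [star_mul, star_star]

/-- Gram matrices: `tr(PQ) ≥ 0` -/
theorem sum_inner_mul_inner_nonneg {κ ι : Type} [Fintype κ] [Fintype ι]
    (p q : κ → EuclideanSpace ℝ ι) :
    0 ≤ ∑ e, ∑ e', ⟪p e, p e'⟫_ℝ * ⟪q e, q e'⟫_ℝ := by
  have h : ∑ e, ∑ e', ⟪p e, p e'⟫_ℝ * ⟪q e, q e'⟫_ℝ =
      ∑ x, ∑ y, (∑ e, p e x * q e y) ^ 2 := by
    have h1 : ∀ e e', ⟪p e, p e'⟫_ℝ * ⟪q e, q e'⟫_ℝ =
        ∑ x, ∑ y, (p e x * q e y) * (p e' x * q e' y) := by
      intro e e'
      rw [PiLp.inner_apply, PiLp.inner_apply, Finset.sum_mul_sum]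
      apply Finset.sum_congr rfl
      intro x _
      apply Finset.sum_congr rfl
      intro y _
      simp only [RCLike.inner_apply, conj_trivial]
      ring
    simp only [h1]
    have h2 : ∀ x y, (∑ e, p e x * q e y) ^ 2 =
        ∑ e, ∑ e', (p e x * q e y) * (p e' x * q e' y) := by
      intro x y
      rw [sq, Finset.sum_mul_sum]
    simp only [h2]
    rw [Finset.sum_congr rfl (fun e _ => Finset.sum_comm), Finset.sum_comm]
    apply Finset.sum_congr rfl
    intro x _
    rw [Finset.sum_congr rfl (fun e _ => Finset.sum_comm), Finset.sum_comm]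
  rw [h]
  exact Finset.sum_nonneg fun x _ => Finset.sum_nonneg fun y _ => sq_nonneg _

theorem gram_ineq {N : ℕ} {κ : Type} [Fintype κ] (a : κ → BN N) :
    ∑ e, ∑ e', ⟪crd (a e + star (a e)), crd (a e' + star (a e'))⟫_ℝ ^ 2 ≤
      16 * (N : ℝ) ^ 4 * ∑ e, ∑ e', ‖tr (a e * star (a e'))‖ ^ 2 := by
  have hS : ∀ e, IsSelfAdjoint (a e + star (a e)) := by
    intro e
    exact IsSelfAdjoint.add_star_self (a e)
  have hQ : ∀ e, IsSelfAdjoint (Complex.I • (a e - star (a e))) := by
    intro e
    exact j16148_Q (a e)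
  have hkey : ∀ e e', ⟪crd (a e + star (a e)), crd (a e' + star (a e'))⟫_ℝ +
      ⟪crd (Complex.I • (a e - star (a e))), crd (Complex.I • (a e' - star (a e')))⟫_ℝ =
      4 * (N : ℝ) ^ 2 * (tr (a e * star (a e'))).re := by
    intro e e'
    rw [inner_crd _ _ (hS e) (hS e'), inner_crd _ _ (hQ e) (hQ e')]
    have h1 : (a e + star (a e)) * (a e' + star (a e')) =
        a e * a e' + a e * star (a e') + star (a e) * a e' + star (a e) * star (a e') :=
      j16148_mul' _ _
    have h2 : (Complex.I • (a e - star (a e))) * (Complex.I • (a e' - star (a e'))) =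
        -(a e * a e' - a e * star (a e') - star (a e) * a e' + star (a e) * star (a e')) :=
      j16148_mul _ _
    have h3 : (tr (star (a e) * a e')).re = (tr (a e * star (a e'))).re := by
      have h4 : star (tr (star (a e) * a e')) = tr (a e * star (a e')) := by
        have h40 : star (star (a e) * a e') = star (a e') * a e := j16148_star (a e) (a e')
        rw [← tr_star, h40, tr_mul_comm]
      rw [← h4, Complex.star_def, Complex.conj_re]
    rw [h1, h2, tr_neg, tr_add, tr_add, tr_add, tr_add, tr_sub, tr_sub, Complex.neg_re]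
    simp only [Complex.add_re, Complex.sub_re]
    rw [h3]
    ring
  have hnn := sum_inner_mul_inner_nonneg (fun e => crd (a e + star (a e)))
    (fun e => crd (Complex.I • (a e - star (a e))))
  have h5 : ∑ e, ∑ e', ⟪crd (a e + star (a e)), crd (a e' + star (a e'))⟫_ℝ ^ 2 ≤
      ∑ e, ∑ e', (⟪crd (a e + star (a e)), crd (a e' + star (a e'))⟫_ℝ +
      ⟪crd (Complex.I • (a e - star (a e))), crd (Complex.I • (a e' - star (a e')))⟫_ℝ) ^ 2 := by
    have h6 : ∑ e, ∑ e', (⟪crd (a e + star (a e)), crd (a e' + star (a e'))⟫_ℝ +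
        ⟪crd (Complex.I • (a e - star (a e))), crd (Complex.I • (a e' - star (a e')))⟫_ℝ) ^ 2 =
        ∑ e, ∑ e', ⟪crd (a e + star (a e)), crd (a e' + star (a e'))⟫_ℝ ^ 2 +
        2 * (∑ e, ∑ e', ⟪crd (a e + star (a e)), crd (a e' + star (a e'))⟫_ℝ *
          ⟪crd (Complex.I • (a e - star (a e))), crd (Complex.I • (a e' - star (a e')))⟫_ℝ) +
        ∑ e, ∑ e',
          ⟪crd (Complex.I • (a e - star (a e))), crd (Complex.I • (a e' - star (a e')))⟫_ℝ ^ 2 := by
      rw [Finset.mul_sum, ← Finset.sum_add_distrib, ← Finset.sum_add_distrib]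
      apply Finset.sum_congr rfl
      intro e _
      rw [Finset.mul_sum, ← Finset.sum_add_distrib, ← Finset.sum_add_distrib]
      apply Finset.sum_congr rfl
      intro e' _
      ring
    rw [h6]
    have h7 : 0 ≤ ∑ e, ∑ e',
        ⟪crd (Complex.I • (a e - star (a e))), crd (Complex.I • (a e' - star (a e')))⟫_ℝ ^ 2 :=
      Finset.sum_nonneg fun e _ => Finset.sum_nonneg fun e' _ => sq_nonneg _
    have h8 : 0 ≤ ∑ e, ∑ e', ⟪crd (a e + star (a e)), crd (a e' + star (a e'))⟫_ℝ *
          ⟪crd (Complex.I • (a e - star (a e))), crd (Complex.I • (a e' - star (a e')))⟫_ℝ := hnn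
    linarith
  refine h5.trans ?_
  rw [Finset.mul_sum]
  apply Finset.sum_le_sum
  intro e _
  rw [Finset.mul_sum]
  apply Finset.sum_le_sum
  intro e' _
  rw [hkey]
  have h9 : (tr (a e * star (a e'))).re ^ 2 ≤ ‖tr (a e * star (a e'))‖ ^ 2 := by
    rw [← sq_abs]
    exact pow_le_pow_left₀ (abs_nonneg _) (Complex.abs_re_le_norm _) 2
  calc (4 * (N : ℝ) ^ 2 * (tr (a e * star (a e'))).re) ^ 2 =
      16 * (N : ℝ) ^ 4 * (tr (a e * star (a e'))).re ^ 2 := by ring
    _ ≤ 16 * (N : ℝ) ^ 4 * ‖tr (a e * star (a e'))‖ ^ 2 :=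
      mul_le_mul_of_nonneg_left h9 (by positivity)

end Pool.Agent.Helper38.FE.FG
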