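import Pool.Agent.Helper246.FG.B4
import Pool.Agent.Helper246.FG.B5

open MeasureTheory Filter Topology ProbabilityTheory
open scoped InnerProductSpace ENNReal

namespace Pool.Agent.Helper38.FE.FG

/-- swapping the sums over the colours with the sums over the pairs -/
theorem hs4_piece_sum {n : ℕ} (c : Fin n → Fin 3) (R : Fin n → Fin n → Prop) [DecidableRel R]
    (g : Fin n × Fin n → Fin n × Fin n → ℝ) :
    ∑ i : Fin 3, ∑ i2 : Fin 3,
      ∑ q ∈ Finset.univ.filter (fun q : Fin n × Fin n => R q.1 q.2 ∧ c q.1 = i ∧ c q.2 = i2),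
      ∑ q' ∈ Finset.univ.filter (fun q : Fin n × Fin n => R q.1 q.2 ∧ c q.1 = i ∧ c q.2 = i2),
        g q q' =
    ∑ j, ∑ k, ∑ j', ∑ k', if R j k ∧ R j' k' ∧ c j = c j' ∧ c k = c k' then
      g (j, k) (j', k') else 0 := by
  have h1 : ∀ i i2 : Fin 3,
      (∑ q ∈ Finset.univ.filter (fun q : Fin n × Fin n => R q.1 q.2 ∧ c q.1 = i ∧ c q.2 = i2),
      ∑ q' ∈ Finset.univ.filter (fun q : Fin n × Fin n => R q.1 q.2 ∧ c q.1 = i ∧ c q.2 = i2),
        g q q') = ∑ q : Fin n × Fin n, ∑ q' : Fin n × Fin n,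
        if (R q.1 q.2 ∧ c q.1 = i ∧ c q.2 = i2) ∧ (R q'.1 q'.2 ∧ c q'.1 = i ∧ c q'.2 = i2)
          then g q q' else 0 := by
    intro i i2
    rw [Finset.sum_filter]
    refine Finset.sum_congr rfl (fun q _ => ?_)
    by_cases hq : (R q.1 q.2 ∧ c q.1 = i ∧ c q.2 = i2)
    · rw [if_pos hq, Finset.sum_filter]
      refine Finset.sum_congr rfl (fun q' _ => ?_)
      by_cases hq' : (R q'.1 q'.2 ∧ c q'.1 = i ∧ c q'.2 = i2)
      · rw [if_pos hq', if_pos ⟨hq, hq'⟩]
      · rw [if_neg hq', if_neg (fun h => hq' h.2)]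
    · rw [if_neg hq]
      symm
      exact Finset.sum_eq_zero (fun q' _ => if_neg (fun h => hq h.1))
  simp_rw [h1]
  have h2 : ∀ F : Fin 3 → Fin 3 → Fin n × Fin n → Fin n × Fin n → ℝ,
      ∑ i : Fin 3, ∑ i2 : Fin 3, ∑ q : Fin n × Fin n, ∑ q' : Fin n × Fin n, F i i2 q q' =
      ∑ q, ∑ q', ∑ i, ∑ i2, F i i2 q q' := by
    intro F
    have e1 : ∀ i : Fin 3, ∑ i2 : Fin 3, ∑ q : Fin n × Fin n, ∑ q' : Fin n × Fin n, F i i2 q q' =
        ∑ q : Fin n × Fin n, ∑ q' : Fin n × Fin n, ∑ i2 : Fin 3, F i i2 q q' := by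
      intro i
      rw [Finset.sum_comm]
      refine Finset.sum_congr rfl (fun q _ => ?_)
      rw [Finset.sum_comm]
    simp_rw [e1]
    rw [Finset.sum_comm]
    refine Finset.sum_congr rfl (fun q _ => ?_)
    rw [Finset.sum_comm]
  rw [h2]
  rw [Fintype.sum_prod_type]
  refine Finset.sum_congr rfl (fun j _ => Finset.sum_congr rfl (fun k _ => ?_))
  rw [Fintype.sum_prod_type]
  refine Finset.sum_congr rfl (fun j' _ => Finset.sum_congr rfl (fun k' _ => ?_))
  dsimp only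
  rw [Finset.sum_eq_single (c j), Finset.sum_eq_single (c k)]
  · by_cases h : R j k ∧ R j' k' ∧ c j = c j' ∧ c k = c k'
    · rw [if_pos h, if_pos]
      exact ⟨⟨h.1, rfl, rfl⟩, h.2.1, h.2.2.1.symm, h.2.2.2.symm⟩
    · rw [if_neg h, if_neg]
      rintro ⟨⟨h3, -, -⟩, h4, h5, h6⟩
      exact h ⟨h3, h4, h5.symm, h6.symm⟩
  · intro b _ hb
    exact if_neg (fun h => hb h.1.2.2.symm)
  · intro h
    exact absurd (Finset.mem_univ _) h
  · intro b _ hb
    exact Finset.sum_eq_zero (fun b' _ => if_neg (fun h => hb h.1.2.1.symm))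
  · intro h
    exact absurd (Finset.mem_univ _) h

theorem hs4_piece {N : ℕ} (hN : 0 < N) {n : ℕ} (A B : Fin n → BN N) (c : Fin n → Fin 3)
    (R : Fin n → Fin n → Prop) [DecidableRel R] :
    ∑ i : Fin 3, ∑ i2 : Fin 3, ∑ p : Fin N × Fin N, ∑ p' : Fin N × Fin N,
      ‖∑ q ∈ Finset.univ.filter (fun q : Fin n × Fin n => R q.1 q.2 ∧ c q.1 = i ∧ c q.2 = i2),
        tr (Eb N p * (B q.1 * star (B q.2)) * Eb N p' * (star (A q.2) * A q.1))‖ ^ 2 =
    (1 / (N : ℝ) ^ 2) * ∑ j, ∑ k, ∑ j', ∑ k', if R j k ∧ R j' k' ∧ c j = c j' ∧ c k = c k' then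
        (tr (star (star (A k') * A j') * (star (A k) * A j)) *
          tr (star (B j' * star (B k')) * (B j * star (B k)))).re else 0 := by
  have h := hs4_piece_sum c R (fun q q' =>
    (tr (star (star (A q'.2) * A q'.1) * (star (A q.2) * A q.1)) *
          tr (star (B q'.1 * star (B q'.2)) * (B q.1 * star (B q.2)))).re)
  dsimp only at h
  rw [← h, Finset.mul_sum]
  refine Finset.sum_congr rfl (fun i _ => ?_)
  rw [Finset.mul_sum]
  refine Finset.sum_congr rfl (fun i2 _ => ?_)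
  exact sum_H3 hN _ (fun q : Fin n × Fin n => B q.1 * star (B q.2))
    (fun q : Fin n × Fin n => star (A q.2) * A q.1)

theorem hs4_expand {N : ℕ} {n : ℕ} (A B : Fin n → BN N) (c : Fin n → Fin 3)
    (i i2 : Fin 3) (p p' : Fin N × Fin N) :
    tr ((∑ j, al • (A j * (if c j = i then Eb N p else 0) * B j)) *
      star (∑ j, al • (A j * (if c j = i2 then Eb N p' else 0) * B j))) =
    (1 / 2) * ((∑ q ∈ Finset.univ.filter (fun q : Fin n × Fin n => q.1 < q.2 ∧ c q.1 = i ∧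
        c q.2 = i2), tr (Eb N p * (B q.1 * star (B q.2)) * Eb N p' * (star (A q.2) * A q.1))) +
      (∑ q ∈ Finset.univ.filter (fun q : Fin n × Fin n => q.1 = q.2 ∧ c q.1 = i ∧
        c q.2 = i2), tr (Eb N p * (B q.1 * star (B q.2)) * Eb N p' * (star (A q.2) * A q.1))) +
      (∑ q ∈ Finset.univ.filter (fun q : Fin n × Fin n => q.2 < q.1 ∧ c q.1 = i ∧
        c q.2 = i2), tr (Eb N p * (B q.1 * star (B q.2)) * Eb N p' * (star (A q.2) * A q.1)))) := by
  have hal : al * star al = 1 / 2 := by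
    have h := norm_al_sq
    have h2 : al * star al = ((‖al‖ ^ 2 : ℝ) : ℂ) := by
      have := Complex.mul_conj al
      rw [Complex.normSq_eq_norm_sq] at this
      simpa using this
    rw [h2, h]
    norm_num
  have hst : star (∑ j, al • (A j * (if c j = i2 then Eb N p' else 0) * B j)) =
      ∑ j, star (al • (A j * (if c j = i2 then Eb N p' else 0) * B j)) := by
    exact star_sum (R := BN N) Finset.univ
      (fun j => al • (A j * (if c j = i2 then Eb N p' else 0) * B j))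
  rw [hst, Finset.sum_mul_sum, tr_sum]
  simp_rw [tr_sum]
  rw [Finset.sum_filter, Finset.sum_filter, Finset.sum_filter, ← Finset.sum_add_distrib,
    ← Finset.sum_add_distrib, Fintype.sum_prod_type, Finset.mul_sum]
  refine Finset.sum_congr rfl (fun j _ => ?_)
  rw [Finset.mul_sum]
  refine Finset.sum_congr rfl (fun k _ => ?_)
  dsimp only
  have e0 : (al • (A j * (if c j = i then Eb N p else 0) * B j)) *
      star (al • (A k * (if c k = i2 then Eb N p' else 0) * B k)) =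
      (al * star al) • ((A j * (if c j = i then Eb N p else 0) * B j) *
        star (A k * (if c k = i2 then Eb N p' else 0) * B k)) := by
    rw [star_smul, smul_mul_assoc, mul_smul_comm, smul_smul]
  rw [e0, tr_smul, hal]
  by_cases h1 : c j = i
  · by_cases h2 : c k = i2
    · have e3 : tr ((A j * Eb N p * B j) * star (A k * Eb N p' * B k)) =
          tr (Eb N p * (B j * star (B k)) * Eb N p' * (star (A k) * A j)) := by
        rw [star_mul, star_mul, Eb_sa]
        have e4 : (A j * Eb N p * B j) * (star (B k) * (Eb N p' * star (A k))) =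
            A j * (Eb N p * (B j * star (B k)) * Eb N p' * star (A k)) := by
          simp only [mul_assoc]
        have e5 : Eb N p * (B j * star (B k)) * Eb N p' * (star (A k) * A j) =
            (Eb N p * (B j * star (B k)) * Eb N p' * star (A k)) * A j := by
          simp only [mul_assoc]
        rw [e4, e5, tr_mul_comm]
      rw [if_pos h1, if_pos h2, e3]
      simp only [h1, h2, and_true]
      rcases lt_trichotomy j k with h | h | h
      · simp [h, h.ne, not_lt.2 h.le]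
      · simp [h]
      · simp [h, h.ne', not_lt.2 h.le]
    · simp [h2, tr_zero]
  · simp [h1, tr_zero]

theorem hs4_gen {N : ℕ} (hN : 0 < N) {n : ℕ} (A B : Fin n → BN N) (c : Fin n → Fin 3)
    (a : Fin 3 → Fin N × Fin N → BN N)
    (ha : ∀ i p, a i p = ∑ j, al • (A j * (if c j = i then Eb N p else 0) * B j)) :
    ∑ e : Fin 3 × Fin N × Fin N, ∑ e' : Fin 3 × Fin N × Fin N,
      ‖tr (a e.1 e.2 * star (a e'.1 e'.2))‖ ^ 2 ≤
    (3 / 4) * (1 / (N : ℝ) ^ 2) *
      ((∑ j, ∑ k, ∑ j', ∑ k', if j < k ∧ j' < k' ∧ c j = c j' ∧ c k = c k' then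
        (tr (star (star (A k') * A j') * (star (A k) * A j)) *
          tr (star (B j' * star (B k')) * (B j * star (B k)))).re else 0) +
       (∑ j, ∑ k, ∑ j', ∑ k', if j = k ∧ j' = k' ∧ c j = c j' ∧ c k = c k' then
        (tr (star (star (A k') * A j') * (star (A k) * A j)) *
          tr (star (B j' * star (B k')) * (B j * star (B k)))).re else 0) +
       (∑ j, ∑ k, ∑ j', ∑ k', if k < j ∧ k' < j' ∧ c j = c j' ∧ c k = c k' then
        (tr (star (star (A k') * A j') * (star (A k) * A j)) *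
          tr (star (B j' * star (B k')) * (B j * star (B k)))).re else 0)) := by
  have hkey : ∀ (i i2 : Fin 3) (p p' : Fin N × Fin N), ‖tr (a i p * star (a i2 p'))‖ ^ 2 ≤
      (3 / 4) * (‖∑ q ∈ Finset.univ.filter (fun q : Fin n × Fin n => q.1 < q.2 ∧ c q.1 = i ∧
        c q.2 = i2), tr (Eb N p * (B q.1 * star (B q.2)) * Eb N p' * (star (A q.2) * A q.1))‖ ^ 2 +
      ‖∑ q ∈ Finset.univ.filter (fun q : Fin n × Fin n => q.1 = q.2 ∧ c q.1 = i ∧
        c q.2 = i2), tr (Eb N p * (B q.1 * star (B q.2)) * Eb N p' * (star (A q.2) * A q.1))‖ ^ 2 +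
      ‖∑ q ∈ Finset.univ.filter (fun q : Fin n × Fin n => q.2 < q.1 ∧ c q.1 = i ∧
        c q.2 = i2),
          tr (Eb N p * (B q.1 * star (B q.2)) * Eb N p' * (star (A q.2) * A q.1))‖ ^ 2) := by
    intro i i2 p p'
    rw [ha, ha, hs4_expand]
    set x := ∑ q ∈ Finset.univ.filter (fun q : Fin n × Fin n => q.1 < q.2 ∧ c q.1 = i ∧
        c q.2 = i2), tr (Eb N p * (B q.1 * star (B q.2)) * Eb N p' * (star (A q.2) * A q.1))
    set y := ∑ q ∈ Finset.univ.filter (fun q : Fin n × Fin n => q.1 = q.2 ∧ c q.1 = i ∧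
        c q.2 = i2), tr (Eb N p * (B q.1 * star (B q.2)) * Eb N p' * (star (A q.2) * A q.1))
    set z := ∑ q ∈ Finset.univ.filter (fun q : Fin n × Fin n => q.2 < q.1 ∧ c q.1 = i ∧
        c q.2 = i2), tr (Eb N p * (B q.1 * star (B q.2)) * Eb N p' * (star (A q.2) * A q.1))
    have h1 : ‖x + y + z‖ ≤ ‖x‖ + ‖y‖ + ‖z‖ := norm_add₃_le
    have h2 : ‖(1 / 2 : ℂ) * (x + y + z)‖ = (1 / 2) * ‖x + y + z‖ := by
      rw [norm_mul]; norm_num
    rw [h2]
    have hx := norm_nonneg x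
    have hy := norm_nonneg y
    have hz := norm_nonneg z
    have hs := norm_nonneg (x + y + z)
    have h3 : ‖x + y + z‖ ^ 2 ≤ (‖x‖ + ‖y‖ + ‖z‖) ^ 2 := by
      apply pow_le_pow_left₀ hs h1
    nlinarith [sq_nonneg (‖x‖ - ‖y‖), sq_nonneg (‖y‖ - ‖z‖), sq_nonneg (‖x‖ - ‖z‖)]
  have hLHS : ∑ e : Fin 3 × Fin N × Fin N, ∑ e' : Fin 3 × Fin N × Fin N,
      ‖tr (a e.1 e.2 * star (a e'.1 e'.2))‖ ^ 2 =
      ∑ i : Fin 3, ∑ i2 : Fin 3, ∑ p : Fin N × Fin N, ∑ p' : Fin N × Fin N,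
        ‖tr (a i p * star (a i2 p'))‖ ^ 2 := by
    rw [Fintype.sum_prod_type]
    refine Finset.sum_congr rfl (fun i _ => ?_)
    rw [Finset.sum_comm, Fintype.sum_prod_type]
    refine Finset.sum_congr rfl (fun i2 _ => ?_)
    rw [Finset.sum_comm]
  rw [hLHS]
  have h1 := hs4_piece hN A B c (fun j k => j < k)
  have h2 := hs4_piece hN A B c (fun j k => j = k)
  have h3 := hs4_piece hN A B c (fun j k => k < j)
  calc _ ≤ ∑ i : Fin 3, ∑ i2 : Fin 3, ∑ p : Fin N × Fin N, ∑ p' : Fin N × Fin N,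
      (3 / 4) * (‖∑ q ∈ Finset.univ.filter (fun q : Fin n × Fin n => q.1 < q.2 ∧ c q.1 = i ∧
        c q.2 = i2), tr (Eb N p * (B q.1 * star (B q.2)) * Eb N p' * (star (A q.2) * A q.1))‖ ^ 2 +
      ‖∑ q ∈ Finset.univ.filter (fun q : Fin n × Fin n => q.1 = q.2 ∧ c q.1 = i ∧
        c q.2 = i2), tr (Eb N p * (B q.1 * star (B q.2)) * Eb N p' * (star (A q.2) * A q.1))‖ ^ 2 +
      ‖∑ q ∈ Finset.univ.filter (fun q : Fin n × Fin n => q.2 < q.1 ∧ c q.1 = i ∧
        c q.2 = i2),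
          tr (Eb N p * (B q.1 * star (B q.2)) * Eb N p' * (star (A q.2) * A q.1))‖ ^ 2) := by
        refine Finset.sum_le_sum (fun i _ => Finset.sum_le_sum (fun i2 _ =>
          Finset.sum_le_sum (fun p _ => Finset.sum_le_sum (fun p' _ => hkey i i2 p p'))))
    _ = _ := by
        simp only [← Finset.mul_sum, Finset.sum_add_distrib]
        rw [h1, h2, h3]
        ring

end Pool.Agent.Helper38.FE.FG
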