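import Pool.Agent.Helper246.FG.B4

open MeasureTheory Filter Topology ProbabilityTheory
open scoped InnerProductSpace ENNReal

namespace Pool.Agent.Helper38.FE.FG

/-- squared Hilbert-Schmidt norm -/
noncomputable def hsB9 {N : ℕ} (S : BN N) : ℝ := (tr (S * star S)).re

theorem hsB9_nonneg {N : ℕ} (S : BN N) : 0 ≤ hsB9 S := by
  unfold hsB9
  rw [tr_mul_star_self, Complex.ofReal_re]
  exact mul_nonneg (by positivity) (Finset.sum_nonneg fun _ _ => Finset.sum_nonneg fun _ _ => by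
    positivity)

theorem hsB9_add_le {N : ℕ} (S R : BN N) : hsB9 (S + R) ≤ 2 * hsB9 S + 2 * hsB9 R := by
  have h1 : hsB9 (S + R) + hsB9 (S - R) = 2 * hsB9 S + 2 * hsB9 R := by
    unfold hsB9
    have e1 : star (S + R) = star S + star R := star_add S R
    have e2 : star (S - R) = star S - star R := star_sub S R
    rw [e1, e2, add_mul, mul_add, mul_add, sub_mul, mul_sub, mul_sub]
    simp only [tr_add, tr_sub, Complex.add_re, Complex.sub_re]
    ring
  have := hsB9_nonneg (S - R)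
  linarith

theorem hsB9_star {N : ℕ} (S : BN N) : hsB9 (star S) = hsB9 S := by
  unfold hsB9
  rw [star_star, tr_mul_comm]

theorem hsB9_half {N : ℕ} (S : BN N) : hsB9 ((-(1 / 2 : ℂ)) • S) = 1 / 4 * hsB9 S := by
  unfold hsB9
  rw [star_smul, smul_mul_smul_comm, tr_smul]
  have : (-(1 / 2 : ℂ)) * star (-(1 / 2 : ℂ)) = ((1 / 4 : ℝ) : ℂ) := by
    have h : star (-(1 / 2 : ℂ)) = -(1 / 2 : ℂ) := by
      simp
    rw [h]; push_cast; norm_num
  rw [this, Complex.re_ofReal_mul]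

theorem crd_le {N : ℕ} (D : BN N) : ‖crd (D + star D)‖ ^ 2 ≤ (N : ℝ) ^ 2 * (4 * hsB9 D) := by
  have hsa : IsSelfAdjoint (D + star D) := IsSelfAdjoint.add_star_self D
  rw [norm_crd_sq _ hsa]
  have h1 := hsB9_add_le D (star D)
  rw [hsB9_star] at h1
  exact mul_le_mul_of_nonneg_left (by unfold hsB9 at *; linarith) (by positivity)

theorem hs2_gen {N : ℕ} (hN : 0 < N) {n : ℕ} (A B : Fin n → BN N) (E : Fin n → Fin n → BN N)
    (c : Fin n → Fin 3)
    (T : Fin 3 → Fin N × Fin N → Fin 3 → Fin N × Fin N → BN N)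
    (hT : ∀ i p i' p', T i p i' p' = ∑ j, ∑ l, if j ≤ l then
      A j * (if c j = i then Eb N p else 0) * E j l * (if c l = i' then Eb N p' else 0) * B l
      else 0)
    (D : Fin 3 → Fin N × Fin N → Fin 3 → Fin N × Fin N → BN N)
    (hD : ∀ i p i' p', D i p i' p' = (-(1 / 2 : ℂ)) • (T i p i' p' + T i' p' i p)) :
    ∑ e : Fin 3 × Fin N × Fin N, ∑ e' : Fin 3 × Fin N × Fin N,
      ‖crd (D e.1 e.2 e'.1 e'.2 + star (D e.1 e.2 e'.1 e'.2))‖ ^ 2 ≤
    4 * (N : ℝ) ^ 2 * (∑ j, ∑ l, ∑ j', ∑ l',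
      if j ≤ l ∧ j' ≤ l' ∧ c j = c j' ∧ c l = c l' then
        tr (star (A j') * A j) * tr (star (E j' l') * E j l) * tr (star (B l') * B l)
      else 0).re := by
  classical
  -- step 1: reduce to T
  have hDle : ∀ i p i' p', hsB9 (D i p i' p') ≤ 1 / 2 * (hsB9 (T i p i' p') + hsB9 (T i' p' i p)) := by
    intro i p i' p'
    rw [hD, hsB9_half]
    have := hsB9_add_le (T i p i' p') (T i' p' i p)
    linarith
  have h1 : ∑ e : Fin 3 × Fin N × Fin N, ∑ e' : Fin 3 × Fin N × Fin N,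
      ‖crd (D e.1 e.2 e'.1 e'.2 + star (D e.1 e.2 e'.1 e'.2))‖ ^ 2 ≤
      ∑ e : Fin 3 × Fin N × Fin N, ∑ e' : Fin 3 × Fin N × Fin N,
        (2 * (N : ℝ) ^ 2 * hsB9 (T e.1 e.2 e'.1 e'.2) + 2 * (N : ℝ) ^ 2 * hsB9 (T e'.1 e'.2 e.1 e.2)) := by
    refine Finset.sum_le_sum fun e _ => Finset.sum_le_sum fun e' _ => ?_
    refine (crd_le _).trans ?_
    have h2 := hDle e.1 e.2 e'.1 e'.2
    have h3 : (0 : ℝ) ≤ (N : ℝ) ^ 2 := by positivity
    nlinarith
  refine h1.trans ?_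
  have h2 : ∑ e : Fin 3 × Fin N × Fin N, ∑ e' : Fin 3 × Fin N × Fin N,
        (2 * (N : ℝ) ^ 2 * hsB9 (T e.1 e.2 e'.1 e'.2) + 2 * (N : ℝ) ^ 2 * hsB9 (T e'.1 e'.2 e.1 e.2)) =
      4 * (N : ℝ) ^ 2 * ∑ e : Fin 3 × Fin N × Fin N, ∑ e' : Fin 3 × Fin N × Fin N,
        hsB9 (T e.1 e.2 e'.1 e'.2) := by
    simp only [Finset.sum_add_distrib]
    rw [Finset.sum_comm (f := fun (e e' : Fin 3 × Fin N × Fin N) =>
      2 * (N : ℝ) ^ 2 * hsB9 (T e'.1 e'.2 e.1 e.2))]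
    rw [← two_mul]
    simp only [← Finset.mul_sum]
    ring
  rw [h2]
  refine mul_le_mul_of_nonneg_left (le_of_eq ?_) (by positivity)
  -- step 2: exact computation
  have hTs : ∀ i p i' p', T i p i' p' =
      ∑ q ∈ (Finset.univ : Finset (Fin n × Fin n)).filter
        (fun q => q.1 ≤ q.2 ∧ c q.1 = i ∧ c q.2 = i'),
        A q.1 * Eb N p * E q.1 q.2 * Eb N p' * B q.2 := by
    intro i p i' p'
    rw [hT, Finset.sum_filter, Fintype.sum_prod_type]
    refine Finset.sum_congr rfl fun j _ => Finset.sum_congr rfl fun l _ => ?_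
    by_cases h3 : j ≤ l <;> by_cases h4 : c j = i <;> by_cases h5 : c l = i' <;>
      simp [h3, h4, h5]
  have hsum : ∀ i i', ∑ p, ∑ p', hsB9 (T i p i' p') =
      ∑ q : Fin n × Fin n, ∑ q' : Fin n × Fin n,
        if (q.1 ≤ q.2 ∧ c q.1 = i ∧ c q.2 = i') ∧ (q'.1 ≤ q'.2 ∧ c q'.1 = i ∧ c q'.2 = i') then
        (tr (star (A q'.1) * A q.1) * tr (star (E q'.1 q'.2) * E q.1 q.2) *
          tr (star (B q'.2) * B q.2)).re else 0 := by
    intro i i'
    have h3 := sum_H4 hN ((Finset.univ : Finset (Fin n × Fin n)).filter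
        (fun q => q.1 ≤ q.2 ∧ c q.1 = i ∧ c q.2 = i')) (fun q => A q.1) (fun q => E q.1 q.2)
        (fun q => B q.2)
    have h4 : ∑ p, ∑ p', hsB9 (T i p i' p') =
        ∑ p, ∑ p', (tr ((∑ q ∈ (Finset.univ : Finset (Fin n × Fin n)).filter
        (fun q => q.1 ≤ q.2 ∧ c q.1 = i ∧ c q.2 = i'),
          A q.1 * Eb N p * E q.1 q.2 * Eb N p' * B q.2) *
        star (∑ q ∈ (Finset.univ : Finset (Fin n × Fin n)).filter
        (fun q => q.1 ≤ q.2 ∧ c q.1 = i ∧ c q.2 = i'),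
          A q.1 * Eb N p * E q.1 q.2 * Eb N p' * B q.2))).re := by
      refine Finset.sum_congr rfl fun p _ => Finset.sum_congr rfl fun p' _ => ?_
      unfold hsB9
      rw [hTs]
    rw [h4, h3, Finset.sum_filter]
    refine Finset.sum_congr rfl fun q _ => ?_
    by_cases h5 : q.1 ≤ q.2 ∧ c q.1 = i ∧ c q.2 = i'
    · rw [if_pos h5, Finset.sum_filter]
      refine Finset.sum_congr rfl fun q' _ => ?_
      by_cases h6 : q'.1 ≤ q'.2 ∧ c q'.1 = i ∧ c q'.2 = i'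
      · rw [if_pos h6, if_pos ⟨h5, h6⟩]
      · rw [if_neg h6, if_neg (fun h => h6 h.2)]
    · rw [if_neg h5]
      symm
      exact Finset.sum_eq_zero fun q' _ => if_neg (fun h => h5 h.1)
  have h3 : ∑ e : Fin 3 × Fin N × Fin N, ∑ e' : Fin 3 × Fin N × Fin N,
      hsB9 (T e.1 e.2 e'.1 e'.2) = ∑ i, ∑ i', ∑ p, ∑ p', hsB9 (T i p i' p') := by
    rw [Fintype.sum_prod_type]
    refine Finset.sum_congr rfl fun i _ => ?_
    have h4 : ∀ p : Fin N × Fin N, ∑ e' : Fin 3 × Fin N × Fin N, hsB9 (T i p e'.1 e'.2) =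
        ∑ i', ∑ p', hsB9 (T i p i' p') := fun p => Fintype.sum_prod_type _
    simp only [h4]
    rw [Finset.sum_comm]
  rw [h3]
  simp only [hsum]
  have h5 : ∀ (q q' : Fin n × Fin n), ∑ i : Fin 3, ∑ i' : Fin 3,
      (if (q.1 ≤ q.2 ∧ c q.1 = i ∧ c q.2 = i') ∧ (q'.1 ≤ q'.2 ∧ c q'.1 = i ∧ c q'.2 = i') then
        (tr (star (A q'.1) * A q.1) * tr (star (E q'.1 q'.2) * E q.1 q.2) *
          tr (star (B q'.2) * B q.2)).re else 0) =
      if q.1 ≤ q.2 ∧ q'.1 ≤ q'.2 ∧ c q.1 = c q'.1 ∧ c q.2 = c q'.2 then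
        (tr (star (A q'.1) * A q.1) * tr (star (E q'.1 q'.2) * E q.1 q.2) *
          tr (star (B q'.2) * B q.2)).re else 0 := by
    intro q q'
    rw [Finset.sum_eq_single (c q.1), Finset.sum_eq_single (c q.2)]
    · congr 1
      apply propext
      constructor
      · rintro ⟨⟨a1, -, -⟩, a2, a3, a4⟩
        exact ⟨a1, a2, a3.symm, a4.symm⟩
      · rintro ⟨a1, a2, a3, a4⟩
        exact ⟨⟨a1, rfl, rfl⟩, a2, a3.symm, a4.symm⟩
    · intro i' _ hi'
      exact if_neg (fun h => hi' h.1.2.2.symm)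
    · intro h; exact absurd (Finset.mem_univ _) h
    · intro i _ hi
      exact Finset.sum_eq_zero fun i' _ => if_neg (fun h => hi h.1.2.1.symm)
    · intro h; exact absurd (Finset.mem_univ _) h
  have h6 : ∀ g : Fin 3 → Fin 3 → (Fin n × Fin n) → (Fin n × Fin n) → ℝ,
      ∑ i, ∑ i', ∑ q, ∑ q', g i i' q q' = ∑ q, ∑ q', ∑ i, ∑ i', g i i' q q' := by
    intro g
    have e1 : ∀ i, ∑ i', ∑ q, ∑ q', g i i' q q' = ∑ q, ∑ q', ∑ i', g i i' q q' := by
      intro i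
      rw [Finset.sum_comm]
      refine Finset.sum_congr rfl fun q _ => ?_
      rw [Finset.sum_comm]
    simp only [e1]
    rw [Finset.sum_comm]
    refine Finset.sum_congr rfl fun q _ => ?_
    rw [Finset.sum_comm]
  rw [h6]
  simp only [h5]
  rw [Fintype.sum_prod_type, Complex.re_sum]
  refine Finset.sum_congr rfl fun j _ => ?_
  rw [Complex.re_sum]
  refine Finset.sum_congr rfl fun l _ => ?_
  rw [Fintype.sum_prod_type, Complex.re_sum]
  refine Finset.sum_congr rfl fun j' _ => ?_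
  rw [Complex.re_sum]
  refine Finset.sum_congr rfl fun l' _ => ?_
  by_cases h7 : j ≤ l ∧ j' ≤ l' ∧ c j = c j' ∧ c l = c l'
  · rw [if_pos h7, if_pos h7]
  · rw [if_neg h7, if_neg h7, Complex.zero_re]

end Pool.Agent.Helper38.FE.FG
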