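import Pool.Agent.Helper246.FG.A3
import Pool.Agent.Helper246.FG.B2

open MeasureTheory Filter Topology ProbabilityTheory
open scoped InnerProductSpace ENNReal

namespace Pool.Agent.Helper38.FE.FG

/-- slice map -/
noncomputable def slL (N : ℕ) (i : Fin 3) : EX N →L[ℝ] EuclideanSpace ℝ (Fin N × Fin N) :=
  LinearMap.toContinuousLinearMap
    { toFun := fun x => WithLp.toLp 2 fun p => x (i, p)
      map_add' := fun x y => by ext p; simp
      map_smul' := fun c x => by ext p; simp }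

theorem slL_apply (N : ℕ) (i : Fin 3) (x : EX N) :
    slL N i x = WithLp.toLp 2 fun p => x (i, p) := rfl

theorem exists_XmL (N : ℕ) : ∃ L : Fin 3 → EX N →L[ℝ] BN N, ∀ i x, L i x = Xm N x i := by
  obtain ⟨L, hL⟩ := exists_HmL N
  refine ⟨fun i => L.comp (slL N i), fun i x => ?_⟩
  rw [ContinuousLinearMap.comp_apply, hL, slL_apply]
  rfl

theorem Xm_sa (N : ℕ) (x : EX N) (i : Fin 3) : IsSelfAdjoint (Xm N x i) := Hm_sa N _

theorem Xm_single (N : ℕ) (i i' : Fin 3) (p : Fin N × Fin N) :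
    Xm N (EuclideanSpace.single (i, p) 1 : EX N) i' = if i' = i then Eb N p else 0 := by
  unfold Xm Eb
  by_cases h : i' = i
  · rw [if_pos h]
    congr 1
    ext q
    subst h
    simp only [PiLp.single_apply, Prod.mk.injEq, true_and]
  · rw [if_neg h]
    obtain ⟨L, hL⟩ := exists_HmL N
    have h0 : (WithLp.toLp 2 fun q : Fin N × Fin N => (EuclideanSpace.single (i, p) 1 : EX N) (i', q)) =
        (0 : EuclideanSpace ℝ (Fin N × Fin N)) := by
      ext q
      simp [PiLp.single_apply, h]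
    rw [h0, ← hL, map_zero]

theorem Fc_eq (N : ℕ) (b : List (Fin 3)) (x : EX N) :
    Fc N b x = crd (PW (uN N x) b + star (PW (uN N x) b)) := rfl

theorem exists_Lc (N : ℕ) : ∃ L : BN N →L[ℝ] EuclideanSpace ℝ (Fin N × Fin N),
    ∀ T, L T = crd (T + star T) := by
  obtain ⟨L, hL⟩ := exists_crdL N
  refine ⟨L.comp (ContinuousLinearMap.id ℝ (BN N) + ((starL' ℝ : BN N ≃L[ℝ] BN N) : BN N →L[ℝ] BN N)),
    fun T => ?_⟩
  rw [ContinuousLinearMap.comp_apply, hL]
  rfl

theorem Fc_fun (N : ℕ) (b : List (Fin 3)) (X : Fin 3 → EX N →L[ℝ] BN N)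
    (hX : ∀ i x, X i x = Xm N x i)
    (L : BN N →L[ℝ] EuclideanSpace ℝ (Fin N × Fin N)) (hL : ∀ T, L T = crd (T + star T)) :
    Fc N b = fun y => L (PW (fun i => cay (X i y)) b) := by
  funext y
  rw [Fc_eq, hL]
  have : (fun i => cay (X i y)) = uN N y := by
    funext i
    rw [hX]
    rfl
  rw [this]

theorem contDiff_Fc (N : ℕ) (b : List (Fin 3)) (n : ℕ) : ContDiff ℝ n (Fc N b) := by
  obtain ⟨X, hX⟩ := exists_XmL N
  obtain ⟨L, hL⟩ := exists_Lc N
  rw [Fc_fun N b X hX L hL]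
  exact L.contDiff.comp (contDiff_PW X (fun i x => by rw [hX]; exact Xm_sa N x i) b n)

theorem fderiv_Fc_aux (N : ℕ) (b : List (Fin 3)) (X : Fin 3 → EX N →L[ℝ] BN N)
    (hX : ∀ i x, X i x = Xm N x i)
    (L : BN N →L[ℝ] EuclideanSpace ℝ (Fin N × Fin N)) (hL : ∀ T, L T = crd (T + star T)) :
    fderiv ℝ (Fc N b) = fun x => L.comp (fderiv ℝ (fun y => PW (fun i => cay (X i y)) b) x) := by
  funext x
  rw [Fc_fun N b X hX L hL]
  have hd : DifferentiableAt ℝ (fun y => PW (fun i => cay (X i y)) b) x := by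
    obtain ⟨D, hD, -⟩ := hasFDerivAt_PW X (fun i x => by rw [hX]; exact Xm_sa N x i) b x
    exact hD.differentiableAt
  exact (L.hasFDerivAt.comp x hd.hasFDerivAt).fderiv

theorem fderiv_Fc (N : ℕ) (b : List (Fin 3)) (x h : EX N) :
    fderiv ℝ (Fc N b) x h = crd (DW (uN N x) (Xm N h) b + star (DW (uN N x) (Xm N h) b)) := by
  obtain ⟨X, hX⟩ := exists_XmL N
  obtain ⟨L, hL⟩ := exists_Lc N
  rw [fderiv_Fc_aux N b X hX L hL]
  simp only [ContinuousLinearMap.comp_apply]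
  obtain ⟨D, hD, hD2⟩ := hasFDerivAt_PW X (fun i x => by rw [hX]; exact Xm_sa N x i) b x
  rw [hD.fderiv, hD2, hL]
  have e1 : (fun i => cay (X i x)) = uN N x := by
    funext i; rw [hX]; rfl
  have e2 : (fun i => X i h) = Xm N h := by
    funext i; rw [hX]
  rw [e1, e2]

theorem fderiv2_Fc (N : ℕ) (b : List (Fin 3)) (x h k : EX N) :
    fderiv ℝ (fderiv ℝ (Fc N b)) x h k =
      crd (D2W (uN N x) (Xm N h) (Xm N k) b + star (D2W (uN N x) (Xm N h) (Xm N k) b)) := by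
  obtain ⟨X, hX⟩ := exists_XmL N
  obtain ⟨L, hL⟩ := exists_Lc N
  have hsa : ∀ i x, IsSelfAdjoint (X i x) := fun i x => by rw [hX]; exact Xm_sa N x i
  have hcd := contDiff_PW X hsa b 2
  have h1 := iteratedFDeriv_two_apply (𝕜 := ℝ) (Fc N b) x ![h, k]
  have h2 := iteratedFDeriv_two_apply (𝕜 := ℝ) (fun y => PW (fun i => cay (X i y)) b) x ![h, k]
  have h3 : iteratedFDeriv ℝ 2 (Fc N b) x = L.compContinuousMultilinearMap
      (iteratedFDeriv ℝ 2 (fun y => PW (fun i => cay (X i y)) b) x) := by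
    rw [Fc_fun N b X hX L hL]
    exact L.iteratedFDeriv_comp_left (hcd.contDiffAt) (by norm_num)
  have h4 : fderiv ℝ (fderiv ℝ (Fc N b)) x h k = L (fderiv ℝ (fderiv ℝ (fun y => PW (fun i => cay (X i y)) b)) x h k) := by
    rw [h3] at h1
    have h5 : fderiv ℝ (fderiv ℝ (Fc N b)) x h k = L (iteratedFDeriv ℝ 2 (fun y => PW (fun i => cay (X i y)) b) x ![h, k]) :=
      h1.symm
    rw [h5, h2]
    rfl
  rw [h4, fderiv2_PW X hsa b x h k, hL]
  have e1 : (fun i => cay (X i x)) = uN N x := by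
    funext i; rw [hX]; rfl
  have e2 : (fun i => X i h) = Xm N h := by
    funext i; rw [hX]
  have e3 : (fun i => X i k) = Xm N k := by
    funext i; rw [hX]
  rw [e1, e2, e3]

/-- the norm of a coordinate vector in terms of its matrices -/
theorem norm_sq_EX {N : ℕ} (hN : 0 < N) (x : EX N) :
    ∑ i, ‖crd (Xm N x i)‖ ^ 2 = ‖x‖ ^ 2 := by
  have h1 : ∀ i, crd (Xm N x i) = WithLp.toLp 2 fun p => x (i, p) := fun i => crd_Hm hN _
  simp_rw [h1]
  rw [EuclideanSpace.norm_sq_eq, Fintype.sum_prod_type]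
  refine Finset.sum_congr rfl fun i _ => ?_
  rw [EuclideanSpace.norm_sq_eq]

end Pool.Agent.Helper38.FE.FG
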