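import Pool.Agent.Helper38.FE.Gue

/-! Definitions for the module FG. -/

open MeasureTheory Filter Topology ProbabilityTheory
open scoped InnerProductSpace ENNReal

namespace Pool.Agent.Helper38.FE.FG

section gen
variable {A : Type*} [Ring A]

/-- product of letters -/
noncomputable def PW (u : Fin 3 → A) (l : List (Fin 3)) : A := (l.map u).prod

/-- left factor `u_{b_0} ⋯ u_{b_{j-1}} (u_{b_j} - 1)` -/
noncomputable def AW (u : Fin 3 → A) (b : List (Fin 3)) (j : Fin b.length) : A :=
  PW u (b.take j) * (u (b.get j) - 1)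

/-- right factor (u_{b_j} - 1) u_{b_{j+1}} ⋯ -/
noncomputable def BW (u : Fin 3 → A) (b : List (Fin 3)) (j : Fin b.length) : A :=
  (u (b.get j) - 1) * PW u (b.drop (j + 1))

/-- middle factor -/
noncomputable def EW (u : Fin 3 → A) (b : List (Fin 3)) (j l : Fin b.length) : A :=
  if j = l then u (b.get j) - 1
  else (u (b.get j) - 1) * PW u ((b.take l).drop (j + 1)) * (u (b.get l) - 1)

end gen

/-- first derivative of `x ↦ PW (cay ∘ X x) b` in terms of `u = cay ∘ X x` and the direction `h` -/
noncomputable def DW {A : Type*} [Ring A] [Algebra ℂ A] (u h : Fin 3 → A) (b : List (Fin 3)) : A :=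
  ∑ j : Fin b.length, al • (AW u b j * h (b.get j) * BW u b j)

/-- half of the second derivative -/
noncomputable def TW {A : Type*} [Ring A] [Algebra ℂ A] (u h k : Fin 3 → A)
    (b : List (Fin 3)) : A :=
  ∑ j : Fin b.length, ∑ l : Fin b.length,
    if j ≤ l then AW u b j * h (b.get j) * EW u b j l * k (b.get l) * BW u b l else 0

/-- second derivative of `x ↦ PW (cay ∘ X x) b` -/
noncomputable def D2W {A : Type*} [Ring A] [Algebra ℂ A] (u h k : Fin 3 → A)
    (b : List (Fin 3)) : A :=
  (-(1 / 2 : ℂ)) • (TW u h k b + TW u k h b)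

/-- the domain -/
abbrev EX (N : ℕ) := EuclideanSpace ℝ (Fin 3 × Fin N × Fin N)

/-- the unitary letters at finite `N` -/
noncomputable def uN (N : ℕ) (x : EX N) (i : Fin 3) : BN N := cay (Xm N x i)

/-- basis of the Hermitian matrices -/
noncomputable def Eb (N : ℕ) (p : Fin N × Fin N) : BN N := Hm N (EuclideanSpace.single p 1)

/-- number of pairs of equal factors `b[x,y) = b[x',y')` -/
def Qc (b : List (Fin 3)) : ℕ :=
  (Finset.univ.filter fun q : Fin (b.length + 1) × Fin (b.length + 1) ×
      Fin (b.length + 1) × Fin (b.length + 1) =>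
    q.1 ≤ q.2.1 ∧ q.2.2.1 ≤ q.2.2.2 ∧
      (b.take q.2.1).drop q.1 = (b.take q.2.2.2).drop q.2.2.1).card

/-- the word `0, 1+c_0, 0, 1+c_1, …` -/
def wc {m : ℕ} (c : Fin m → Bool) : List (Fin 3) :=
  (List.ofFn c).flatMap fun e => [0, if e then 1 else 2]

variable {H : Type} [NormedAddCommGroup H] [InnerProductSpace ℂ H] [CompleteSpace H]

/-- signed letters: `true ↦ u_i`, `false ↦ u_i*` -/
noncomputable def us (S : FS (Fin 3) H) (a : Fin 3 × Bool) : H →L[ℂ] H :=
  if a.2 then cay (S.s a.1) else star (cay (S.s a.1))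

/-- the product algebra: sequences of functions of the Gaussian variable with values in matrices,
together with an operator on the Fock space -/
abbrev Big (H : Type) [NormedAddCommGroup H] [InnerProductSpace ℂ H] [CompleteSpace H] : Type :=
  (∀ N : ℕ, EX (N + 1) → BN (N + 1)) × (H →L[ℂ] H)

/-- the unitary letters in the product algebra -/
noncomputable def UU (S : FS (Fin 3) H) (i : Fin 3) : Big H :=
  (fun N x => uN (N + 1) x i, cay (S.s i))

/-- the *-algebra generated by the letters -/
noncomputable def WA (S : FS (Fin 3) H) : StarSubalgebra ℂ (Big H) :=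
  StarAlgebra.adjoin ℂ (Set.range (UU S))

end Pool.Agent.Helper38.FE.FG
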