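import Pool.Agent.Helper246.FG.A1

open MeasureTheory Filter Topology ProbabilityTheory
open scoped InnerProductSpace ENNReal

namespace Pool.Agent.Helper38.FE.FG

variable {H : Type} [NormedAddCommGroup H] [InnerProductSpace ℂ H] [CompleteSpace H]

theorem fg_star_al : star al = -al := by
  unfold al
  rw [star_div₀]
  simp [neg_div]

/-- both signs of the resolvent at once -/
theorem fg_setup (S : FS (Fin 3) H) (i : Fin 3) (ε : Bool) :
    ∃ R : H →L[ℂ] H, (S.s i - (if ε then al else -al) • (1 : H →L[ℂ] H)) * R = 1 ∧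
      R * (S.s i - (if ε then al else -al) • (1 : H →L[ℂ] H)) = 1 ∧
      us S (i, ε) = 1 + (2 * (if ε then al else -al)) • R ∧
      star (us S (i, ε)) * us S (i, ε) = 1 := by
  have hu := isUnit_sub_al (S.s i) (S.s_sa i)
  have h1 := Ring.mul_inverse_cancel _ hu
  have h2 := Ring.inverse_mul_cancel _ hu
  have hstar : star (S.s i - al • (1 : H →L[ℂ] H)) = S.s i - (-al) • (1 : H →L[ℂ] H) := by
    rw [star_sub, star_smul, fg_star_al, star_one, (S.s_sa i).star_eq]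
  cases ε with
  | true =>
    refine ⟨Ring.inverse (S.s i - al • (1 : H →L[ℂ] H)), ?_, ?_, ?_, ?_⟩
    · simpa using h1
    · simpa using h2
    · simp only [us, if_true]
      exact cay_eq (S.s i) (S.s_sa i)
    · simp only [us, if_true]
      exact star_cay_mul (S.s i) (S.s_sa i)
  | false =>
    refine ⟨star (Ring.inverse (S.s i - al • (1 : H →L[ℂ] H))), ?_, ?_, ?_, ?_⟩
    · simp only [Bool.false_eq_true, if_false]
      rw [← hstar, ← star_mul, h2, star_one]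
    · simp only [Bool.false_eq_true, if_false]
      rw [← hstar, ← star_mul, h1, star_one]
    · simp only [us, Bool.false_eq_true, if_false]
      rw [cay_eq (S.s i) (S.s_sa i), star_add, star_one, star_smul, star_mul', fg_star_al]
      simp
    · simp only [us, Bool.false_eq_true, if_false, star_star]
      exact cay_mul_star (S.s i) (S.s_sa i)

theorem fg_z_sq (ε : Bool) : (if ε then al else -al) ^ 2 = (-(1 / 2) : ℂ) := by
  cases ε
  · simp only [Bool.false_eq_true, if_false]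
    rw [neg_sq, al_sq]
  · simp only [if_true]
    rw [al_sq]

theorem fg_ra_R (S : FS (Fin 3) H) (i : Fin 3) (z : ℂ) (R : H →L[ℂ] H)
    (h1 : (S.s i - z • (1 : H →L[ℂ] H)) * R = 1)
    (h2 : R * (S.s i - z • (1 : H →L[ℂ] H)) = 1) (ξ : H) :
    S.ra i (R ξ) = R (S.ra i ξ) - ⟪S.Ω, R ξ⟫_ℂ • R S.Ω := by
  have e1 : ξ = S.s i (R ξ) - z • R ξ := by
    have := congrArg (fun f : H →L[ℂ] H => f ξ) h1
    simpa using this.symm
  have e2 : S.ra i ξ = (S.s i (S.ra i (R ξ)) - z • S.ra i (R ξ)) + ⟪S.Ω, R ξ⟫_ℂ • S.Ω := by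
    conv_lhs => rw [e1]
    rw [map_sub, map_smul, S.ra_s_self]
    abel
  have e3 : R (S.s i (S.ra i (R ξ)) - z • S.ra i (R ξ)) = S.ra i (R ξ) := by
    have := congrArg (fun f : H →L[ℂ] H => f (S.ra i (R ξ))) h2
    simpa using this
  rw [e2, map_add, e3, map_smul, add_sub_cancel_right]

/-- Schwinger-Dyson: `τ(s_i T) = ⟪Ω, ra_i T Ω⟫` -/
theorem tau_s_mul (S : FS (Fin 3) H) (i : Fin 3) (T : H →L[ℂ] H) :
    tau S.Ω (S.s i * T) = ⟪S.Ω, S.ra i (T S.Ω)⟫_ℂ := by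
  unfold tau
  have e1 : ⟪S.Ω, (S.s i * T) S.Ω⟫_ℂ = ⟪S.s i S.Ω, T S.Ω⟫_ℂ := by
    have h := ContinuousLinearMap.adjoint_inner_left (S.s i) (T S.Ω) S.Ω
    have h2 : ContinuousLinearMap.adjoint (S.s i) = S.s i := by
      rw [← ContinuousLinearMap.star_eq_adjoint]; exact (S.s_sa i).star_eq
    rw [h2] at h
    rw [h]
    rfl
  rw [e1, S.sΩ, S.d_eq, ContinuousLinearMap.add_apply, S.raΩ, zero_add,
    ContinuousLinearMap.star_eq_adjoint, ContinuousLinearMap.adjoint_inner_left]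

/-- commutation of `ra_i` with `u_i^±`:  `2 z R = u - 1` with `z = al` for `u` and `z = -al`
for `u*`; `ra U = U ra - 2 z R P_Ω R`, and `2 z R ⊗ R = (1/(2z)) (U-1) ⊗ (U-1)`. -/
theorem ra_us_self (S : FS (Fin 3) H) (i : Fin 3) (ε : Bool) (ξ : H) :
    S.ra i (us S (i, ε) ξ) = us S (i, ε) (S.ra i ξ) +
      ((if ε then al else -al) * ⟪S.Ω, us S (i, ε) ξ - ξ⟫_ℂ) • (us S (i, ε) S.Ω - S.Ω) := by
  obtain ⟨R, h1, h2, h3, h4⟩ := fg_setup S i ε
  have hz := fg_z_sq ε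
  obtain ⟨z, hzd⟩ : ∃ z : ℂ, z = (if ε then al else -al) := ⟨_, rfl⟩
  rw [← hzd] at h1 h2 h3 hz ⊢
  have hR := fg_ra_R S i z R h1 h2 ξ
  rw [h3]
  simp only [ContinuousLinearMap.add_apply, ContinuousLinearMap.smul_apply,
    ContinuousLinearMap.one_apply, map_add, map_smul, hR, add_sub_cancel_left, inner_smul_right]
  rw [smul_sub, smul_smul, smul_smul]
  have e : z * (2 * z * ⟪S.Ω, R ξ⟫_ℂ) * (2 * z) = -(2 * z * ⟪S.Ω, R ξ⟫_ℂ) := by
    linear_combination (4 * z * ⟪S.Ω, R ξ⟫_ℂ) * hz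
  rw [e, neg_smul]
  abel

theorem ra_us (S : FS (Fin 3) H) (i : Fin 3) (a : Fin 3 × Bool) (h : i ≠ a.1) (ξ : H) :
    S.ra i (us S a ξ) = us S a (S.ra i ξ) := by
  obtain ⟨j, ε⟩ := a
  obtain ⟨R, h1, h2, h3, h4⟩ := fg_setup S j ε
  have hc : S.ra i * S.s j = S.s j * S.ra i := S.ra_s i j h
  obtain ⟨z, hzd⟩ : ∃ z : ℂ, z = (if ε then al else -al) := ⟨_, rfl⟩
  rw [← hzd] at h1 h2 h3
  have hc2 : S.ra i * (S.s j - z • (1 : H →L[ℂ] H)) = (S.s j - z • (1 : H →L[ℂ] H)) * S.ra i := by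
    rw [mul_sub, sub_mul, hc]
    simp
  have hc3 : S.ra i * R = R * S.ra i := by
    calc S.ra i * R = (R * (S.s j - z • (1 : H →L[ℂ] H))) * S.ra i * R := by
          rw [h2, one_mul]
      _ = R * ((S.s j - z • (1 : H →L[ℂ] H)) * S.ra i) * R := by rw [mul_assoc R]
      _ = R * (S.ra i * (S.s j - z • (1 : H →L[ℂ] H))) * R := by rw [hc2]
      _ = R * S.ra i * ((S.s j - z • (1 : H →L[ℂ] H)) * R) := by simp only [mul_assoc]
      _ = R * S.ra i := by rw [h1, mul_one]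
  have hc4 : S.ra i (R ξ) = R (S.ra i ξ) := by
    have := congrArg (fun f : H →L[ℂ] H => f ξ) hc3
    simpa using this
  rw [h3]
  simp only [ContinuousLinearMap.add_apply, ContinuousLinearMap.smul_apply,
    ContinuousLinearMap.one_apply, map_add, map_smul, hc4]

theorem tau_us (S : FS (Fin 3) H) (a : Fin 3 × Bool) : tau S.Ω (us S a) = 0 := by
  obtain ⟨i, ε⟩ := a
  have hself := ra_us_self S i ε S.Ω
  obtain ⟨R, h1, h2, h3, h4⟩ := fg_setup S i ε
  have hz := fg_z_sq ε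
  obtain ⟨z, hzd⟩ : ∃ z : ℂ, z = (if ε then al else -al) := ⟨_, rfl⟩
  rw [← hzd] at h1 h2 h3 hz hself
  obtain ⟨U, hU⟩ : ∃ U, U = us S (i, ε) := ⟨_, rfl⟩
  rw [← hU] at h3 h4 hself ⊢
  obtain ⟨t, ht⟩ : ∃ t, t = tau S.Ω U := ⟨_, rfl⟩
  rw [← ht]
  have hz0 : z ≠ 0 := by
    rintro rfl
    norm_num at hz
  have hΩ : ⟪S.Ω, S.Ω⟫_ℂ = 1 := by
    rw [inner_self_eq_norm_sq_to_K, S.norm_Ω]
    norm_num
  have ht' : ⟪S.Ω, U S.Ω⟫_ℂ = t := ht.symm
  -- s (U - 1) = z (U + 1)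
  have e1 : S.s i * (U - 1) = z • (U + 1) := by
    have e2 : S.s i * R = 1 + z • R := by
      rw [sub_mul, smul_mul_assoc, one_mul] at h1
      rw [← h1]; abel
    rw [h3, add_sub_cancel_left, mul_smul_comm, e2]
    module
  have e3 := tau_s_mul S i (U - 1)
  rw [e1] at e3
  have e4 : tau S.Ω (z • (U + 1)) = z * (t + 1) := by
    unfold tau
    rw [ContinuousLinearMap.smul_apply, ContinuousLinearMap.add_apply, inner_smul_right,
      inner_add_right, ht', ContinuousLinearMap.one_apply, hΩ]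
  have e5 : ⟪S.Ω, S.ra i ((U - 1) S.Ω)⟫_ℂ = z * (t - 1) ^ 2 := by
    rw [ContinuousLinearMap.sub_apply, ContinuousLinearMap.one_apply, map_sub, S.raΩ, sub_zero,
      hself, S.raΩ, map_zero, zero_add, inner_smul_right, inner_sub_right, ht',
      hΩ]
    ring
  rw [e4, e5] at e3
  have e6 : t + 1 = (t - 1) ^ 2 := mul_left_cancel₀ hz0 e3
  have e7 : t * (t - 3) = 0 := by linear_combination -e6
  rcases mul_eq_zero.1 e7 with h | h
  · exact h
  · exfalso
    have ht3 : t = 3 := by linear_combination h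
    have hnU : ‖U S.Ω‖ ≤ 1 := by
      have h5 : ‖U S.Ω‖ ^ 2 = 1 := by
        have h6 : ⟪U S.Ω, U S.Ω⟫_ℂ = 1 := by
          rw [← ContinuousLinearMap.adjoint_inner_right U S.Ω (U S.Ω),
            ← ContinuousLinearMap.star_eq_adjoint]
          have := congrArg (fun f : H →L[ℂ] H => f S.Ω) h4
          have h7 : (star U) (U S.Ω) = S.Ω := by simpa using this
          rw [h7, hΩ]
        have h9 : ‖U S.Ω‖ ^ 2 = RCLike.re ⟪U S.Ω, U S.Ω⟫_ℂ := (inner_self_eq_norm_sq _).symm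
        rw [h9, h6]
        simp
      nlinarith [norm_nonneg (U S.Ω)]
    have h8 : ‖t‖ ≤ 1 := by
      rw [← ht']
      refine (norm_inner_le_norm _ _).trans ?_
      rw [S.norm_Ω, one_mul]
      exact hnU
    rw [ht3] at h8
    norm_num at h8

end Pool.Agent.Helper38.FE.FG
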