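import Pool.Agent.Helper246.FG.F1

open MeasureTheory Filter Topology ProbabilityTheory
open scoped InnerProductSpace ENNReal

namespace Pool.Agent.Helper38.FE.FG

variable {H : Type} [NormedAddCommGroup H] [InnerProductSpace ℂ H] [CompleteSpace H]

/-- coefficient of a signed letter -/
noncomputable def zz (a : Fin 3 × Bool) : ℂ := if a.2 then al else -al

theorem s_mul_us (S : FS (Fin 3) H) (a : Fin 3 × Bool) :
    S.s a.1 * (us S a - 1) = zz a • (us S a + 1) := by
  have hu : IsUnit (S.s a.1 - al • (1 : H →L[ℂ] H)) := isUnit_sub_al _ (S.s_sa _)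
  have h1 : (S.s a.1 - al • (1 : H →L[ℂ] H)) * Ring.inverse (S.s a.1 - al • (1 : H →L[ℂ] H)) = 1 :=
    Ring.mul_inverse_cancel _ hu
  have h2 := cay_eq (S.s a.1) (S.s_sa _)
  have h3 : S.s a.1 * (cay (S.s a.1) - 1) = al • (cay (S.s a.1) + 1) := by
    set R := Ring.inverse (S.s a.1 - al • (1 : H →L[ℂ] H)) with hR
    have h4 : S.s a.1 * R = 1 + al • R := by
      rw [sub_mul, smul_mul_assoc, one_mul] at h1
      rw [← h1]; abel
    rw [h2, add_sub_cancel_left, mul_smul_comm, h4]
    simp only [smul_add, smul_smul]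
    have : (2 * al) • (1 : H →L[ℂ] H) = al • (1 : H →L[ℂ] H) + al • (1 : H →L[ℂ] H) := by
      rw [two_mul, add_smul]
    rw [this, show 2 * al * al = al * (2 * al) by ring]
    abel
  rcases a with ⟨i, e⟩
  cases e with
  | true => simpa [us, zz] using h3
  | false =>
    have h5 := cay_mul_star (S.s i) (S.s_sa _)
    have h6 : S.s i * (cay (S.s i) - 1) * star (cay (S.s i)) =
        al • (cay (S.s i) + 1) * star (cay (S.s i)) := by
      simp only at h3
      rw [h3]
    have h7 : S.s i * (1 - star (cay (S.s i))) = al • (1 + star (cay (S.s i))) := by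
      rw [mul_assoc, sub_mul, h5, one_mul, smul_mul_assoc, add_mul, h5, one_mul] at h6
      exact h6
    simp only [us, zz]
    simp only [Bool.false_eq_true, if_false]
    have h8 : S.s i * (star (cay (S.s i)) - 1) = -(S.s i * (1 - star (cay (S.s i)))) := by
      rw [← mul_neg, neg_sub]
    rw [h8, h7, neg_smul, add_comm]

theorem ra_us_gen (S : FS (Fin 3) H) (a : Fin 3 × Bool) (ξ : H) :
    S.ra a.1 (us S a ξ) = us S a (S.ra a.1 ξ) +
      (zz a * (⟪S.Ω, us S a ξ⟫_ℂ - ⟪S.Ω, ξ⟫_ℂ)) • (us S a S.Ω - S.Ω) := by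
  rcases a with ⟨i, e⟩
  rw [ra_us_self, inner_sub_right]
  rfl

theorem inner_us_Om (S : FS (Fin 3) H) (a : Fin 3 × Bool) :
    ⟪S.Ω, us S a S.Ω⟫_ℂ = 0 := tau_us S a

theorem inner_Om (S : FS (Fin 3) H) : ⟪S.Ω, S.Ω⟫_ℂ = 1 := by
  rw [inner_self_eq_norm_sq_to_K, S.norm_Ω]; simp

theorem ra_word (S : FS (Fin 3) H) (n : ℕ)
    (IH : ∀ v : List (Fin 3 × Bool), v ≠ [] → v.length ≤ n →
      v.IsChain (fun a b => a.1 ≠ b.1) → ⟪S.Ω, (v.map (us S)).prod S.Ω⟫_ℂ = 0)
    (i : Fin 3) (b : Fin 3 × Bool) : ∀ L : List (Fin 3 × Bool), (L ++ [b]).length ≤ n →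
      (L ++ [b]).IsChain (fun a b => a.1 ≠ b.1) →
      S.ra i (((L ++ [b]).map (us S)).prod S.Ω) =
        if i = b.1 then (-zz b) • ((L.map (us S)).prod (us S b S.Ω - S.Ω)) else 0 := by
  intro L
  induction L with
  | nil =>
    intro _ _
    simp only [List.nil_append, List.map_cons, List.map_nil, List.prod_cons, List.prod_nil, mul_one]
    split_ifs with h
    · subst h
      rw [ra_us_gen, S.raΩ, map_zero, zero_add, inner_us_Om, inner_Om]
      simp
    · rw [ra_us S i b h, S.raΩ, map_zero]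
  | cons a L ih =>
    intro hl hc
    have hc' : (L ++ [b]).IsChain (fun a b => a.1 ≠ b.1) := by
      have := hc.tail
      simpa using this
    have hl' : (L ++ [b]).length ≤ n := by
      simp at hl ⊢; omega
    have h0 := ih hl' hc'
    have h1 : ⟪S.Ω, us S a (((L ++ [b]).map (us S)).prod S.Ω)⟫_ℂ = 0 := by
      have := IH (a :: (L ++ [b])) (by simp) (by simpa using hl) (by simpa using hc)
      simpa using this
    have h2 : ⟪S.Ω, (((L ++ [b]).map (us S)).prod S.Ω)⟫_ℂ = 0 :=
      IH (L ++ [b]) (by simp) hl' hc'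
    have h3 : S.ra i (us S a (((L ++ [b]).map (us S)).prod S.Ω)) =
        us S a (S.ra i (((L ++ [b]).map (us S)).prod S.Ω)) := by
      by_cases hi : i = a.1
      · subst hi
        rw [ra_us_gen, h1, h2]
        simp
      · exact ra_us S i a hi _
    have h4 : (((a :: L) ++ [b]).map (us S)).prod S.Ω =
        us S a (((L ++ [b]).map (us S)).prod S.Ω) := by
      simp
    rw [h4, h3, h0]
    split_ifs with h
    · simp
    · simp

theorem zz_ne (a b : Fin 3 × Bool) : 2 * zz a + zz b ≠ 0 := by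
  have hal : al ≠ 0 := by
    intro h
    have := al_sq
    rw [h] at this
    norm_num at this
  unfold zz
  split_ifs
  · have : 2 * al + al = 3 * al := by ring
    rw [this]; simp [hal]
  · have : 2 * al + -al = al := by ring
    rw [this]; simp [hal]
  · have : 2 * -al + al = -al := by ring
    rw [this]; simp [hal]
  · have : 2 * -al + -al = -(3 * al) := by ring
    rw [this]; simp [hal]

theorem zz_ne' (a : Fin 3 × Bool) : zz a ≠ 0 := by
  have hal : al ≠ 0 := by
    intro h
    have := al_sq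
    rw [h] at this
    norm_num at this
  unfold zz
  split_ifs <;> simp [hal]

/-- alternating products of centred unitaries are centred -/
theorem tau_alt (S : FS (Fin 3) H) (w : List (Fin 3 × Bool)) (hw : w ≠ [])
    (hc : w.IsChain (fun a b => a.1 ≠ b.1)) : tau S.Ω ((w.map (us S)).prod) = 0 := by
  induction hn : w.length using Nat.strong_induction_on generalizing w with
  | _ n ih =>
  have IH : ∀ v : List (Fin 3 × Bool), v ≠ [] → v.length < n →
      v.IsChain (fun a b => a.1 ≠ b.1) → ⟪S.Ω, (v.map (us S)).prod S.Ω⟫_ℂ = 0 := by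
    intro v hv hl hcv
    exact ih v.length hl v hv hcv rfl
  rcases w with _ | ⟨a, T⟩
  · exact absurd rfl hw
  rcases List.eq_nil_or_concat' T with rfl | ⟨L, b, rfl⟩
  · simpa using tau_us S a
  have hc' : (L ++ [b]).IsChain (fun a b => a.1 ≠ b.1) := by
    have := hc.tail
    simpa using this
  have hlen : (L ++ [b]).length < n := by
    rw [← hn]; simp
  have hT : ⟪S.Ω, ((L ++ [b]).map (us S)).prod S.Ω⟫_ℂ = 0 := IH _ (by simp) hlen hc'
  set ξ : H := ((L ++ [b]).map (us S)).prod S.Ω with hξ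
  have hW : tau S.Ω (((a :: (L ++ [b])).map (us S)).prod) = ⟪S.Ω, us S a ξ⟫_ℂ := by
    rw [tau, List.map_cons, List.prod_cons]
    rfl
  have hra := ra_word S (n-1) (fun v h1 h2 h3 => IH v h1 (by
    have : 0 < n := by rw [← hn]; simp
    omega) h3) a.1 b L (by omega) hc'
  rw [← hξ] at hra
  have hA : ⟪S.Ω, S.s a.1 (us S a ξ - ξ)⟫_ℂ = zz a * ⟪S.Ω, us S a ξ⟫_ℂ := by
    have h1 := s_mul_us S a
    have h2 : S.s a.1 (us S a ξ - ξ) = zz a • (us S a ξ + ξ) := by
      have := congrArg (fun f : H →L[ℂ] H => f ξ) h1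
      simpa using this
    rw [h2, inner_smul_right, inner_add_right, hT, add_zero]
  have hB : ⟪S.Ω, S.s a.1 (us S a ξ - ξ)⟫_ℂ = ⟪S.Ω, S.ra a.1 (us S a ξ - ξ)⟫_ℂ := by
    have := tau_s_mul S a.1 ((us S a - 1) * ((L ++ [b]).map (us S)).prod)
    simpa [tau, hξ] using this
  have hC : ⟪S.Ω, S.ra a.1 (us S a ξ - ξ)⟫_ℂ =
      ⟪S.Ω, us S a (S.ra a.1 ξ)⟫_ℂ - ⟪S.Ω, S.ra a.1 ξ⟫_ℂ - zz a * ⟪S.Ω, us S a ξ⟫_ℂ := by
    rw [map_sub, ra_us_gen, hT, inner_sub_right, inner_add_right, inner_smul_right,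
      inner_sub_right, inner_us_Om, inner_Om]
    ring
  rw [hW]
  by_cases hab : a.1 = b.1
  · rw [if_pos hab] at hra
    have hL : L ≠ [] := by
      rintro rfl
      simp at hc
      exact hc hab
    have hcL : L.IsChain (fun a b => a.1 ≠ b.1) := by
      exact hc'.left_of_append
    have hcaL : (a :: L).IsChain (fun a b => a.1 ≠ b.1) := by
      have : ((a :: L) ++ [b]).IsChain (fun a b => a.1 ≠ b.1) := by simpa using hc
      exact this.left_of_append
    have hlL : L.length < n := by simp at hlen; omega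
    have hlaL : (a :: L).length < n := by simp at hlen hn ⊢; omega
    have e1 : ⟪S.Ω, (L.map (us S)).prod S.Ω⟫_ℂ = 0 := IH L hL hlL hcL
    have e2 : ⟪S.Ω, us S a ((L.map (us S)).prod S.Ω)⟫_ℂ = 0 := by
      have := IH (a :: L) (by simp) hlaL hcaL
      simpa using this
    have e3 : ξ = (L.map (us S)).prod (us S b S.Ω) := by
      rw [hξ]; simp
    have hD : S.ra a.1 ξ = (-zz b) • (ξ - (L.map (us S)).prod S.Ω) := by
      rw [hra, map_sub, ← e3]
    have hE : ⟪S.Ω, us S a (S.ra a.1 ξ)⟫_ℂ = -zz b * ⟪S.Ω, us S a ξ⟫_ℂ := by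
      rw [hD, map_smul, map_sub, inner_smul_right, inner_sub_right, e2, sub_zero]
    have hF : ⟪S.Ω, S.ra a.1 ξ⟫_ℂ = 0 := by
      rw [hD, inner_smul_right, inner_sub_right, e1, hT]; simp
    have key : (2 * zz a + zz b) * ⟪S.Ω, us S a ξ⟫_ℂ = 0 := by
      have := hA.symm.trans (hB.trans hC)
      rw [hE, hF] at this
      linear_combination this
    exact (mul_eq_zero.mp key).resolve_left (zz_ne a b)
  · rw [if_neg hab] at hra
    have key : (2 * zz a) * ⟪S.Ω, us S a ξ⟫_ℂ = 0 := by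
      have := hA.symm.trans (hB.trans hC)
      rw [hra, map_zero, inner_zero_right] at this
      linear_combination this
    exact (mul_eq_zero.mp key).resolve_left (by simpa using zz_ne' a)

end Pool.Agent.Helper38.FE.FG
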