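import Pool.Agent.Helper246.FG.F2

open MeasureTheory Filter Topology ProbabilityTheory
open scoped InnerProductSpace ENNReal

namespace Pool.Agent.Helper38.FE.FG

variable {H : Type} [NormedAddCommGroup H] [InnerProductSpace ℂ H] [CompleteSpace H]

theorem fock_ortho_star (S : FS (Fin 3) H) (l : List (Fin 3)) :
    star (PW (fun i => cay (S.s i)) l) =
      ((l.reverse.map (fun i => (i, false))).map (us S)).prod := by
  induction l with
  | nil =>
    unfold PW
    rw [List.map_nil, List.prod_nil, star_one]
    rfl
  | cons i t ih =>
    have h1 : PW (fun i => cay (S.s i)) (i :: t) = cay (S.s i) * PW (fun i => cay (S.s i)) t := by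
      unfold PW
      rw [List.map_cons, List.prod_cons]
    have h2 : us S (i, false) = star (cay (S.s i)) := rfl
    rw [h1, star_mul, ih, List.reverse_cons, List.map_append, List.map_append, List.prod_append,
      List.map_singleton, List.map_singleton, List.prod_singleton, h2]

theorem fock_ortho_pos (S : FS (Fin 3) H) (l : List (Fin 3)) :
    PW (fun i => cay (S.s i)) l = ((l.map (fun i => (i, true))).map (us S)).prod := by
  unfold PW
  rw [List.map_map]
  rfl

theorem fock_ortho_alt (S : FS (Fin 3) H) (l l' : List (Fin 3)) (hl : l.IsChain (· ≠ ·))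
    (hl' : l'.IsChain (· ≠ ·)) (hne : l ≠ [] ∨ l' ≠ [])
    (hj : ∀ x ∈ l.head?, ∀ y ∈ l'.head?, x ≠ y) :
    tau S.Ω (star (PW (fun i => cay (S.s i)) l) * PW (fun i => cay (S.s i)) l') = 0 := by
  rw [fock_ortho_star, fock_ortho_pos, ← List.prod_append, ← List.map_append]
  apply tau_alt
  · intro h
    rw [List.append_eq_nil_iff] at h
    obtain ⟨h1, h2⟩ := h
    rw [List.map_eq_nil_iff] at h1 h2
    rw [List.reverse_eq_nil_iff] at h1
    rcases hne with h | h
    · exact h h1
    · exact h h2
  · rw [List.isChain_append]
    refine ⟨?_, ?_, ?_⟩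
    · rw [List.isChain_map, List.isChain_reverse]
      exact hl.imp (fun a b hab => hab.symm)
    · rw [List.isChain_map]
      exact hl'
    · intro x hx y hy
      rw [List.getLast?_map, List.getLast?_reverse] at hx
      rw [List.head?_map] at hy
      rw [Option.mem_def, Option.map_eq_some_iff] at hx hy
      obtain ⟨a, ha, rfl⟩ := hx
      obtain ⟨b, hb, rfl⟩ := hy
      exact hj a ha b hb

/-- reduced positive words are orthonormal -/
theorem fock_ortho (S : FS (Fin 3) H) (l l' : List (Fin 3)) (hl : l.IsChain (· ≠ ·))
    (hl' : l'.IsChain (· ≠ ·)) :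
    tau S.Ω (star (PW (fun i => cay (S.s i)) l) * PW (fun i => cay (S.s i)) l') =
      if l = l' then 1 else 0 := by
  induction l generalizing l' with
  | nil =>
    cases l' with
    | nil =>
      rw [if_pos rfl]
      have h1 : PW (fun i => cay (S.s i)) [] = (1 : H →L[ℂ] H) := rfl
      rw [h1, star_one, one_mul]
      unfold tau
      show ⟪S.Ω, S.Ω⟫_ℂ = 1
      rw [inner_self_eq_norm_sq_to_K, S.norm_Ω]
      norm_num
    | cons j t' =>
      rw [if_neg (by simp)]
      apply fock_ortho_alt S _ _ hl hl' (Or.inr (by simp))
      intro x hx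
      simp at hx
  | cons i t ih =>
    cases l' with
    | nil =>
      rw [if_neg (by simp)]
      apply fock_ortho_alt S _ _ hl hl' (Or.inl (by simp))
      intro x _ y hy
      simp at hy
    | cons j t' =>
      by_cases hij : i = j
      · subst hij
        have h1 : ∀ t, PW (fun i => cay (S.s i)) (i :: t) =
            cay (S.s i) * PW (fun i => cay (S.s i)) t := by
          intro t
          unfold PW
          rw [List.map_cons, List.prod_cons]
        have h2 : star (PW (fun i => cay (S.s i)) (i :: t)) * PW (fun i => cay (S.s i)) (i :: t') =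
            star (PW (fun i => cay (S.s i)) t) * PW (fun i => cay (S.s i)) t' := by
          rw [h1, h1, star_mul, mul_assoc, ← mul_assoc (star (cay (S.s i))),
            star_cay_mul (S.s i) (S.s_sa i), one_mul]
        rw [h2, ih t' hl.tail hl'.tail]
        simp only [List.cons.injEq, true_and]
      · rw [if_neg (by simp [hij])]
        apply fock_ortho_alt S _ _ hl hl' (Or.inl (by simp))
        intro x hx y hy
        rw [List.head?_cons, Option.mem_def, Option.some.injEq] at hx hy
        rw [← hx, ← hy]
        exact hij

end Pool.Agent.Helper38.FE.FG
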