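import Pool.Agent.Helper246.FG.C1
import Pool.Agent.Helper246.FG.A4

open MeasureTheory Filter Topology ProbabilityTheory
open scoped InnerProductSpace ENNReal

namespace Pool.Agent.Helper38.FE.FG

theorem fg1_nontrivial {N : ℕ} (hN : 0 < N) : Nontrivial (BN N) := by
  have : Nonempty (Fin N) := ⟨⟨0, hN⟩⟩
  have : Nontrivial (EuclideanSpace ℂ (Fin N)) := inferInstance
  infer_instance

theorem fg1_norm_al : ‖al‖ ^ 2 = 1 / 2 := by
  unfold al
  rw [norm_div, Complex.norm_I, Complex.norm_real, Real.norm_eq_abs,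
    abs_of_nonneg (Real.sqrt_nonneg _), div_pow, Real.sq_sqrt (by norm_num)]
  norm_num

theorem fg1_norm_al_le : ‖al‖ ≤ 1 := by
  have h := fg1_norm_al
  nlinarith [norm_nonneg al]

theorem fg1_nstar {N : ℕ} (T : BN N) : ‖star T‖ = ‖T‖ := norm_star T

theorem fg1_two_smul {N : ℕ} (T : BN N) : (2 : ℂ) • T = T + T := two_smul ℂ T

theorem fg1_star_sum {N : ℕ} {ι : Type} [Fintype ι] (T : ι → BN N) :
    star (∑ i, T i) = ∑ i, star (T i) := by
  have h : ∀ {A : Type} [CStarAlgebra A] (T : ι → A), star (∑ i, T i) = ∑ i, star (T i) :=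
    fun T => star_sum _ _
  exact h (A := BN N) T

theorem fg1_star_add {N : ℕ} (S T : BN N) : star (S + T) = star S + star T := star_add S T

theorem fg1_star_sub {N : ℕ} (S T : BN N) : star (S - T) = star S - star T := star_sub S T

theorem fg1_star_star {N : ℕ} (S : BN N) : star (star S) = S := star_star S

theorem fg1_tr_nonneg {N : ℕ} (T : BN N) : 0 ≤ (tr (T * star T)).re := by
  rw [tr_mul_star_self, Complex.ofReal_re]
  positivity

theorem fg1_tr_le {N : ℕ} (T : BN N) : (tr (T * star T)).re ≤ ‖T‖ ^ 2 := by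
  calc (tr (T * star T)).re ≤ ‖tr (T * star T)‖ := Complex.re_le_norm _
    _ ≤ ‖T * star T‖ := norm_tr_le _
    _ ≤ ‖T‖ * ‖star T‖ := norm_mul_le _ _
    _ = ‖T‖ ^ 2 := by rw [fg1_nstar]; ring

theorem fg1_tr_add {N : ℕ} (S T : BN N) : tr (S + T) = tr S + tr T := by
  unfold tr ent
  simp only [ContinuousLinearMap.add_apply, PiLp.add_apply, Finset.sum_add_distrib, mul_add]

theorem fg1_tr_smul {N : ℕ} (c : ℂ) (T : BN N) : tr (c • T) = c * tr T := by
  unfold tr ent
  simp only [ContinuousLinearMap.smul_apply, PiLp.smul_apply, smul_eq_mul, ← Finset.mul_sum]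
  ring

theorem fg1_crd_add {N : ℕ} (S T : BN N) : crd (S + T) = crd S + crd T := by
  obtain ⟨L, hL⟩ := exists_crdL N
  rw [← hL, ← hL, ← hL, map_add]

theorem fg1_ring {A : Type*} [Ring A] (t s : A) :
    (t + s) * (s + t) + (t - s) * (s - t) = (t * s + t * s) + (s * t + s * t) := by
  noncomm_ring

theorem fg1_para {N : ℕ} (t : BN N) : (tr ((t + star t) * star (t + star t))).re ≤
    2 * (tr (t * star t)).re + 2 * (tr (star t * star (star t))).re := by
  have h1 := fg1_tr_nonneg (t - star t)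
  have h2 : (t + star t) * star (t + star t) + (t - star t) * star (t - star t) =
      (2 : ℂ) • (t * star t) + (2 : ℂ) • (star t * star (star t)) := by
    rw [fg1_two_smul, fg1_two_smul]
    simp only [fg1_star_add, fg1_star_sub, fg1_star_star]
    exact fg1_ring t (star t)
  have h3 := congrArg (fun T => (tr T).re) h2
  simp only [fg1_tr_add, fg1_tr_smul, Complex.add_re] at h3
  have h4 : ((2 : ℂ) * tr (t * star t)).re = 2 * (tr (t * star t)).re := by
    simp
  have h5 : ((2 : ℂ) * tr (star t * star (star t))).re =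
      2 * (tr (star t * star (star t))).re := by
    simp
  rw [h4, h5] at h3
  linarith

theorem fg1_term {N : ℕ} (A B h : BN N) (hh : IsSelfAdjoint h) (hA : ‖A‖ ≤ 2) (hB : ‖B‖ ≤ 2) :
    ‖crd (al • (A * h * B) + star (al • (A * h * B)))‖ ≤ 6 * ‖crd h‖ := by
  set t : BN N := al • (A * h * B) with ht
  have hS : ‖al • A‖ ^ 2 ≤ 2 := by
    rw [norm_smul, mul_pow, fg1_norm_al]
    nlinarith [norm_nonneg A]
  have hB2 : ‖B‖ ^ 2 ≤ 4 := by nlinarith [norm_nonneg B]
  have e1 : t = (al • A) * h * B := by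
    rw [ht, smul_mul_assoc, smul_mul_assoc]
  have e2 : star t = star B * h * star (al • A) := by
    rw [e1, star_mul, star_mul, hh.star_eq, mul_assoc]
  have r0 := fg1_tr_nonneg h
  have h1 : (tr (t * star t)).re ≤ 8 * (tr (h * star h)).re := by
    rw [e1]
    refine (tr_hs_mul_le _ _ _).trans ?_
    apply mul_le_mul_of_nonneg_right _ r0
    nlinarith [sq_nonneg ‖al • A‖, sq_nonneg ‖B‖]
  have h2 : (tr (star t * star (star t))).re ≤ 8 * (tr (h * star h)).re := by
    rw [e2]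
    refine (tr_hs_mul_le _ _ _).trans ?_
    apply mul_le_mul_of_nonneg_right _ r0
    rw [fg1_nstar, fg1_nstar]
    nlinarith [sq_nonneg ‖al • A‖, sq_nonneg ‖B‖]
  have hsa : IsSelfAdjoint (t + star t) := IsSelfAdjoint.add_star_self t
  have h3 := fg1_para t
  have h4 : ‖crd (t + star t)‖ ^ 2 ≤ 36 * ‖crd h‖ ^ 2 := by
    rw [norm_crd_sq _ hsa, norm_crd_sq _ hh]
    have hN : 0 ≤ (N : ℝ) ^ 2 := by positivity
    have h5 : (tr ((t + star t) * star (t + star t))).re ≤ 36 * (tr (h * star h)).re := by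
      linarith
    calc (N : ℝ) ^ 2 * (tr ((t + star t) * star (t + star t))).re ≤
        (N : ℝ) ^ 2 * (36 * (tr (h * star h)).re) := mul_le_mul_of_nonneg_left h5 hN
      _ = _ := by ring
  apply le_of_sq_le_sq _ (by positivity)
  calc ‖crd (t + star t)‖ ^ 2 ≤ 36 * ‖crd h‖ ^ 2 := h4
    _ = (6 * ‖crd h‖) ^ 2 := by ring

theorem fg1_u1 (N : ℕ) (x : EX N) (i : Fin 3) : star (uN N x i) * uN N x i = 1 :=
  star_cay_mul (A := BN N) _ (Xm_sa N x i)

theorem fg1_u2 (N : ℕ) (x : EX N) (i : Fin 3) : uN N x i * star (uN N x i) = 1 :=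
  cay_mul_star (A := BN N) _ (Xm_sa N x i)

theorem fg1_zero {N : ℕ} (hN : 0 < N) (b : List (Fin 3)) (x : EX N) :
    ‖Fc N b x‖ ≤ 2 * N := by
  have := fg1_nontrivial hN
  rw [Fc_eq]
  set W : BN N := PW (uN N x) b with hW
  have h1 : ‖W‖ ≤ 1 := norm_PW_le _ (fg1_u1 N x) (fg1_u2 N x) b
  have h2 : ‖W + star W‖ ≤ 2 := by
    refine (norm_add_le _ _).trans ?_
    rw [fg1_nstar]
    linarith
  apply le_of_sq_le_sq _ (by positivity)
  rw [norm_crd_sq _ (IsSelfAdjoint.add_star_self W), mul_pow, mul_comm]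
  apply mul_le_mul_of_nonneg_right _ (by positivity)
  refine (fg1_tr_le _).trans ?_
  exact pow_le_pow_left₀ (norm_nonneg _) h2 2

theorem fg1_crd_Xm {N : ℕ} (hN : 0 < N) (h : EX N) (i : Fin 3) : ‖crd (Xm N h i)‖ ≤ ‖h‖ := by
  apply le_of_sq_le_sq _ (norm_nonneg _)
  rw [← norm_sq_EX hN h]
  exact Finset.single_le_sum (f := fun i => ‖crd (Xm N h i)‖ ^ 2)
    (fun i _ => by positivity) (Finset.mem_univ i)

theorem fg1_one {N : ℕ} (hN : 0 < N) (b : List (Fin 3)) (x : EX N) :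
    ‖fderiv ℝ (Fc N b) x‖ ≤ 6 * b.length := by
  have := fg1_nontrivial hN
  refine ContinuousLinearMap.opNorm_le_bound _ (by positivity) fun h => ?_
  rw [fderiv_Fc]
  obtain ⟨L, hL⟩ := exists_crdL N
  have h1 : crd (DW (uN N x) (Xm N h) b + star (DW (uN N x) (Xm N h) b)) =
      ∑ j : Fin b.length, crd (al • (AW (uN N x) b j * Xm N h (b.get j) * BW (uN N x) b j) +
        star (al • (AW (uN N x) b j * Xm N h (b.get j) * BW (uN N x) b j))) := by
    rw [← hL]
    unfold DW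
    rw [fg1_star_sum, ← Finset.sum_add_distrib, map_sum]
    exact Finset.sum_congr rfl fun j _ => hL _
  rw [h1]
  refine (norm_sum_le _ _).trans ?_
  calc ∑ j : Fin b.length, ‖crd (al • (AW (uN N x) b j * Xm N h (b.get j) * BW (uN N x) b j) +
        star (al • (AW (uN N x) b j * Xm N h (b.get j) * BW (uN N x) b j)))‖
      ≤ ∑ j : Fin b.length, 6 * ‖h‖ := by
        refine Finset.sum_le_sum fun j _ => ?_
        refine (fg1_term _ _ _ (Xm_sa N h _) (norm_AW_le _ (fg1_u1 N x) (fg1_u2 N x) b j)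
          (norm_BW_le _ (fg1_u1 N x) (fg1_u2 N x) b j)).trans ?_
        exact mul_le_mul_of_nonneg_left (fg1_crd_Xm hN h _) (by norm_num)
    _ = 6 * b.length * ‖h‖ := by
        rw [Finset.sum_const, Finset.card_univ, Fintype.card_fin, nsmul_eq_mul]
        ring

theorem fg1_TW {N : ℕ} (hN : 0 < N) (b : List (Fin 3)) (x : EX N) (C : ℝ) (hC : 0 ≤ C)
    (hX : ∀ i (h : EX N), ‖Xm N h i‖ ≤ C * ‖h‖) (h k : EX N) :
    ‖TW (uN N x) (Xm N h) (Xm N k) b‖ ≤ 16 * C ^ 2 * b.length ^ 2 * ‖h‖ * ‖k‖ := by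
  have := fg1_nontrivial hN
  unfold TW
  refine (norm_sum_le _ _).trans ?_
  calc ∑ j : Fin b.length, ‖∑ l : Fin b.length, if j ≤ l then AW (uN N x) b j *
        Xm N h (b.get j) * EW (uN N x) b j l * Xm N k (b.get l) * BW (uN N x) b l else 0‖
      ≤ ∑ j : Fin b.length, ∑ l : Fin b.length, 16 * C ^ 2 * ‖h‖ * ‖k‖ := by
        refine Finset.sum_le_sum fun j _ => (norm_sum_le _ _).trans
          (Finset.sum_le_sum fun l _ => ?_)
        split_ifs
        · have hA := norm_AW_le _ (fg1_u1 N x) (fg1_u2 N x) b j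
          have hB := norm_BW_le _ (fg1_u1 N x) (fg1_u2 N x) b l
          have hE := norm_EW_le _ (fg1_u1 N x) (fg1_u2 N x) b j l
          have hh := hX (b.get j) h
          have hk := hX (b.get l) k
          calc ‖AW (uN N x) b j * Xm N h (b.get j) * EW (uN N x) b j l * Xm N k (b.get l) *
                BW (uN N x) b l‖
              ≤ ‖AW (uN N x) b j‖ * ‖Xm N h (b.get j)‖ * ‖EW (uN N x) b j l‖ *
                ‖Xm N k (b.get l)‖ * ‖BW (uN N x) b l‖ := by
                refine (norm_mul_le _ _).trans (mul_le_mul_of_nonneg_right ?_ (norm_nonneg _))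
                refine (norm_mul_le _ _).trans (mul_le_mul_of_nonneg_right ?_ (norm_nonneg _))
                refine (norm_mul_le _ _).trans (mul_le_mul_of_nonneg_right ?_ (norm_nonneg _))
                exact norm_mul_le _ _
            _ ≤ 2 * (C * ‖h‖) * 4 * (C * ‖k‖) * 2 := by gcongr
            _ = 16 * C ^ 2 * ‖h‖ * ‖k‖ := by ring
        · rw [norm_zero]
          positivity
    _ = 16 * C ^ 2 * b.length ^ 2 * ‖h‖ * ‖k‖ := by
        rw [Finset.sum_const, Finset.sum_const, Finset.card_univ, Fintype.card_fin,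
          nsmul_eq_mul, nsmul_eq_mul]
        ring

theorem fg1_two {N : ℕ} (hN : 0 < N) (b : List (Fin 3)) :
    ∃ K, ∀ x, ‖fderiv ℝ (fderiv ℝ (Fc N b)) x‖ ≤ K := by
  have := fg1_nontrivial hN
  obtain ⟨L, hL⟩ := exists_crdL N
  obtain ⟨M, hM⟩ := exists_XmL N
  set C : ℝ := ∑ i, ‖M i‖ with hCdef
  have hC : 0 ≤ C := Finset.sum_nonneg fun i _ => norm_nonneg (M i)
  have hX : ∀ i (h : EX N), ‖Xm N h i‖ ≤ C * ‖h‖ := by
    intro i h
    rw [← hM]
    refine ((M i).le_opNorm h).trans ?_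
    apply mul_le_mul_of_nonneg_right _ (norm_nonneg _)
    exact Finset.single_le_sum (f := fun i => ‖M i‖) (fun i _ => norm_nonneg (M i)) (Finset.mem_univ i)
  refine ⟨‖L‖ * (2 * (16 * C ^ 2 * b.length ^ 2)), fun x => ?_⟩
  refine ContinuousLinearMap.opNorm_le_bound₂ _ (by positivity) fun h k => ?_
  rw [fderiv2_Fc, ← hL]
  set D : BN N := D2W (uN N x) (Xm N h) (Xm N k) b with hD
  have h1 : ‖D‖ ≤ 16 * C ^ 2 * b.length ^ 2 * ‖h‖ * ‖k‖ := by
    rw [hD, D2W, norm_smul]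
    have h2 := fg1_TW hN b x C hC hX h k
    have h3 := fg1_TW hN b x C hC hX k h
    have h4 : ‖(-(1 / 2 : ℂ))‖ = 1 / 2 := by
      rw [norm_neg]
      norm_num
    rw [h4]
    have h5 := norm_add_le (TW (uN N x) (Xm N h) (Xm N k) b) (TW (uN N x) (Xm N k) (Xm N h) b)
    have h6 : 16 * C ^ 2 * (b.length : ℝ) ^ 2 * ‖k‖ * ‖h‖ =
      16 * C ^ 2 * (b.length : ℝ) ^ 2 * ‖h‖ * ‖k‖ := by ring
    rw [h6] at h3
    linarith
  have h2 : ‖D + star D‖ ≤ 2 * ‖D‖ := by
    refine (norm_add_le _ _).trans ?_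
    rw [fg1_nstar]
    linarith
  calc ‖L (D + star D)‖ ≤ ‖L‖ * ‖D + star D‖ := L.le_opNorm _
    _ ≤ ‖L‖ * (2 * (16 * C ^ 2 * b.length ^ 2 * ‖h‖ * ‖k‖)) := by
        apply mul_le_mul_of_nonneg_left _ (norm_nonneg L)
        linarith
    _ = _ := by ring

/-- FG1: uniform first order bounds, for every word and every `N ≥ 1`. -/
theorem Fc_bounds : ∃ Cl : ℝ, 0 < Cl ∧ ∀ (N : ℕ) (b : List (Fin 3)), 0 < N →
    (∀ x, ‖Fc N b x‖ ≤ 2 * N) ∧ (∀ x, ‖fderiv ℝ (Fc N b) x‖ ≤ Cl * b.length) ∧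
    ContDiff ℝ 2 (Fc N b) ∧ ∃ K, ∀ x, ‖fderiv ℝ (fderiv ℝ (Fc N b)) x‖ ≤ K := by
  refine ⟨6, by norm_num, fun N b hN => ⟨fg1_zero hN b, fg1_one hN b, ?_, fg1_two hN b⟩⟩
  exact_mod_cast contDiff_Fc N b 2

end Pool.Agent.Helper38.FE.FG
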