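import Pool.Agent.Helper246.FG.L1

open MeasureTheory Filter Topology ProbabilityTheory
open scoped InnerProductSpace ENNReal

namespace Pool.Agent.Helper38.FE.FG

/-- (L1) value of the first order sum -/
theorem sum_first {A : Type*} [Ring A] [StarRing A] [Algebra ℂ A] (τ : A →ₗ[ℂ] ℂ)
    (u : Fin 3 → A)
    (hτ : ∀ l l' : List (Fin 3), l.IsChain (· ≠ ·) → l'.IsChain (· ≠ ·) →
      τ (star (PW u l) * PW u l') = if l = l' then 1 else 0)
    (b : List (Fin 3)) (hb : b.IsChain (· ≠ ·)) (hb' : ∀ h : b ≠ [], b.getLast h ≠ b.head h) :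
    (∑ j, ∑ k, if b.get j = b.get k then
      τ (star (AW u b k) * AW u b j) * τ (star (BW u b k) * BW u b j)
        - τ (BW u b j * AW u b k) * τ (BW u b k * AW u b j) else 0) = 4 * (b.length : ℂ) := by
  have hterm : ∀ j k : Fin b.length, (if b.get j = b.get k then
      τ (star (AW u b k) * AW u b j) * τ (star (BW u b k) * BW u b j)
        - τ (BW u b j * AW u b k) * τ (BW u b k * AW u b j) else 0) =
      if j = k then (4 : ℂ) else 0 := by
    intro j k
    by_cases h : b.get j = b.get k
    · rw [if_pos h, tau_AW τ u hτ b hb j k h, tau_BW τ u hτ b hb j k h,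
        tau_BA τ u hτ b hb hb' j k h, zero_mul, sub_zero]
      by_cases hjk : j = k
      · rw [if_pos hjk, if_pos hjk]; norm_num
      · rw [if_neg hjk, if_neg hjk]; norm_num
    · rw [if_neg h, if_neg (fun hjk => h (by rw [hjk]))]
  simp_rw [hterm]
  simp
  ring

end Pool.Agent.Helper38.FE.FG
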