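import Pool.Agent.Helper246.FG.L1

open MeasureTheory Filter Topology ProbabilityTheory
open scoped InnerProductSpace ENNReal

namespace Pool.Agent.Helper38.FE.FG

/-- factor of `b` with shifted ends -/
def Wd (b : List (Fin 3)) (j k : ℕ) (p : Fin 2 × Fin 2) : List (Fin 3) :=
  (b.take (k + 1 - (p.2 : ℕ))).drop (j + (p.1 : ℕ))

theorem aux_EW_sum {A : Type*} [Ring A] (u : Fin 3 → A) (b : List (Fin 3)) (j k : Fin b.length)
    (h : j < k) : EW u b j k =
      ∑ p : Fin 2 × Fin 2, ((-1 : ℤ) ^ ((p.1 : ℕ) + (p.2 : ℕ))) • PW u (Wd b j k p) := by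
  rw [EW_eq u b j k h]
  simp only [Fintype.sum_prod_type, Fin.sum_univ_two, Wd]
  simp
  abel

theorem aux_chain (b : List (Fin 3)) (hb : b.IsChain (· ≠ ·)) (j k : ℕ) (p : Fin 2 × Fin 2) :
    (Wd b j k p).IsChain (· ≠ ·) := by
  unfold Wd
  exact (hb.take _).drop _

theorem aux_tau_bound {A : Type*} [Ring A] [StarRing A] [Algebra ℂ A] (τ : A →ₗ[ℂ] ℂ)
    (u : Fin 3 → A)
    (hτ : ∀ l l' : List (Fin 3), l.IsChain (· ≠ ·) → l'.IsChain (· ≠ ·) →
      τ (star (PW u l) * PW u l') = if l = l' then 1 else 0)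
    (b : List (Fin 3)) (hb : b.IsChain (· ≠ ·)) (j k j' k' : Fin b.length) (h : j < k)
    (h' : j' < k') : ‖τ (star (EW u b j' k') * EW u b j k)‖ ≤
      ∑ p : Fin 2 × Fin 2, ∑ q : Fin 2 × Fin 2,
        if Wd b j' k' p = Wd b j k q then (1 : ℝ) else 0 := by
  rw [aux_EW_sum u b j k h, aux_EW_sum u b j' k' h', star_sum, Finset.sum_mul_sum, map_sum]
  refine (norm_sum_le _ _).trans (Finset.sum_le_sum fun p _ => ?_)
  rw [map_sum]
  refine (norm_sum_le _ _).trans (Finset.sum_le_sum fun q _ => ?_)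
  rw [star_zsmul, smul_mul_assoc, mul_smul_comm, map_zsmul, map_zsmul,
    hτ _ _ (aux_chain b hb _ _ _) (aux_chain b hb _ _ _)]
  rw [zsmul_eq_mul, zsmul_eq_mul, norm_mul, norm_mul]
  push_cast
  rw [norm_pow, norm_pow, norm_neg, norm_one, one_pow, one_pow, one_mul, one_mul]
  split_ifs <;> simp

theorem aux_count (b : List (Fin 3)) (p q : Fin 2 × Fin 2) :
    (Finset.univ.filter fun x : Fin b.length × Fin b.length × Fin b.length × Fin b.length =>
      (x.1 < x.2.1 ∧ x.2.2.1 < x.2.2.2) ∧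
        Wd b x.2.2.1 x.2.2.2 p = Wd b x.1 x.2.1 q).card ≤ Qc b := by
  have hp : ∀ i : Fin 2, (i : ℕ) ≤ 1 := fun i => by omega
  unfold Qc
  refine Finset.card_le_card_of_injOn (fun x =>
    ((⟨(x.1 : ℕ) + q.1, by have := x.1.2; have := hp q.1; omega⟩ : Fin (b.length + 1)),
     (⟨(x.2.1 : ℕ) + 1 - q.2, by have := x.2.1.2; omega⟩ : Fin (b.length + 1)),
     (⟨(x.2.2.1 : ℕ) + p.1, by have := x.2.2.1.2; have := hp p.1; omega⟩ : Fin (b.length + 1)),
     (⟨(x.2.2.2 : ℕ) + 1 - p.2, by have := x.2.2.2.2; omega⟩ : Fin (b.length + 1)))) ?_ ?_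
  · rintro ⟨j, k, j', k'⟩ hx
    simp only [Finset.coe_filter, Finset.mem_univ, true_and, Set.mem_setOf_eq] at hx ⊢
    obtain ⟨⟨h1, h2⟩, h3⟩ := hx
    have a1 := hp p.1
    have a2 := hp p.2
    have a3 := hp q.1
    have a4 := hp q.2
    have h1' : (j : ℕ) < k := h1
    have h2' : (j' : ℕ) < k' := h2
    refine ⟨?_, ?_, ?_⟩
    · show (j : ℕ) + q.1 ≤ (k : ℕ) + 1 - q.2
      omega
    · show (j' : ℕ) + p.1 ≤ (k' : ℕ) + 1 - p.2
      omega
    · exact h3.symm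
  · rintro ⟨j, k, j', k'⟩ _ ⟨i, l, i', l'⟩ _ h
    simp only [Prod.mk.injEq, Fin.mk.injEq] at h
    obtain ⟨h1, h2, h3, h4⟩ := h
    have a2 := hp p.2
    have a4 := hp q.2
    refine Prod.ext (Fin.ext (by simp only; omega)) (Prod.ext (Fin.ext (by simp only; omega))
      (Prod.ext (Fin.ext (by simp only; omega)) (Fin.ext (by simp only; omega))))

/-- (L2) fourth order sum -/
theorem sum_fourth {A : Type*} [Ring A] [StarRing A] [Algebra ℂ A] (τ : A →ₗ[ℂ] ℂ)
    (u : Fin 3 → A)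
    (hτ : ∀ l l' : List (Fin 3), l.IsChain (· ≠ ·) → l'.IsChain (· ≠ ·) →
      τ (star (PW u l) * PW u l') = if l = l' then 1 else 0)
    (b : List (Fin 3)) (hb : b.IsChain (· ≠ ·)) :
    ‖∑ j, ∑ k, ∑ j', ∑ k', if j < k ∧ j' < k' ∧ b.get j = b.get j' ∧ b.get k = b.get k' then
      τ (star (EW u b j' k') * EW u b j k) * τ (star (EW u b j k) * EW u b j' k') else 0‖ ≤
      256 * (Qc b : ℝ) := by
  classical
  have hconv : (∑ j : Fin b.length, ∑ k : Fin b.length, ∑ j' : Fin b.length, ∑ k' : Fin b.length,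
      if j < k ∧ j' < k' ∧ b.get j = b.get j' ∧ b.get k = b.get k' then
      τ (star (EW u b j' k') * EW u b j k) * τ (star (EW u b j k) * EW u b j' k') else 0) =
      ∑ x : Fin b.length × Fin b.length × Fin b.length × Fin b.length,
        if x.1 < x.2.1 ∧ x.2.2.1 < x.2.2.2 ∧ b.get x.1 = b.get x.2.2.1 ∧
          b.get x.2.1 = b.get x.2.2.2 then
        τ (star (EW u b x.2.2.1 x.2.2.2) * EW u b x.1 x.2.1) *
          τ (star (EW u b x.1 x.2.1) * EW u b x.2.2.1 x.2.2.2) else 0 := by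
    simp only [Fintype.sum_prod_type]
  rw [hconv]
  refine (norm_sum_le _ _).trans ?_
  have hterm : ∀ x : Fin b.length × Fin b.length × Fin b.length × Fin b.length,
      ‖(if x.1 < x.2.1 ∧ x.2.2.1 < x.2.2.2 ∧ b.get x.1 = b.get x.2.2.1 ∧
          b.get x.2.1 = b.get x.2.2.2 then
        τ (star (EW u b x.2.2.1 x.2.2.2) * EW u b x.1 x.2.1) *
          τ (star (EW u b x.1 x.2.1) * EW u b x.2.2.1 x.2.2.2) else 0 : ℂ)‖ ≤
      16 * ∑ p : Fin 2 × Fin 2, ∑ q : Fin 2 × Fin 2,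
        if (x.1 < x.2.1 ∧ x.2.2.1 < x.2.2.2) ∧ Wd b x.2.2.1 x.2.2.2 p = Wd b x.1 x.2.1 q
          then (1 : ℝ) else 0 := by
    rintro ⟨j, k, j', k'⟩
    simp only
    by_cases hc : j < k ∧ j' < k' ∧ b.get j = b.get j' ∧ b.get k = b.get k'
    · rw [if_pos hc]
      have hjk : j < k ∧ j' < k' := ⟨hc.1, hc.2.1⟩
      simp only [hjk, and_self, true_and]
      obtain ⟨S, hS⟩ : ∃ S : ℝ, S = ∑ p : Fin 2 × Fin 2, ∑ q : Fin 2 × Fin 2,
        if Wd b j' k' p = Wd b j k q then (1 : ℝ) else 0 := ⟨_, rfl⟩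
      have h1 := aux_tau_bound τ u hτ b hb j k j' k' hc.1 hc.2.1
      have h2 := aux_tau_bound τ u hτ b hb j' k' j k hc.2.1 hc.1
      have h3 : (∑ p : Fin 2 × Fin 2, ∑ q : Fin 2 × Fin 2,
        if Wd b j k p = Wd b j' k' q then (1 : ℝ) else 0) = S := by
        rw [hS, Finset.sum_comm]
        refine Finset.sum_congr rfl fun q _ => Finset.sum_congr rfl fun p _ => ?_
        simp only [eq_comm]
      rw [h3] at h2
      rw [← hS] at h1 ⊢
      have hS0 : 0 ≤ S := (norm_nonneg _).trans h1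
      have hS16 : S ≤ 16 := by
        rw [hS]
        calc _ ≤ ∑ p : Fin 2 × Fin 2, ∑ q : Fin 2 × Fin 2, (1 : ℝ) := by
              refine Finset.sum_le_sum fun p _ => Finset.sum_le_sum fun q _ => ?_
              split_ifs <;> norm_num
          _ = 16 := by simp; norm_num
      rw [norm_mul]
      calc _ ≤ S * S := mul_le_mul h1 h2 (norm_nonneg _) hS0
        _ ≤ 16 * S := mul_le_mul_of_nonneg_right hS16 hS0
    · rw [if_neg hc, norm_zero]
      refine mul_nonneg (by norm_num) (Finset.sum_nonneg fun p _ => Finset.sum_nonneg fun q _ => ?_)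
      split_ifs <;> norm_num
  refine (Finset.sum_le_sum fun x _ => hterm x).trans ?_
  rw [← Finset.mul_sum, Finset.sum_comm]
  have hle : (∑ p : Fin 2 × Fin 2, ∑ x : Fin b.length × Fin b.length × Fin b.length × Fin b.length,
      ∑ q : Fin 2 × Fin 2,
        if (x.1 < x.2.1 ∧ x.2.2.1 < x.2.2.2) ∧ Wd b x.2.2.1 x.2.2.2 p = Wd b x.1 x.2.1 q
          then (1 : ℝ) else 0) ≤ ∑ p : Fin 2 × Fin 2, ∑ q : Fin 2 × Fin 2, (Qc b : ℝ) := by
    refine Finset.sum_le_sum fun p _ => ?_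
    rw [Finset.sum_comm]
    refine Finset.sum_le_sum fun q _ => ?_
    rw [← Finset.natCast_card_filter]
    exact_mod_cast aux_count b p q
  have h16 : (∑ p : Fin 2 × Fin 2, ∑ q : Fin 2 × Fin 2, (Qc b : ℝ)) = 16 * Qc b := by
    simp
    ring
  rw [h16] at hle
  linarith

end Pool.Agent.Helper38.FE.FG
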