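import Pool.Agent.Helper246.FG.L1

open MeasureTheory Filter Topology ProbabilityTheory
open scoped InnerProductSpace ENNReal

namespace Pool.Agent.Helper38.FE.FG

theorem second_one {A : Type*} [Ring A] [StarRing A] [Algebra ℂ A] (τ : A →ₗ[ℂ] ℂ)
    (u : Fin 3 → A)
    (hτ : ∀ l l' : List (Fin 3), l.IsChain (· ≠ ·) → l'.IsChain (· ≠ ·) →
      τ (star (PW u l) * PW u l') = if l = l' then 1 else 0)
    (l l' : List (Fin 3)) (hl : l.IsChain (· ≠ ·)) (hl' : l'.IsChain (· ≠ ·)) :
    ‖τ (star (PW u l) * PW u l')‖ ≤ 1 := by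
  rw [hτ l l' hl hl']
  split_ifs <;> simp

theorem second_left {A : Type*} [Ring A] [StarRing A] [Algebra ℂ A] (τ : A →ₗ[ℂ] ℂ)
    (a b c d x : A) (M : ℝ) (ha : ‖τ (star a * x)‖ ≤ M) (hb : ‖τ (star b * x)‖ ≤ M)
    (hc : ‖τ (star c * x)‖ ≤ M) (hd : ‖τ (star d * x)‖ ≤ M) :
    ‖τ (star (a - b - c + d) * x)‖ ≤ 4 * M := by
  have h : τ (star (a - b - c + d) * x) =
      τ (star a * x) - τ (star b * x) - τ (star c * x) + τ (star d * x) := by
    rw [star_add, star_sub, star_sub, add_mul, sub_mul, sub_mul, map_add, map_sub, map_sub]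
  rw [h]
  calc _ ≤ ‖τ (star a * x) - τ (star b * x) - τ (star c * x)‖ + ‖τ (star d * x)‖ := norm_add_le _ _
    _ ≤ (‖τ (star a * x) - τ (star b * x)‖ + ‖τ (star c * x)‖) + ‖τ (star d * x)‖ := by
        gcongr; exact norm_sub_le _ _
    _ ≤ ((‖τ (star a * x)‖ + ‖τ (star b * x)‖) + ‖τ (star c * x)‖) + ‖τ (star d * x)‖ := by
        gcongr; exact norm_sub_le _ _
    _ ≤ 4 * M := by linarith

theorem second_right {A : Type*} [Ring A] [StarRing A] [Algebra ℂ A] (τ : A →ₗ[ℂ] ℂ)
    (a b c d x : A) (M : ℝ) (ha : ‖τ (x * a)‖ ≤ M) (hb : ‖τ (x * b)‖ ≤ M)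
    (hc : ‖τ (x * c)‖ ≤ M) (hd : ‖τ (x * d)‖ ≤ M) :
    ‖τ (x * (a - b - c + d))‖ ≤ 4 * M := by
  have h : τ (x * (a - b - c + d)) = τ (x * a) - τ (x * b) - τ (x * c) + τ (x * d) := by
    rw [mul_add, mul_sub, mul_sub, map_add, map_sub, map_sub]
  rw [h]
  calc _ ≤ ‖τ (x * a) - τ (x * b) - τ (x * c)‖ + ‖τ (x * d)‖ := norm_add_le _ _
    _ ≤ (‖τ (x * a) - τ (x * b)‖ + ‖τ (x * c)‖) + ‖τ (x * d)‖ := by
        gcongr; exact norm_sub_le _ _
    _ ≤ ((‖τ (x * a)‖ + ‖τ (x * b)‖) + ‖τ (x * c)‖) + ‖τ (x * d)‖ := by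
        gcongr; exact norm_sub_le _ _
    _ ≤ 4 * M := by linarith

theorem second_EW {A : Type*} [Ring A] [StarRing A] [Algebra ℂ A] (τ : A →ₗ[ℂ] ℂ)
    (u : Fin 3 → A)
    (hτ : ∀ l l' : List (Fin 3), l.IsChain (· ≠ ·) → l'.IsChain (· ≠ ·) →
      τ (star (PW u l) * PW u l') = if l = l' then 1 else 0)
    (b : List (Fin 3)) (hb : b.IsChain (· ≠ ·)) (j l : Fin b.length) (h : j ≤ l) :
    ‖τ (star (EW u b j l) * EW u b j l)‖ ≤ 16 := by
  have ch : ∀ m n : ℕ, ((b.take m).drop n).IsChain (· ≠ ·) := fun m n => (hb.take m).drop n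
  have key : ∃ l1 l2 l3 l4 : List (Fin 3), l1.IsChain (· ≠ ·) ∧ l2.IsChain (· ≠ ·) ∧
      l3.IsChain (· ≠ ·) ∧ l4.IsChain (· ≠ ·) ∧
      EW u b j l = PW u l1 - PW u l2 - PW u l3 + PW u l4 := by
    rcases eq_or_lt_of_le h with h | h
    · subst h
      refine ⟨[b.get j], [], [], [], by simp, by simp, by simp, by simp, ?_⟩
      rw [EW_diag]
      abel
    · exact ⟨_, _, _, _, ch _ _, ch _ _, ch _ _, ch _ _, EW_eq u b j l h⟩
  obtain ⟨l1, l2, l3, l4, h1, h2, h3, h4, hE⟩ := key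
  rw [hE]
  have hone := second_one τ u hτ
  have hr : ∀ l : List (Fin 3), l.IsChain (· ≠ ·) →
      ‖τ (star (PW u l) * (PW u l1 - PW u l2 - PW u l3 + PW u l4))‖ ≤ 4 * 1 := fun l hl =>
    second_right τ _ _ _ _ _ 1 (hone l l1 hl h1) (hone l l2 hl h2) (hone l l3 hl h3)
      (hone l l4 hl h4)
  have := second_left τ (PW u l1) (PW u l2) (PW u l3) (PW u l4)
    (PW u l1 - PW u l2 - PW u l3 + PW u l4) (4 * 1) (hr l1 h1) (hr l2 h2) (hr l3 h3) (hr l4 h4)
  linarith

/-- (L3) second order sum -/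
theorem sum_second {A : Type*} [Ring A] [StarRing A] [Algebra ℂ A] (τ : A →ₗ[ℂ] ℂ)
    (u : Fin 3 → A)
    (hτ : ∀ l l' : List (Fin 3), l.IsChain (· ≠ ·) → l'.IsChain (· ≠ ·) →
      τ (star (PW u l) * PW u l') = if l = l' then 1 else 0)
    (b : List (Fin 3)) (hb : b.IsChain (· ≠ ·)) :
    ‖∑ j, ∑ l, ∑ j', ∑ l', if j ≤ l ∧ j' ≤ l' ∧ b.get j = b.get j' ∧ b.get l = b.get l' then
      τ (star (AW u b j') * AW u b j) * τ (star (EW u b j' l') * EW u b j l) *
        τ (star (BW u b l') * BW u b l) else 0‖ ≤ 64 * (b.length : ℝ) ^ 2 := by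
  have hterm : ∀ j l j' l' : Fin b.length,
      (if j ≤ l ∧ j' ≤ l' ∧ b.get j = b.get j' ∧ b.get l = b.get l' then
        τ (star (AW u b j') * AW u b j) * τ (star (EW u b j' l') * EW u b j l) *
        τ (star (BW u b l') * BW u b l) else 0) =
      if j' = j then (if l' = l then (if j ≤ l then
        4 * τ (star (EW u b j l) * EW u b j l) else 0) else 0) else 0 := by
    intro j l j' l'
    by_cases hj : j' = j
    · subst hj
      by_cases hl : l' = l
      · subst hl
        rw [if_pos rfl, if_pos rfl]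
        by_cases hjl : j' ≤ l'
        · rw [if_pos ⟨hjl, hjl, rfl, rfl⟩, if_pos hjl, tau_AW τ u hτ b hb j' j' rfl,
            tau_BW τ u hτ b hb l' l' rfl, if_pos rfl, if_pos rfl]
          ring
        · rw [if_neg hjl, if_neg (fun h => hjl h.1)]
      · rw [if_pos rfl, if_neg hl]
        split_ifs with h
        · rw [tau_BW τ u hτ b hb l l' h.2.2.2, if_neg (fun h => hl h.symm), mul_zero]
        · rfl
    · rw [if_neg hj]
      split_ifs with h
      · rw [tau_AW τ u hτ b hb j j' h.2.2.1, if_neg (fun h => hj h.symm), zero_mul, zero_mul]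
      · rfl
  have hsum : (∑ j, ∑ l, ∑ j', ∑ l', if j ≤ l ∧ j' ≤ l' ∧ b.get j = b.get j' ∧ b.get l = b.get l' then
      τ (star (AW u b j') * AW u b j) * τ (star (EW u b j' l') * EW u b j l) *
        τ (star (BW u b l') * BW u b l) else 0) =
      ∑ j, ∑ l, if j ≤ l then 4 * τ (star (EW u b j l) * EW u b j l) else 0 := by
    apply Finset.sum_congr rfl
    intro j _
    apply Finset.sum_congr rfl
    intro l _
    calc _ = ∑ j' : Fin b.length, ∑ l' : Fin b.length,
          (if j' = j then (if l' = l then (if j ≤ l then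
          4 * τ (star (EW u b j l) * EW u b j l) else 0) else 0) else 0) := by
          apply Finset.sum_congr rfl
          intro j' _
          apply Finset.sum_congr rfl
          intro l' _
          exact hterm j l j' l'
      _ = _ := by
          rw [Finset.sum_eq_single j]
          · simp only [if_true]
            rw [Finset.sum_eq_single l]
            · simp
            · intro l' _ hl'
              rw [if_neg hl']
            · intro h; exact absurd (Finset.mem_univ _) h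
          · intro j' _ hj'
            simp [hj']
          · intro h; exact absurd (Finset.mem_univ _) h
  rw [hsum]
  refine (norm_sum_le _ _).trans ?_
  have hinner : ∀ j : Fin b.length,
      ‖∑ l, if j ≤ l then 4 * τ (star (EW u b j l) * EW u b j l) else 0‖ ≤
        ∑ l : Fin b.length, (64 : ℝ) := by
    intro j
    refine (norm_sum_le _ _).trans (Finset.sum_le_sum ?_)
    intro l _
    split_ifs with h
    · rw [norm_mul]
      have := second_EW τ u hτ b hb j l h
      have h4 : ‖(4 : ℂ)‖ = 4 := by simp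
      rw [h4]
      linarith
    · simp
  refine (Finset.sum_le_sum fun j _ => hinner j).trans ?_
  simp only [Finset.sum_const, Finset.card_univ, Fintype.card_fin, nsmul_eq_mul]
  apply le_of_eq
  ring

end Pool.Agent.Helper38.FE.FG
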