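import Pool.Agent.Helper246.FG.Defs

open MeasureTheory Filter Topology ProbabilityTheory
open scoped InnerProductSpace ENNReal

namespace Pool.Agent.Helper38.FE.FG

/-- first order sum -/
noncomputable def S1 {A : Type*} [Ring A] [StarRing A] (t : A → ℂ) (u : Fin 3 → A)
    (b : List (Fin 3)) : ℂ :=
  ∑ j, ∑ k, if b.get j = b.get k then
      t (star (AW u b k) * AW u b j) * t (star (BW u b k) * BW u b j)
        - t (BW u b j * AW u b k) * t (BW u b k * AW u b j) else 0

/-- fourth order sum -/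
noncomputable def S4 {A : Type*} [Ring A] [StarRing A] (t : A → ℂ) (u : Fin 3 → A)
    (b : List (Fin 3)) : ℂ :=
  ∑ j, ∑ k, ∑ j', ∑ k', if j < k ∧ j' < k' ∧ b.get j = b.get j' ∧ b.get k = b.get k' then
      t (star (EW u b j' k') * EW u b j k) * t (star (EW u b j k) * EW u b j' k') else 0

/-- second order sum -/
noncomputable def S2 {A : Type*} [Ring A] [StarRing A] (t : A → ℂ) (u : Fin 3 → A)
    (b : List (Fin 3)) : ℂ :=
  ∑ j, ∑ l, ∑ j', ∑ l', if j ≤ l ∧ j' ≤ l' ∧ b.get j = b.get j' ∧ b.get l = b.get l' then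
      t (star (AW u b j') * AW u b j) * t (star (EW u b j' l') * EW u b j l) *
        t (star (BW u b l') * BW u b l) else 0

variable {H : Type} [NormedAddCommGroup H] [InnerProductSpace ℂ H] [CompleteSpace H]

theorem PW_fst (S : FS (Fin 3) H) (l : List (Fin 3)) (N : ℕ) (x : EX (N + 1)) :
    (PW (UU S) l).1 N x = PW (uN (N + 1) x) l := by
  induction l with
  | nil => rfl
  | cons i l ih =>
    simp only [PW, List.map_cons, List.prod_cons] at ih ⊢
    rw [Prod.fst_mul, Pi.mul_apply, Pi.mul_apply, ih]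
    rfl

theorem PW_snd (S : FS (Fin 3) H) (l : List (Fin 3)) :
    (PW (UU S) l).2 = PW (fun i => cay (S.s i)) l := by
  induction l with
  | nil => rfl
  | cons i l ih =>
    simp only [PW, List.map_cons, List.prod_cons] at ih ⊢
    rw [Prod.snd_mul, ih]
    rfl

theorem AW_fst (S : FS (Fin 3) H) (b : List (Fin 3)) (j : Fin b.length) (N : ℕ)
    (x : EX (N + 1)) : (AW (UU S) b j).1 N x = AW (uN (N + 1) x) b j := by
  unfold AW
  rw [Prod.fst_mul, Pi.mul_apply, Pi.mul_apply, PW_fst]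
  rfl

theorem AW_snd (S : FS (Fin 3) H) (b : List (Fin 3)) (j : Fin b.length) :
    (AW (UU S) b j).2 = AW (fun i => cay (S.s i)) b j := by
  unfold AW
  rw [Prod.snd_mul, PW_snd]
  rfl

theorem BW_fst (S : FS (Fin 3) H) (b : List (Fin 3)) (j : Fin b.length) (N : ℕ)
    (x : EX (N + 1)) : (BW (UU S) b j).1 N x = BW (uN (N + 1) x) b j := by
  unfold BW
  rw [Prod.fst_mul, Pi.mul_apply, Pi.mul_apply, PW_fst]
  rfl

theorem BW_snd (S : FS (Fin 3) H) (b : List (Fin 3)) (j : Fin b.length) :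
    (BW (UU S) b j).2 = BW (fun i => cay (S.s i)) b j := by
  unfold BW
  rw [Prod.snd_mul, PW_snd]
  rfl

theorem EW_fst (S : FS (Fin 3) H) (b : List (Fin 3)) (j l : Fin b.length) (N : ℕ)
    (x : EX (N + 1)) : (EW (UU S) b j l).1 N x = EW (uN (N + 1) x) b j l := by
  unfold EW
  split_ifs
  · rfl
  · rw [Prod.fst_mul, Pi.mul_apply, Pi.mul_apply, Prod.fst_mul, Pi.mul_apply, Pi.mul_apply, PW_fst]
    rfl

theorem EW_snd (S : FS (Fin 3) H) (b : List (Fin 3)) (j l : Fin b.length) :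
    (EW (UU S) b j l).2 = EW (fun i => cay (S.s i)) b j l := by
  unfold EW
  split_ifs
  · rfl
  · rw [Prod.snd_mul, Prod.snd_mul, PW_snd]
    rfl

theorem UU_mem (S : FS (Fin 3) H) (i : Fin 3) : UU S i ∈ WA S :=
  StarAlgebra.subset_adjoin ℂ _ ⟨i, rfl⟩

theorem PW_mem (S : FS (Fin 3) H) (l : List (Fin 3)) : PW (UU S) l ∈ WA S := by
  induction l with
  | nil => exact one_mem _
  | cons i l ih =>
    simp only [PW, List.map_cons, List.prod_cons] at ih ⊢
    exact mul_mem (UU_mem S i) ih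

theorem AW_mem (S : FS (Fin 3) H) (b : List (Fin 3)) (j : Fin b.length) :
    AW (UU S) b j ∈ WA S :=
  mul_mem (PW_mem S _) (sub_mem (UU_mem S _) (one_mem _))

theorem BW_mem (S : FS (Fin 3) H) (b : List (Fin 3)) (j : Fin b.length) :
    BW (UU S) b j ∈ WA S :=
  mul_mem (sub_mem (UU_mem S _) (one_mem _)) (PW_mem S _)

theorem EW_mem (S : FS (Fin 3) H) (b : List (Fin 3)) (j l : Fin b.length) :
    EW (UU S) b j l ∈ WA S := by
  unfold EW
  split_ifs
  · exact sub_mem (UU_mem S _) (one_mem _)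
  · exact mul_mem (mul_mem (sub_mem (UU_mem S _) (one_mem _)) (PW_mem S _))
      (sub_mem (UU_mem S _) (one_mem _))

end Pool.Agent.Helper38.FE.FG
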