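import Pool.Agent.Helper246.FG.C1
import Pool.Agent.Helper246.FG.A4
import Pool.Agent.Helper246.FG.B5
import Pool.Agent.Helper246.FG.B6
import Pool.Agent.Helper246.FG.B7
import Pool.Agent.Helper246.FG.B9
import Pool.Agent.Helper246.FG.R0

open MeasureTheory Filter Topology ProbabilityTheory
open scoped InnerProductSpace ENNReal

namespace Pool.Agent.Helper38.FE.FG

theorem hs4_Fc_sneg {N : ℕ} (T : BN N) : star (-T) = - star T := star_neg T

theorem hs4_Fc_nmn {N : ℕ} (S T : BN N) : (-S) * (-T) = S * T := neg_mul_neg S T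

theorem hs4_Fc_snorm {N : ℕ} (T : BN N) : ‖star T‖ = ‖T‖ := norm_star T

theorem hs4_Fc {N : ℕ} (hN : 0 < N) (b : List (Fin 3)) (x : EX N) :
    hs4 (fderiv ℝ (Fc N b) x) ≤ 24 * (N : ℝ) ^ 2 * (S4 tr (uN N x) b).re +
      3072 * (b.length : ℝ) ^ 2 * (N : ℝ) ^ 2 := by
  classical
  have : Nonempty (Fin N) := ⟨⟨0, hN⟩⟩
  have hus : ∀ i, star (uN N x i) * uN N x i = 1 := fun i => star_cay_mul _ (Xm_sa N x i)
  have hus' : ∀ i, uN N x i * star (uN N x i) = 1 := fun i => cay_mul_star _ (Xm_sa N x i)
  set u : Fin 3 → BN N := uN N x with hu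
  set a : Fin 3 → Fin N × Fin N → BN N := fun i p =>
    ∑ j, al • (AW u b j * (if b.get j = i then Eb N p else 0) * BW u b j) with ha
  have hDW : ∀ e : Fin 3 × Fin N × Fin N,
      DW u (Xm N (EuclideanSpace.single e 1 : EX N)) b = a e.1 e.2 := by
    rintro ⟨i, p⟩
    unfold DW
    simp only [Xm_single, ha]
  have h1 : hs4 (fderiv ℝ (Fc N b) x) = ∑ e : Fin 3 × Fin N × Fin N, ∑ e' : Fin 3 × Fin N × Fin N,
      ⟪crd (a e.1 e.2 + star (a e.1 e.2)), crd (a e'.1 e'.2 + star (a e'.1 e'.2))⟫_ℝ ^ 2 := by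
    unfold hs4
    refine Finset.sum_congr rfl fun e _ => Finset.sum_congr rfl fun e' _ => ?_
    rw [fderiv_Fc, fderiv_Fc, ← hu, hDW e, hDW e']
  have h2 := gram_ineq (fun e : Fin 3 × Fin N × Fin N => a e.1 e.2)
  have h3 := hs4_gen hN (AW u b) (BW u b) (fun j => b.get j) a (fun i p => rfl)
  -- the three sums
  have hAB : ∀ j k : Fin b.length, j < k → star (AW u b k) * AW u b j = - star (EW u b j k) ∧
      BW u b j * star (BW u b k) = - EW u b j k := by
    intro j k hjk
    constructor
    · have := congrArg star (star_AW_mul_AW u hus hus' b j k hjk)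
      rwa [star_mul, star_star, hs4_Fc_sneg] at this
    · have := congrArg star (BW_mul_star_BW u hus hus' b j k hjk)
      rwa [star_mul, star_star, hs4_Fc_sneg, star_star] at this
  have hAB2 : ∀ j k : Fin b.length, k < j → star (AW u b k) * AW u b j = - EW u b k j ∧
      BW u b j * star (BW u b k) = - star (EW u b k j) := by
    intro j k hjk
    exact ⟨star_AW_mul_AW u hus hus' b k j hjk, BW_mul_star_BW u hus hus' b k j hjk⟩
  have hS1 : (∑ j, ∑ k, ∑ j', ∑ k', if j < k ∧ j' < k' ∧ b.get j = b.get j' ∧ b.get k = b.get k' then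
        (tr (star (star (AW u b k') * AW u b j') * (star (AW u b k) * AW u b j)) *
          tr (star (BW u b j' * star (BW u b k')) * (BW u b j * star (BW u b k)))).re else 0)
      = (S4 tr u b).re := by
    unfold S4
    simp only [Complex.re_sum]
    refine Finset.sum_congr rfl fun j _ => Finset.sum_congr rfl fun k _ =>
      Finset.sum_congr rfl fun j' _ => Finset.sum_congr rfl fun k' _ => ?_
    split_ifs with h
    · obtain ⟨e1, e2⟩ := hAB j k h.1
      obtain ⟨e3, e4⟩ := hAB j' k' h.2.1
      rw [e1, e2, e3, e4]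
      simp only [hs4_Fc_sneg, star_star, hs4_Fc_nmn]
      rw [tr_mul_comm (EW u b j' k') (star (EW u b j k)), mul_comm]
    · rfl
  have hS3 : (∑ j, ∑ k, ∑ j', ∑ k', if k < j ∧ k' < j' ∧ b.get j = b.get j' ∧ b.get k = b.get k' then
        (tr (star (star (AW u b k') * AW u b j') * (star (AW u b k) * AW u b j)) *
          tr (star (BW u b j' * star (BW u b k')) * (BW u b j * star (BW u b k)))).re else 0)
      = (S4 tr u b).re := by
    unfold S4
    simp only [Complex.re_sum]
    rw [Finset.sum_comm]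
    refine Finset.sum_congr rfl fun k _ => Finset.sum_congr rfl fun j _ => ?_
    rw [Finset.sum_comm]
    refine Finset.sum_congr rfl fun k' _ => Finset.sum_congr rfl fun j' _ => ?_
    by_cases h : k < j ∧ k' < j' ∧ b.get j = b.get j' ∧ b.get k = b.get k'
    · have h' : k < j ∧ k' < j' ∧ b.get k = b.get k' ∧ b.get j = b.get j' :=
        ⟨h.1, h.2.1, h.2.2.2, h.2.2.1⟩
      rw [if_pos h, if_pos h']
      obtain ⟨e1, e2⟩ := hAB2 j k h.1
      obtain ⟨e3, e4⟩ := hAB2 j' k' h.2.1
      rw [e1, e2, e3, e4]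
      simp only [hs4_Fc_sneg, star_star, hs4_Fc_nmn]
      rw [tr_mul_comm (EW u b k' j') (star (EW u b k j))]
    · have h' : ¬ (k < j ∧ k' < j' ∧ b.get k = b.get k' ∧ b.get j = b.get j') :=
        fun h' => h ⟨h'.1, h'.2.1, h'.2.2.2, h'.2.2.1⟩
      rw [if_neg h, if_neg h']
      simp
  have hnA : ∀ j, ‖AW u b j‖ ≤ 2 := fun j => norm_AW_le u hus hus' b j
  have hnB : ∀ j, ‖BW u b j‖ ≤ 2 := fun j => norm_BW_le u hus hus' b j
  have hn4 : ∀ P Q R S : BN N, ‖P‖ ≤ 2 → ‖Q‖ ≤ 2 → ‖R‖ ≤ 2 → ‖S‖ ≤ 2 →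
      ‖tr ((P * Q) * (R * S))‖ ≤ 16 := by
    intro P Q R S hP hQ hR hS
    refine (norm_tr_le _).trans ?_
    have e1 : ‖P * Q‖ ≤ 4 := by
      refine (norm_mul_le _ _).trans ?_
      nlinarith [norm_nonneg P, norm_nonneg Q]
    have e2 : ‖R * S‖ ≤ 4 := by
      refine (norm_mul_le _ _).trans ?_
      nlinarith [norm_nonneg R, norm_nonneg S]
    refine (norm_mul_le _ _).trans ?_
    nlinarith [norm_nonneg (P * Q), norm_nonneg (R * S)]
  have hS2 : (∑ j, ∑ k, ∑ j', ∑ k', if j = k ∧ j' = k' ∧ b.get j = b.get j' ∧ b.get k = b.get k' then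
        (tr (star (star (AW u b k') * AW u b j') * (star (AW u b k) * AW u b j)) *
          tr (star (BW u b j' * star (BW u b k')) * (BW u b j * star (BW u b k)))).re else 0)
      ≤ 256 * (b.length : ℝ) ^ 2 := by
    have hterm : ∀ j k j' k' : Fin b.length,
        (if j = k ∧ j' = k' ∧ b.get j = b.get j' ∧ b.get k = b.get k' then
        (tr (star (star (AW u b k') * AW u b j') * (star (AW u b k) * AW u b j)) *
          tr (star (BW u b j' * star (BW u b k')) * (BW u b j * star (BW u b k)))).re else 0)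
        ≤ if j = k then (if j' = k' then (256 : ℝ) else 0) else 0 := by
      intro j k j' k'
      by_cases h : j = k ∧ j' = k' ∧ b.get j = b.get j' ∧ b.get k = b.get k'
      · rw [if_pos h, if_pos h.1, if_pos h.2.1]
        refine (Complex.re_le_norm _).trans ?_
        rw [norm_mul]
        have e1 : ‖tr (star (star (AW u b k') * AW u b j') * (star (AW u b k) * AW u b j))‖ ≤ 16 := by
          rw [star_mul, star_star]
          exact hn4 _ _ _ _ (by rw [hs4_Fc_snorm]; exact hnA _) (hnA _)
            (by rw [hs4_Fc_snorm]; exact hnA _) (hnA _)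
        have e2 : ‖tr (star (BW u b j' * star (BW u b k')) * (BW u b j * star (BW u b k)))‖ ≤ 16 := by
          rw [star_mul, star_star]
          exact hn4 _ _ _ _ (hnB _) (by rw [hs4_Fc_snorm]; exact hnB _)
            (hnB _) (by rw [hs4_Fc_snorm]; exact hnB _)
        nlinarith [norm_nonneg (tr (star (star (AW u b k') * AW u b j') * (star (AW u b k) * AW u b j))),
          norm_nonneg (tr (star (BW u b j' * star (BW u b k')) * (BW u b j * star (BW u b k))))]
      · rw [if_neg h]
        split_ifs <;> norm_num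
    calc _ ≤ ∑ j : Fin b.length, ∑ k : Fin b.length, ∑ j' : Fin b.length, ∑ k' : Fin b.length,
          (if j = k then (if j' = k' then (256 : ℝ) else 0) else 0) :=
          Finset.sum_le_sum fun j _ => Finset.sum_le_sum fun k _ =>
            Finset.sum_le_sum fun j' _ => Finset.sum_le_sum fun k' _ => hterm j k j' k'
      _ = 256 * (b.length : ℝ) ^ 2 := by
          have e1 : ∀ j k : Fin b.length, (∑ j' : Fin b.length, ∑ k' : Fin b.length,
              (if j = k then (if j' = k' then (256 : ℝ) else 0) else 0))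
              = if j = k then 256 * (b.length : ℝ) else 0 := by
            intro j k
            split_ifs with h
            · simp
              ring
            · simp
          simp only [e1]
          simp
          ring
  rw [hS1, hS3] at h3
  have hNpos : (0 : ℝ) < N := by exact_mod_cast hN
  rw [h1]
  refine h2.trans ?_
  calc 16 * (N : ℝ) ^ 4 * ∑ e : Fin 3 × Fin N × Fin N, ∑ e' : Fin 3 × Fin N × Fin N,
        ‖tr (a e.1 e.2 * star (a e'.1 e'.2))‖ ^ 2
      ≤ 16 * (N : ℝ) ^ 4 * ((3 / 4) * (1 / (N : ℝ) ^ 2) *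
        ((S4 tr u b).re + 256 * (b.length : ℝ) ^ 2 + (S4 tr u b).re)) := by
        refine mul_le_mul_of_nonneg_left (h3.trans ?_) (by positivity)
        refine mul_le_mul_of_nonneg_left ?_ (by positivity)
        linarith
    _ = _ := by
        field_simp
        ring

end Pool.Agent.Helper38.FE.FG
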