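import Pool.Agent.Helper246.FG.R1

open MeasureTheory Filter Topology ProbabilityTheory
open scoped InnerProductSpace ENNReal

namespace Pool.Agent.Helper38.FE.FG

variable {H : Type} [NormedAddCommGroup H] [InnerProductSpace ℂ H] [CompleteSpace H]

theorem lmr_gen (S : FS (Fin 3) H) {κ : Type} [Fintype κ] (c : κ → ℂ)
    (T T' T'' : κ → Big H) (hT : ∀ q, T q ∈ WA S) (hT' : ∀ q, T' q ∈ WA S)
    (hT'' : ∀ q, T'' q ∈ WA S) (F : ∀ N : ℕ, EX (N + 1) → ℂ) (F' : ℂ)
    (hF : ∀ N x, F N x = ∑ q, c q * (tr ((T q).1 N x) * tr ((T' q).1 N x) * tr ((T'' q).1 N x)))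
    (hF' : F' = ∑ q, c q * (tau S.Ω (T q).2 * tau S.Ω (T' q).2 * tau S.Ω (T'' q).2)) :
    (∀ N : ℕ, Integrable (fun x => (F N x).re) (stdGaussian (EX (N + 1)))) ∧
    Tendsto (fun N : ℕ => ∫ x, (F N x).re ∂(stdGaussian (EX (N + 1)))) atTop (𝓝 F'.re) := by
  have h := lim_comb S Finset.univ c T T' T'' (fun q _ => hT q) (fun q _ => hT' q)
    (fun q _ => hT'' q)
  rw [hF']
  simp only [hF]
  exact h

theorem lmr_one (N : ℕ) (x : EX (N + 1)) : tr ((1 : Big H).1 N x) = 1 := by
  have : ((1 : Big H).1 N x) = (1 : BN (N + 1)) := rfl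
  rw [this]
  exact tr_one (Nat.succ_pos N)

theorem lmr_tau (S : FS (Fin 3) H) : tau S.Ω ((1 : Big H).2) = 1 := by
  have : (1 : Big H).2 = (1 : H →L[ℂ] H) := rfl
  rw [this]
  unfold tau
  have h1 : (1 : H →L[ℂ] H) S.Ω = S.Ω := rfl
  rw [h1, inner_self_eq_norm_sq_to_K, S.norm_Ω]
  simp

theorem lmr_sm (P Q : Big H) (N : ℕ) (x : EX (N + 1)) :
    (star P * Q).1 N x = star (P.1 N x) * Q.1 N x := rfl
theorem lmr_mm (P Q : Big H) (N : ℕ) (x : EX (N + 1)) :
    (P * Q).1 N x = P.1 N x * Q.1 N x := rfl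
theorem lmr_st (P : Big H) (N : ℕ) (x : EX (N + 1)) : (star P).1 N x = star (P.1 N x) := rfl
theorem lmr_st2 (P : Big H) : (star P).2 = star P.2 := rfl
theorem lmr_sm2 (P Q : Big H) : (star P * Q).2 = star P.2 * Q.2 := rfl
theorem lmr_mm2 (P Q : Big H) : (P * Q).2 = P.2 * Q.2 := rfl

theorem lim_S1 (S : FS (Fin 3) H) (b : List (Fin 3)) :
    (∀ N : ℕ, Integrable (fun x => (S1 tr (uN (N + 1) x) b).re) (stdGaussian (EX (N + 1)))) ∧
    Tendsto (fun N : ℕ => ∫ x, (S1 tr (uN (N + 1) x) b).re ∂(stdGaussian (EX (N + 1)))) atTop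
      (𝓝 (S1 (tau S.Ω) (fun i => cay (S.s i)) b).re) := by
  apply lmr_gen S (κ := Fin b.length × Fin b.length × Bool)
    (fun q => if b.get q.1 = b.get q.2.1 then (if q.2.2 then 1 else -1) else 0)
    (fun q => if q.2.2 then star (AW (UU S) b q.2.1) * AW (UU S) b q.1
      else BW (UU S) b q.1 * AW (UU S) b q.2.1)
    (fun q => if q.2.2 then star (BW (UU S) b q.2.1) * BW (UU S) b q.1
      else BW (UU S) b q.2.1 * AW (UU S) b q.1)
    (fun _ => 1)
  · intro q
    split_ifs
    · exact mul_mem (star_mem (AW_mem S b _)) (AW_mem S b _)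
    · exact mul_mem (BW_mem S b _) (AW_mem S b _)
  · intro q
    split_ifs
    · exact mul_mem (star_mem (BW_mem S b _)) (BW_mem S b _)
    · exact mul_mem (BW_mem S b _) (AW_mem S b _)
  · intro q
    exact one_mem _
  · intro N x
    unfold S1
    rw [Fintype.sum_prod_type]
    apply Finset.sum_congr rfl
    intro j _
    rw [Fintype.sum_prod_type]
    apply Finset.sum_congr rfl
    intro k _
    rw [Fintype.sum_bool]
    simp only [lmr_one, lmr_mm, lmr_st, AW_fst, BW_fst, if_true, Bool.false_eq_true, if_false,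
      mul_one]
    split_ifs <;> ring
  · unfold S1
    rw [Fintype.sum_prod_type]
    apply Finset.sum_congr rfl
    intro j _
    rw [Fintype.sum_prod_type]
    apply Finset.sum_congr rfl
    intro k _
    rw [Fintype.sum_bool]
    simp only [lmr_tau, lmr_mm2, lmr_st2, AW_snd, BW_snd, if_true, Bool.false_eq_true, if_false,
      mul_one]
    split_ifs <;> ring

theorem lim_S4 (S : FS (Fin 3) H) (b : List (Fin 3)) :
    (∀ N : ℕ, Integrable (fun x => (S4 tr (uN (N + 1) x) b).re) (stdGaussian (EX (N + 1)))) ∧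
    Tendsto (fun N : ℕ => ∫ x, (S4 tr (uN (N + 1) x) b).re ∂(stdGaussian (EX (N + 1)))) atTop
      (𝓝 (S4 (tau S.Ω) (fun i => cay (S.s i)) b).re) := by
  apply lmr_gen S (κ := Fin b.length × Fin b.length × Fin b.length × Fin b.length)
    (fun q => if q.1 < q.2.1 ∧ q.2.2.1 < q.2.2.2 ∧ b.get q.1 = b.get q.2.2.1 ∧
      b.get q.2.1 = b.get q.2.2.2 then 1 else 0)
    (fun q => star (EW (UU S) b q.2.2.1 q.2.2.2) * EW (UU S) b q.1 q.2.1)
    (fun q => star (EW (UU S) b q.1 q.2.1) * EW (UU S) b q.2.2.1 q.2.2.2)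
    (fun _ => 1)
  · intro q
    exact mul_mem (star_mem (EW_mem S b _ _)) (EW_mem S b _ _)
  · intro q
    exact mul_mem (star_mem (EW_mem S b _ _)) (EW_mem S b _ _)
  · intro q
    exact one_mem _
  · intro N x
    unfold S4
    rw [Fintype.sum_prod_type]
    apply Finset.sum_congr rfl
    intro j _
    rw [Fintype.sum_prod_type]
    apply Finset.sum_congr rfl
    intro k _
    rw [Fintype.sum_prod_type]
    apply Finset.sum_congr rfl
    intro j' _
    apply Finset.sum_congr rfl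
    intro k' _
    simp only [lmr_one, lmr_sm, EW_fst, mul_one]
    split_ifs <;> ring
  · unfold S4
    rw [Fintype.sum_prod_type]
    apply Finset.sum_congr rfl
    intro j _
    rw [Fintype.sum_prod_type]
    apply Finset.sum_congr rfl
    intro k _
    rw [Fintype.sum_prod_type]
    apply Finset.sum_congr rfl
    intro j' _
    apply Finset.sum_congr rfl
    intro k' _
    simp only [lmr_tau, lmr_sm2, EW_snd, mul_one]
    split_ifs <;> ring

theorem lim_S2 (S : FS (Fin 3) H) (b : List (Fin 3)) :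
    (∀ N : ℕ, Integrable (fun x => (S2 tr (uN (N + 1) x) b).re) (stdGaussian (EX (N + 1)))) ∧
    Tendsto (fun N : ℕ => ∫ x, (S2 tr (uN (N + 1) x) b).re ∂(stdGaussian (EX (N + 1)))) atTop
      (𝓝 (S2 (tau S.Ω) (fun i => cay (S.s i)) b).re) := by
  apply lmr_gen S (κ := Fin b.length × Fin b.length × Fin b.length × Fin b.length)
    (fun q => if q.1 ≤ q.2.1 ∧ q.2.2.1 ≤ q.2.2.2 ∧ b.get q.1 = b.get q.2.2.1 ∧
      b.get q.2.1 = b.get q.2.2.2 then 1 else 0)
    (fun q => star (AW (UU S) b q.2.2.1) * AW (UU S) b q.1)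
    (fun q => star (EW (UU S) b q.2.2.1 q.2.2.2) * EW (UU S) b q.1 q.2.1)
    (fun q => star (BW (UU S) b q.2.2.2) * BW (UU S) b q.2.1)
  · intro q
    exact mul_mem (star_mem (AW_mem S b _)) (AW_mem S b _)
  · intro q
    exact mul_mem (star_mem (EW_mem S b _ _)) (EW_mem S b _ _)
  · intro q
    exact mul_mem (star_mem (BW_mem S b _)) (BW_mem S b _)
  · intro N x
    unfold S2
    rw [Fintype.sum_prod_type]
    apply Finset.sum_congr rfl
    intro j _
    rw [Fintype.sum_prod_type]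
    apply Finset.sum_congr rfl
    intro k _
    rw [Fintype.sum_prod_type]
    apply Finset.sum_congr rfl
    intro j' _
    apply Finset.sum_congr rfl
    intro k' _
    simp only [lmr_sm, AW_fst, BW_fst, EW_fst]
    split_ifs <;> ring
  · unfold S2
    rw [Fintype.sum_prod_type]
    apply Finset.sum_congr rfl
    intro j _
    rw [Fintype.sum_prod_type]
    apply Finset.sum_congr rfl
    intro k _
    rw [Fintype.sum_prod_type]
    apply Finset.sum_congr rfl
    intro j' _
    apply Finset.sum_congr rfl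
    intro k' _
    simp only [lmr_sm2, AW_snd, BW_snd, EW_snd]
    split_ifs <;> ring

end Pool.Agent.Helper38.FE.FG
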