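import Pool.Agent.Helper246.FG.W1

open MeasureTheory Filter Topology ProbabilityTheory
open scoped InnerProductSpace ENNReal

namespace Pool.Agent.Helper38.FE.FG

theorem wc_succ {m : ℕ} (c : Fin (m+1) → Bool) :
    wc c = 0 :: (if c 0 then 1 else 2) :: wc (fun i : Fin m => c i.succ) := by
  unfold wc
  rw [List.ofFn_succ, List.flatMap_cons]
  rfl

theorem wc_get {m : ℕ} (c : Fin m → Bool) (i : ℕ) (hi : i < m) :
    (wc c)[2*i]? = some 0 ∧ (wc c)[2*i+1]? = some (if c ⟨i, hi⟩ then 1 else 2) := by
  induction m generalizing i with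
  | zero => omega
  | succ m ih =>
    rw [wc_succ]
    cases i with
    | zero =>
      constructor
      · rfl
      · rfl
    | succ i =>
      have h := ih (fun i => c i.succ) i (by omega)
      have e1 : 2*(i+1) = (2*i)+1+1 := by ring
      have e2 : 2*i+1+1+1 = (2*i+1)+1+1 := by ring
      rw [e1, e2, List.getElem?_cons_succ, List.getElem?_cons_succ, List.getElem?_cons_succ,
        List.getElem?_cons_succ]
      exact h

theorem slice_get {b : List (Fin 3)} {x x2 d : ℕ}
    (h : (b.take (x+d)).drop x = (b.take (x2+d)).drop x2) (j : ℕ) (hj : j < d) :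
    b[x+j]? = b[x2+j]? := by
  have h1 := congrArg (fun l : List (Fin 3) => l[j]?) h
  simp only [List.getElem?_drop] at h1
  rw [List.getElem?_take_of_lt (by omega), List.getElem?_take_of_lt (by omega)] at h1
  exact h1

theorem key_count_lt (m x x2 d : ℕ) (hx : x + d ≤ 2*m) (hx2 : x2 + d ≤ 2*m) (hne : x < x2) :
    (Finset.univ.filter fun c : Fin m → Bool => ((wc c).take (x+d)).drop x =
      ((wc c).take (x2+d)).drop x2).card ≤ 2^(m - d/2) := by
  by_cases hd : d = 0
  · subst hd
    refine (Finset.card_le_univ _).trans ?_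
    simp
  · by_cases hpar : x % 2 = x2 % 2
    · -- same parity
      have hpq : x / 2 < x2 / 2 := by omega
      refine (Finset.card_le_card ?_).trans (card_coincide m (x/2) (x2/2) (d/2) hpq (by omega))
      intro c hc
      rw [Finset.mem_filter] at hc ⊢
      refine ⟨Finset.mem_univ _, fun i hi => ?_⟩
      have h1 := slice_get hc.2 (2*i+1-x%2) (by omega)
      have e1 : x + (2*i+1-x%2) = 2*(x/2+i)+1 := by omega
      have e2 : x2 + (2*i+1-x%2) = 2*(x2/2+i)+1 := by omega
      rw [e1, e2, (wc_get c (x/2+i) (by omega)).2, (wc_get c (x2/2+i) (by omega)).2] at h1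
      have h2 := Option.some.inj h1
      by_cases a : c ⟨x/2+i, by omega⟩ = true
      · by_cases b : c ⟨x2/2+i, by omega⟩ = true
        · rw [a, b]
        · rw [if_pos a, if_neg b] at h2
          exact absurd h2 (by decide)
      · by_cases b : c ⟨x2/2+i, by omega⟩ = true
        · rw [if_neg a, if_pos b] at h2
          exact absurd h2 (by decide)
        · rw [Bool.eq_false_iff.2 a, Bool.eq_false_iff.2 b]
    · have hemp : (Finset.univ.filter fun c : Fin m → Bool => ((wc c).take (x+d)).drop x =
          ((wc c).take (x2+d)).drop x2) = ∅ := by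
        apply Finset.filter_eq_empty_iff.2
        intro c _ hc
        have h1 := slice_get hc 0 (by omega)
        rw [add_zero, add_zero] at h1
        by_cases hx0 : x % 2 = 0
        · have e1 : x = 2*(x/2) := by omega
          have e2 : x2 = 2*(x2/2)+1 := by omega
          rw [e1, e2, (wc_get c (x/2) (by omega)).1, (wc_get c (x2/2) (by omega)).2] at h1
          have h2 := Option.some.inj h1
          split_ifs at h2 <;> exact absurd h2 (by decide)
        · have e1 : x = 2*(x/2)+1 := by omega
          have e2 : x2 = 2*(x2/2) := by omega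
          rw [e1, e2, (wc_get c (x/2) (by omega)).2, (wc_get c (x2/2) (by omega)).1] at h1
          have h2 := Option.some.inj h1
          split_ifs at h2 <;> exact absurd h2 (by decide)
      rw [hemp, Finset.card_empty]
      exact Nat.zero_le _

theorem key_count (m x x2 d : ℕ) (hx : x + d ≤ 2*m) (hx2 : x2 + d ≤ 2*m) (hne : x ≠ x2) :
    (Finset.univ.filter fun c : Fin m → Bool => ((wc c).take (x+d)).drop x =
      ((wc c).take (x2+d)).drop x2).card ≤ 2^(m - d/2) := by
  rcases lt_or_gt_of_ne hne with h | h
  · exact key_count_lt m x x2 d hx hx2 h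
  · have h1 := key_count_lt m x2 x d hx2 hx h
    have h2 : (Finset.univ.filter fun c : Fin m → Bool => ((wc c).take (x+d)).drop x =
      ((wc c).take (x2+d)).drop x2) = (Finset.univ.filter fun c : Fin m → Bool =>
      ((wc c).take (x2+d)).drop x2 = ((wc c).take (x+d)).drop x) := by
      apply Finset.filter_congr
      intro c _
      exact eq_comm
    rw [h2]
    exact h1

theorem sum_geo (m : ℕ) : ∑ d ∈ Finset.range (2*m+1), 2^(m - d/2) ≤ 4 * 2^m := by
  induction m with
  | zero => simp
  | succ m ih =>
    have e : 2*(m+1)+1 = (2*m+1)+1+1 := by ring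
    rw [e, Finset.sum_range_succ', Finset.sum_range_succ']
    have h1 : ∑ k ∈ Finset.range (2*m+1), 2^(m+1 - (k+1+1)/2) =
        ∑ d ∈ Finset.range (2*m+1), 2^(m - d/2) := by
      apply Finset.sum_congr rfl
      intro k _
      congr 1
      omega
    rw [h1]
    have h2 : (0+1)/2 = 0 := by norm_num
    have h3 : 0/2 = 0 := by norm_num
    rw [h2, Nat.sub_zero, pow_succ]
    omega

/-- slices -/
def TT (m : ℕ) (c : Fin m → Bool) (q : ℕ × ℕ × ℕ) : Prop :=
  q.1 + q.2.2 ≤ 2*m ∧ q.2.1 + q.2.2 ≤ 2*m ∧
    ((wc c).take (q.1+q.2.2)).drop q.1 = ((wc c).take (q.2.1+q.2.2)).drop q.2.1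

instance (m : ℕ) (c : Fin m → Bool) : DecidablePred (TT m c) := fun q => by
  unfold TT; infer_instance

theorem Qc_le (m : ℕ) (c : Fin m → Bool) :
    Qc (wc c) ≤ ((Finset.range (2*m+1) ×ˢ Finset.range (2*m+1) ×ˢ
      Finset.range (2*m+1)).filter (TT m c)).card := by
  unfold Qc
  have hlen := wc_length c
  apply Finset.card_le_card_of_injOn (fun q => (q.1.val, q.2.2.1.val, q.2.1.val - q.1.val))
  · rintro ⟨x, y, x2, y2⟩ hq
    rw [Finset.mem_coe, Finset.mem_filter] at hq
    obtain ⟨_, h1, h2, h3⟩ := hq
    simp only at h1 h2 h3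
    have hx := x.2
    have hy := y.2
    have hx2 := x2.2
    have hy2 := y2.2
    have h1' : x.val ≤ y.val := h1
    have h2' : x2.val ≤ y2.val := h2
    have hl := congrArg List.length h3
    rw [List.length_drop, List.length_drop, List.length_take, List.length_take] at hl
    have hl2 : y.val - x.val = y2.val - x2.val := by omega
    rw [Finset.mem_coe, Finset.mem_filter]
    refine ⟨?_, ?_, ?_, ?_⟩
    · simp only [Finset.mem_product, Finset.mem_range]
      refine ⟨by omega, by omega, by omega⟩
    · show x.val + (y.val - x.val) ≤ 2*m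
      omega
    · show x2.val + (y.val - x.val) ≤ 2*m
      omega
    · show ((wc c).take (x.val + (y.val - x.val))).drop x.val =
        ((wc c).take (x2.val + (y.val - x.val))).drop x2.val
      have e1 : x.val + (y.val - x.val) = y.val := by omega
      have e2 : x2.val + (y.val - x.val) = y2.val := by omega
      rw [e1, e2]
      exact h3
  · rintro ⟨x, y, x2, y2⟩ hq ⟨x', y', x2', y2'⟩ hq' heq
    rw [Finset.mem_coe, Finset.mem_filter] at hq hq'
    obtain ⟨_, h1, h2, h3⟩ := hq
    obtain ⟨_, h1', h2', h3'⟩ := hq'
    simp only at h1 h2 h3 h1' h2' h3'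
    have g1 : x.val ≤ y.val := h1
    have g2 : x2.val ≤ y2.val := h2
    have g1' : x'.val ≤ y'.val := h1'
    have g2' : x2'.val ≤ y2'.val := h2'
    have hy := y.2
    have hy2 := y2.2
    have hy' := y'.2
    have hy2' := y2'.2
    have hl := congrArg List.length h3
    rw [List.length_drop, List.length_drop, List.length_take, List.length_take] at hl
    have hl' := congrArg List.length h3'
    rw [List.length_drop, List.length_drop, List.length_take, List.length_take] at hl'
    simp only [Prod.mk.injEq] at heq
    obtain ⟨a1, a2, a3⟩ := heq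
    simp only [Prod.mk.injEq]
    refine ⟨Fin.ext (by omega), Fin.ext (by omega), Fin.ext (by omega), Fin.ext (by omega)⟩

theorem exists_word : ∃ CQ : ℕ, ∀ m : ℕ, 1 ≤ m → ∃ b : List (Fin 3), b.length = 2 * m ∧
    b.IsChain (· ≠ ·) ∧ (∀ h : b ≠ [], b.getLast h ≠ b.head h) ∧ Qc b ≤ CQ * m ^ 2 := by
  classical
  refine ⟨45, ?_⟩
  intro m hm
  set R := Finset.range (2*m+1) with hR
  have hcardR : R.card = 2*m+1 := Finset.card_range _
  have htot : ∑ c : Fin m → Bool, Qc (wc c) ≤ ∑ _c : Fin m → Bool, 45 * m^2 := by
    calc ∑ c : Fin m → Bool, Qc (wc c) ≤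
        ∑ c : Fin m → Bool, ((R ×ˢ R ×ˢ R).filter (TT m c)).card :=
          Finset.sum_le_sum fun c _ => Qc_le m c
      _ = ∑ c : Fin m → Bool, ∑ q ∈ R ×ˢ R ×ˢ R, (if TT m c q then 1 else 0) := by
          apply Finset.sum_congr rfl
          intro c _
          rw [Finset.card_filter]
      _ = ∑ q ∈ R ×ˢ R ×ˢ R, ∑ c : Fin m → Bool, (if TT m c q then 1 else 0) :=
          Finset.sum_comm
      _ = ∑ q ∈ R ×ˢ R ×ˢ R, (Finset.univ.filter fun c : Fin m → Bool => TT m c q).card := by
          apply Finset.sum_congr rfl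
          intro q _
          rw [Finset.card_filter]
      _ ≤ ∑ q ∈ R ×ˢ R ×ˢ R, ((if q.1 = q.2.1 then 2^m else 0) + 2^(m - q.2.2/2)) := by
          apply Finset.sum_le_sum
          rintro ⟨x, x2, d⟩ _
          by_cases hxx : x = x2
          · rw [if_pos hxx]
            refine ((Finset.card_le_univ _).trans (le_of_eq ?_)).trans (Nat.le_add_right _ _)
            simp
          · rw [if_neg hxx, zero_add]
            by_cases hle : x + d ≤ 2*m ∧ x2 + d ≤ 2*m
            · refine (Finset.card_le_card ?_).trans (key_count m x x2 d hle.1 hle.2 hxx)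
              intro c hc
              rw [Finset.mem_filter] at hc ⊢
              exact ⟨Finset.mem_univ _, hc.2.2.2⟩
            · have hemp : (Finset.univ.filter fun c : Fin m → Bool => TT m c (x, x2, d)) = ∅ := by
                apply Finset.filter_eq_empty_iff.2
                intro c _ hc
                exact hle ⟨hc.1, hc.2.1⟩
              rw [hemp, Finset.card_empty]
              exact Nat.zero_le _
      _ = ∑ x ∈ R, ∑ x2 ∈ R, ∑ d ∈ R, ((if x = x2 then 2^m else 0) + 2^(m - d/2)) := by
          rw [Finset.sum_product]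
          apply Finset.sum_congr rfl
          intro x _
          rw [Finset.sum_product]
      _ ≤ 5 * (2*m+1)^2 * 2^m := by
          have hg := sum_geo m
          rw [← hR] at hg
          have hin : ∀ x ∈ R, ∑ x2 ∈ R, ∑ d ∈ R, ((if x = x2 then 2^m else 0) + 2^(m - d/2)) ≤
              (2*m+1) * 2^m + (2*m+1) * (4 * 2^m) := by
            intro x hx
            have h1 : ∀ x2 ∈ R, ∑ d ∈ R, ((if x = x2 then 2^m else 0) + 2^(m - d/2)) ≤
                (if x = x2 then (2*m+1) * 2^m else 0) + 4 * 2^m := by
              intro x2 _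
              rw [Finset.sum_add_distrib, Finset.sum_const, hcardR, smul_eq_mul]
              apply Nat.add_le_add _ hg
              split_ifs
              · exact le_rfl
              · simp
            refine (Finset.sum_le_sum h1).trans ?_
            rw [Finset.sum_add_distrib, Finset.sum_ite_eq, if_pos hx, Finset.sum_const, hcardR,
              smul_eq_mul]
          refine (Finset.sum_le_sum hin).trans (le_of_eq ?_)
          rw [Finset.sum_const, hcardR, smul_eq_mul]
          ring
      _ ≤ ∑ _c : Fin m → Bool, 45 * m^2 := by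
          rw [Finset.sum_const, Finset.card_univ, smul_eq_mul]
          have h1 : Fintype.card (Fin m → Bool) = 2^m := by simp
          rw [h1, mul_comm]
          apply Nat.mul_le_mul_left
          have h2 : (2*m+1)^2 ≤ (3*m)^2 := Nat.pow_le_pow_left (by omega) 2
          have h3 : (3*m)^2 = 9 * m^2 := by ring
          omega
  obtain ⟨c, _, hc⟩ := Finset.exists_le_of_sum_le Finset.univ_nonempty htot
  exact ⟨wc c, wc_length c, wc_chain c, wc_ends c, hc⟩

end Pool.Agent.Helper38.FE.FG
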