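import Pool.Agent.Helper246.FG.M1
import Pool.Agent.Helper246.FG.M4
import Pool.Agent.Helper246.FG.R2
import Pool.Agent.Helper246.FG.FG1
import Pool.Agent.Helper246.FG.F3
import Pool.Agent.Helper246.FG.W2
import Pool.Agent.Helper246.FG.L21
import Pool.Agent.Helper246.FG.L22
import Pool.Agent.Helper246.FG.L23

open MeasureTheory Filter Topology ProbabilityTheory
open scoped InnerProductSpace ENNReal

namespace Pool.Agent.Helper38.FE.FG

variable {H : Type} [NormedAddCommGroup H] [InnerProductSpace ℂ H] [CompleteSpace H]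

/-- `τ` as a linear map -/
noncomputable def tauL (Ω : H) : (H →L[ℂ] H) →ₗ[ℂ] ℂ where
  toFun := tau Ω
  map_add' a b := by simp [tau]
  map_smul' c a := by simp [tau]

theorem hs4_nonneg {N : ℕ} (b : List (Fin 3)) (x : EX N) : 0 ≤ hs4 (fderiv ℝ (Fc N b) x) :=
  Finset.sum_nonneg fun _ _ => Finset.sum_nonneg fun _ _ => sq_nonneg _

theorem hs2_nonneg {N : ℕ} (b : List (Fin 3)) (x : EX N) :
    0 ≤ hs2 (fderiv ℝ (fderiv ℝ (Fc N b)) x) :=
  Finset.sum_nonneg fun _ _ => Finset.sum_nonneg fun _ _ => sq_nonneg _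

/-- FG2, given a Fock system. -/
theorem words_good_of (S : FS (Fin 3) H) : ∃ C4 CD Cb : ℝ, 0 < C4 ∧ 0 < CD ∧ 0 < Cb ∧
    ∀ m : ℕ, 1 ≤ m →
    ∃ b : List (Fin 3), b.length = 2 * m ∧ ∀ᶠ N : ℕ in atTop, ∃ β : ℝ,
      (m : ℝ) ≤ β ∧ β ≤ Cb * m ∧
      ∫ x, hs (fderiv ℝ (Fc (N + 1) b) x)
        ∂(stdGaussian (EuclideanSpace ℝ (Fin 3 × Fin (N + 1) × Fin (N + 1)))) =
        β * ((N : ℝ) + 1) ^ 2 ∧
      ∫ x, hs4 (fderiv ℝ (Fc (N + 1) b) x)
        ∂(stdGaussian (EuclideanSpace ℝ (Fin 3 × Fin (N + 1) × Fin (N + 1)))) ≤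
        C4 * β ^ 2 * ((N : ℝ) + 1) ^ 2 ∧
      ∫ x, hs2 (fderiv ℝ (fderiv ℝ (Fc (N + 1) b)) x)
        ∂(stdGaussian (EuclideanSpace ℝ (Fin 3 × Fin (N + 1) × Fin (N + 1)))) ≤
        CD * β ^ 2 * ((N : ℝ) + 1) ^ 2 := by
  obtain ⟨CQ, hCQ⟩ := exists_word
  refine ⟨24 * (256 * CQ + 1) + 12288, 1028, 9, by positivity, by norm_num, by norm_num, ?_⟩
  intro m hm
  obtain ⟨b, hbl, hb, hb', hQ⟩ := hCQ m hm
  refine ⟨b, hbl, ?_⟩
  have hm1 : (1 : ℝ) ≤ m := by exact_mod_cast hm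
  have hm2 : (1 : ℝ) ≤ (m : ℝ) ^ 2 := by nlinarith
  have hQ' : (Qc b : ℝ) ≤ CQ * (m : ℝ) ^ 2 := by exact_mod_cast hQ
  have hbl' : (b.length : ℝ) = 2 * m := by exact_mod_cast congrArg (Nat.cast (R := ℝ)) hbl
  have hτ : ∀ l l' : List (Fin 3), l.IsChain (· ≠ ·) → l'.IsChain (· ≠ ·) →
      tauL S.Ω (star (PW (fun i => cay (S.s i)) l) * PW (fun i => cay (S.s i)) l') =
        if l = l' then 1 else 0 := fun l l' h h' => fock_ortho S l l' h h'
  have e1 : (S1 (tau S.Ω) (fun i => cay (S.s i)) b).re = 8 * m := by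
    have := sum_first (tauL S.Ω) (fun i => cay (S.s i)) hτ b hb hb'
    have h2 : S1 (tau S.Ω) (fun i => cay (S.s i)) b = 4 * (b.length : ℂ) := this
    rw [h2, hbl]
    push_cast
    simp
    ring
  have e4 : (S4 (tau S.Ω) (fun i => cay (S.s i)) b).re ≤ 256 * (CQ * (m : ℝ) ^ 2) := by
    have := sum_fourth (tauL S.Ω) (fun i => cay (S.s i)) hτ b hb
    have h2 : ‖S4 (tau S.Ω) (fun i => cay (S.s i)) b‖ ≤ 256 * (Qc b : ℝ) := this
    have h3 := Complex.re_le_norm (S4 (tau S.Ω) (fun i => cay (S.s i)) b)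
    nlinarith
  have e2 : (S2 (tau S.Ω) (fun i => cay (S.s i)) b).re ≤ 256 * (m : ℝ) ^ 2 := by
    have := sum_second (tauL S.Ω) (fun i => cay (S.s i)) hτ b hb
    have h2 : ‖S2 (tau S.Ω) (fun i => cay (S.s i)) b‖ ≤ 64 * (b.length : ℝ) ^ 2 := this
    have h3 := Complex.re_le_norm (S2 (tau S.Ω) (fun i => cay (S.s i)) b)
    rw [hbl'] at h2
    nlinarith
  obtain ⟨i1, l1⟩ := lim_S1 S b
  obtain ⟨i4, l4⟩ := lim_S4 S b
  obtain ⟨i2, l2⟩ := lim_S2 S b
  rw [e1] at l1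
  have ev1 := l1.eventually (Ioo_mem_nhds (show (8 * m : ℝ) - 1 < 8 * m by linarith)
    (show (8 * m : ℝ) < 8 * m + 1 by linarith))
  have ev4 := l4.eventually (Iio_mem_nhds
    (show (S4 (tau S.Ω) (fun i => cay (S.s i)) b).re < 256 * (CQ * (m : ℝ) ^ 2) + 1 by linarith))
  have ev2 := l2.eventually (Iio_mem_nhds
    (show (S2 (tau S.Ω) (fun i => cay (S.s i)) b).re < 256 * (m : ℝ) ^ 2 + 1 by linarith))
  filter_upwards [ev1, ev4, ev2] with N h1 h4 h2
  set β : ℝ := ∫ x, (S1 tr (uN (N + 1) x) b).re ∂(stdGaussian (EX (N + 1))) with hβ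
  have hN : 0 < N + 1 := Nat.succ_pos N
  have hβ1 : (m : ℝ) ≤ β := by
    have : (8 * m : ℝ) - 1 < β := h1.1
    linarith
  have hβ2 : β ≤ 9 * m := by
    have : β < (8 * m : ℝ) + 1 := h1.2
    linarith
  have hββ : (m : ℝ) ^ 2 ≤ β ^ 2 := by nlinarith
  refine ⟨β, hβ1, hβ2, ?_, ?_, ?_⟩
  · have : ∀ x : EX (N + 1), hs (fderiv ℝ (Fc (N + 1) b) x) =
        ((N : ℝ) + 1) ^ 2 * (S1 tr (uN (N + 1) x) b).re := by
      intro x
      rw [hs_Fc hN b x]
      push_cast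
      rfl
    simp_rw [this]
    rw [integral_const_mul, mul_comm]
  · have hb4 : ∀ x : EX (N + 1), hs4 (fderiv ℝ (Fc (N + 1) b) x) ≤
        24 * ((N : ℝ) + 1) ^ 2 * (S4 tr (uN (N + 1) x) b).re +
          3072 * (b.length : ℝ) ^ 2 * ((N : ℝ) + 1) ^ 2 := by
      intro x
      have := hs4_Fc hN b x
      push_cast at this
      exact this
    have hint : Integrable (fun x : EX (N + 1) =>
        24 * ((N : ℝ) + 1) ^ 2 * (S4 tr (uN (N + 1) x) b).re +
          3072 * (b.length : ℝ) ^ 2 * ((N : ℝ) + 1) ^ 2) (stdGaussian (EX (N + 1))) :=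
      ((i4 N).const_mul _).add (integrable_const _)
    have hle := integral_mono_of_nonneg (μ := stdGaussian (EX (N + 1)))
      (Eventually.of_forall fun x => hs4_nonneg b x) hint (Eventually.of_forall hb4)
    refine hle.trans ?_
    rw [integral_add ((i4 N).const_mul _) (integrable_const _), integral_const_mul]
    simp only [integral_const, probReal_univ, smul_eq_mul, one_mul]
    have hpos : 0 ≤ ((N : ℝ) + 1) ^ 2 := by positivity
    have h4' : ∫ x, (S4 tr (uN (N + 1) x) b).re ∂(stdGaussian (EX (N + 1))) ≤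
        256 * (CQ * (m : ℝ) ^ 2) + 1 := le_of_lt h4
    have key : 24 * (∫ x, (S4 tr (uN (N + 1) x) b).re ∂(stdGaussian (EX (N + 1)))) +
        3072 * (b.length : ℝ) ^ 2 ≤ (24 * (256 * CQ + 1) + 12288) * β ^ 2 := by
      rw [hbl']
      have hCQ0 : (0 : ℝ) ≤ CQ := Nat.cast_nonneg _
      nlinarith [mul_le_mul_of_nonneg_left hββ hCQ0]
    nlinarith
  · have hb2 : ∀ x : EX (N + 1), hs2 (fderiv ℝ (fderiv ℝ (Fc (N + 1) b)) x) ≤
        4 * ((N : ℝ) + 1) ^ 2 * (S2 tr (uN (N + 1) x) b).re := by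
      intro x
      have := hs2_Fc hN b x
      push_cast at this
      exact this
    have hle := integral_mono_of_nonneg (μ := stdGaussian (EX (N + 1)))
      (Eventually.of_forall fun x => hs2_nonneg b x) ((i2 N).const_mul _)
      (Eventually.of_forall hb2)
    refine hle.trans ?_
    rw [integral_const_mul]
    have hpos : 0 ≤ ((N : ℝ) + 1) ^ 2 := by positivity
    have h2' : ∫ x, (S2 tr (uN (N + 1) x) b).re ∂(stdGaussian (EX (N + 1))) ≤
        256 * (m : ℝ) ^ 2 + 1 := le_of_lt h2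
    have key : 4 * (∫ x, (S2 tr (uN (N + 1) x) b).re ∂(stdGaussian (EX (N + 1)))) ≤
        1028 * β ^ 2 := by nlinarith
    nlinarith

end Pool.Agent.Helper38.FE.FG
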