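import Pool.Agent.Helper246.FG.C1

open MeasureTheory Filter Topology ProbabilityTheory
open scoped InnerProductSpace ENNReal

namespace Pool.Agent.Helper38.FE.FG

variable {H : Type} [NormedAddCommGroup H] [InnerProductSpace ℂ H] [CompleteSpace H]

theorem norm_cay_le {N : ℕ} (s : BN (N + 1)) (hs : IsSelfAdjoint s) : ‖cay s‖ ≤ 1 := by
  have h := star_cay_mul s hs
  have h2 : ‖cay s‖ * ‖cay s‖ = 1 := by rw [← CStarRing.norm_star_mul_self, h, norm_one]
  nlinarith [norm_nonneg (cay s)]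

theorem WA_cont (S : FS (Fin 3) H) (T : Big H) (hT : T ∈ WA S) (N : ℕ) :
    Continuous (T.1 N) := by
  change T ∈ StarAlgebra.adjoin ℂ (Set.range (UU S)) at hT
  induction hT using StarAlgebra.adjoin_induction with
  | mem x hx =>
    obtain ⟨i, rfl⟩ := hx
    obtain ⟨L, hL⟩ := exists_XmL (N + 1)
    have h := (contDiff_cay (L i) (fun x => by rw [hL]; exact Xm_sa _ _ _) 0).continuous
    simpa [UU, uN, hL] using h
  | algebraMap r => exact continuous_const
  | add x y _ _ hx hy => exact hx.add hy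
  | mul x y _ _ hx hy => exact hx.mul hy
  | star x _ hx => exact (ContinuousLinearMap.adjoint (𝕜 := ℂ)).continuous.comp hx

theorem WA_bdd (S : FS (Fin 3) H) (T : Big H) (hT : T ∈ WA S) (N : ℕ) :
    ∃ K : ℝ, ∀ x, ‖T.1 N x‖ ≤ K := by
  change T ∈ StarAlgebra.adjoin ℂ (Set.range (UU S)) at hT
  induction hT using StarAlgebra.adjoin_induction with
  | mem x hx =>
    obtain ⟨i, rfl⟩ := hx
    exact ⟨1, fun x => norm_cay_le _ (Xm_sa _ _ _)⟩
  | algebraMap r => exact ⟨‖algebraMap ℂ (BN (N + 1)) r‖, fun x => le_refl _⟩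
  | add x y _ _ hx hy =>
    obtain ⟨K, hK⟩ := hx
    obtain ⟨K', hK'⟩ := hy
    exact ⟨K + K', fun z => (norm_add_le _ _).trans (add_le_add (hK z) (hK' z))⟩
  | mul x y _ _ hx hy =>
    obtain ⟨K, hK⟩ := hx
    obtain ⟨K', hK'⟩ := hy
    exact ⟨K * K', fun z => (norm_mul_le _ _).trans
      (mul_le_mul (hK z) (hK' z) (norm_nonneg _) ((norm_nonneg _).trans (hK z)))⟩
  | star x _ hx =>
    obtain ⟨K, hK⟩ := hx
    exact ⟨K, fun z => by
      have : ‖ContinuousLinearMap.adjoint (x.1 N z)‖ ≤ K := by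
        rw [LinearIsometryEquiv.norm_map]; exact hK z
      exact this⟩

theorem tr_cont {N : ℕ} : Continuous (tr : BN N → ℂ) := by
  have := ((⟨⟨tr, tr_add⟩, fun c T => by simpa using tr_smul c T⟩ : BN N →ₗ[ℂ] ℂ).mkContinuous 1
    (fun T => by simpa using norm_tr_le T)).continuous
  exact this

theorem WA_int (S : FS (Fin 3) H) (T T' T'' : Big H) (hT : T ∈ WA S) (hT' : T' ∈ WA S)
    (hT'' : T'' ∈ WA S) (N : ℕ) :
    Integrable (fun x => tr (T.1 N x) * tr (T'.1 N x) * tr (T''.1 N x))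
      (stdGaussian (EX (N + 1))) := by
  obtain ⟨K, hK⟩ := WA_bdd S T hT N
  obtain ⟨K', hK'⟩ := WA_bdd S T' hT' N
  obtain ⟨K'', hK''⟩ := WA_bdd S T'' hT'' N
  have hK1 : ∀ x, ‖tr (T.1 N x)‖ ≤ |K| := fun x =>
    (norm_tr_le _).trans ((hK x).trans (le_abs_self _))
  have hK2 : ∀ x, ‖tr (T'.1 N x)‖ ≤ |K'| := fun x =>
    (norm_tr_le _).trans ((hK' x).trans (le_abs_self _))
  have hK3 : ∀ x, ‖tr (T''.1 N x)‖ ≤ |K''| := fun x =>
    (norm_tr_le _).trans ((hK'' x).trans (le_abs_self _))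
  refine Integrable.of_bound ?_ (|K| * |K'| * |K''|) (Eventually.of_forall fun x => ?_)
  · exact ((((tr_cont.comp (WA_cont S T hT N))).mul ((tr_cont.comp (WA_cont S T' hT' N)))).mul
      ((tr_cont.comp (WA_cont S T'' hT'' N)))).aestronglyMeasurable
  · rw [norm_mul, norm_mul]
    exact mul_le_mul (mul_le_mul (hK1 x) (hK2 x) (norm_nonneg _) (abs_nonneg _)) (hK3 x)
      (norm_nonneg _) (by positivity)

/-- the limit statement -/
def PL (S : FS (Fin 3) H) (T T' T'' : Big H) : Prop :=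
    Tendsto (fun N : ℕ => ∫ x, tr (T.1 N x) * tr (T'.1 N x) * tr (T''.1 N x)
      ∂(stdGaussian (EX (N + 1)))) atTop
      (𝓝 (tau S.Ω T.2 * tau S.Ω T'.2 * tau S.Ω T''.2))

theorem PL_rot (S : FS (Fin 3) H) (T T' T'' : Big H) (h : PL S T T' T'') : PL S T' T'' T := by
  unfold PL at *
  have e1 : (fun N : ℕ => ∫ x, tr (T'.1 N x) * tr (T''.1 N x) * tr (T.1 N x)
      ∂(stdGaussian (EX (N + 1)))) = (fun N : ℕ => ∫ x, tr (T.1 N x) * tr (T'.1 N x) *
      tr (T''.1 N x) ∂(stdGaussian (EX (N + 1)))) := by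
    funext N
    congr 1
    funext x
    ring
  rw [e1]
  have e2 : tau S.Ω T'.2 * tau S.Ω T''.2 * tau S.Ω T.2 =
      tau S.Ω T.2 * tau S.Ω T'.2 * tau S.Ω T''.2 := by ring
  rw [e2]
  exact h

theorem PL_add (S : FS (Fin 3) H) (T U T' T'' : Big H) (hT : T ∈ WA S) (hU : U ∈ WA S)
    (hT' : T' ∈ WA S) (hT'' : T'' ∈ WA S) (h1 : PL S T T' T'') (h2 : PL S U T' T'') :
    PL S (T + U) T' T'' := by
  unfold PL at *
  have e1 : (fun N : ℕ => ∫ x, tr ((T + U).1 N x) * tr (T'.1 N x) * tr (T''.1 N x)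
      ∂(stdGaussian (EX (N + 1)))) = (fun N : ℕ => (∫ x, tr (T.1 N x) * tr (T'.1 N x) *
      tr (T''.1 N x) ∂(stdGaussian (EX (N + 1)))) + ∫ x, tr (U.1 N x) * tr (T'.1 N x) *
      tr (T''.1 N x) ∂(stdGaussian (EX (N + 1)))) := by
    funext N
    rw [← integral_add (WA_int S T T' T'' hT hT' hT'' N) (WA_int S U T' T'' hU hT' hT'' N)]
    congr 1
    funext x
    have : (T + U).1 N x = T.1 N x + U.1 N x := rfl
    rw [this, tr_add]
    ring
  rw [e1]
  have e2 : tau S.Ω (T + U).2 * tau S.Ω T'.2 * tau S.Ω T''.2 =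
      tau S.Ω T.2 * tau S.Ω T'.2 * tau S.Ω T''.2 + tau S.Ω U.2 * tau S.Ω T'.2 * tau S.Ω T''.2 := by
    have : tau S.Ω (T + U).2 = tau S.Ω T.2 + tau S.Ω U.2 := by
      simp [tau, inner_add_right]
    rw [this]; ring
  rw [e2]
  exact h1.add h2

theorem PL_smul (S : FS (Fin 3) H) (c : ℂ) (T T' T'' : Big H) (h1 : PL S T T' T'') :
    PL S (c • T) T' T'' := by
  unfold PL at *
  have e1 : (fun N : ℕ => ∫ x, tr ((c • T).1 N x) * tr (T'.1 N x) * tr (T''.1 N x)
      ∂(stdGaussian (EX (N + 1)))) = (fun N : ℕ => c * (∫ x, tr (T.1 N x) * tr (T'.1 N x) *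
      tr (T''.1 N x) ∂(stdGaussian (EX (N + 1))))) := by
    funext N
    rw [← integral_const_mul]
    congr 1
    funext x
    have : (c • T).1 N x = c • T.1 N x := rfl
    rw [this, tr_smul]
    ring
  rw [e1]
  have e2 : tau S.Ω (c • T).2 * tau S.Ω T'.2 * tau S.Ω T''.2 =
      c * (tau S.Ω T.2 * tau S.Ω T'.2 * tau S.Ω T''.2) := by
    have : tau S.Ω (c • T).2 = c * tau S.Ω T.2 := by
      simp [tau, inner_smul_right]
    rw [this]; ring
  rw [e2]
  exact h1.const_mul c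

theorem PL_zero (S : FS (Fin 3) H) (T' T'' : Big H) :
    PL S 0 T' T'' := by
  unfold PL
  have e1 : (fun N : ℕ => ∫ x, tr ((0 : Big H).1 N x) * tr (T'.1 N x) * tr (T''.1 N x)
      ∂(stdGaussian (EX (N + 1)))) = (fun N : ℕ => (0 : ℂ)) := by
    funext N
    have : ∀ x, (0 : Big H).1 N x = 0 := fun x => rfl
    simp [this, tr_zero]
  rw [e1]
  have e2 : tau S.Ω (0 : Big H).2 * tau S.Ω T'.2 * tau S.Ω T''.2 = 0 := by
    simp [tau]
  rw [e2]
  exact tendsto_const_nhds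

/-- monomials -/
noncomputable def MM (S : FS (Fin 3) H) : Submonoid (Big H) :=
  Submonoid.closure (Set.range (UU S) ∪ star (Set.range (UU S)))

theorem MM_sub (S : FS (Fin 3) H) (T : Big H) (hT : T ∈ MM S) : T ∈ WA S := by
  have : (T ∈ Subalgebra.toSubmodule (StarAlgebra.adjoin ℂ (Set.range (UU S))).toSubalgebra) := by
    rw [StarAlgebra.adjoin_eq_span]
    exact Submodule.subset_span hT
  exact this

theorem ext1 (S : FS (Fin 3) H) (T' T'' : Big H) (hT' : T' ∈ WA S) (hT'' : T'' ∈ WA S)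
    (h : ∀ T ∈ MM S, PL S T T' T'') (T : Big H) (hT : T ∈ WA S) : PL S T T' T'' := by
  have hT2 : (T ∈ Subalgebra.toSubmodule
      (StarAlgebra.adjoin ℂ (Set.range (UU S))).toSubalgebra) := hT
  rw [StarAlgebra.adjoin_eq_span] at hT2
  have key : ∀ x : Big H, x ∈ Submodule.span ℂ
      (Submonoid.closure (Set.range (UU S) ∪ star (Set.range (UU S))) : Set (Big H)) →
      x ∈ WA S := by
    intro x hx
    have e := StarAlgebra.adjoin_eq_span (R := ℂ) (Set.range (UU S))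
    have : (x ∈ Subalgebra.toSubmodule (StarAlgebra.adjoin ℂ (Set.range (UU S))).toSubalgebra) := by
      rw [e]; exact hx
    exact this
  induction hT2 using Submodule.span_induction with
  | mem x hx => exact h x hx
  | zero => exact PL_zero S T' T''
  | add x y hx hy hx' hy' =>
    exact PL_add S x y T' T'' (key x hx) (key y hy) hT' hT'' (hx' (key x hx)) (hy' (key y hy))
  | smul c x hx hx' => exact PL_smul S c x T' T'' (hx' (key x hx))

theorem MM_word (S : FS (Fin 3) H) (T : Big H) (hT : T ∈ MM S) :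
    ∃ w : List (Lt (Fin 3)), (∀ a ∈ w, isU a) ∧
      T = ((fun N x => evW (Xm (N + 1) x) w), evW S.s w) := by
  unfold MM at hT
  induction hT using Submonoid.closure_induction with
  | mem x hx =>
    rcases hx with hx | hx
    · obtain ⟨i, rfl⟩ := hx
      refine ⟨[Lt.U i], by simp [isU], ?_⟩
      simp only [evW, evL, List.map_cons, List.map_nil, List.prod_cons, List.prod_nil, mul_one]
      rfl
    · obtain ⟨i, hi⟩ := hx
      have hx2 : x = star (UU S i) := by rw [hi, star_star]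
      subst hx2
      refine ⟨[Lt.V i], by simp [isU], ?_⟩
      simp only [evW, evL, List.map_cons, List.map_nil, List.prod_cons, List.prod_nil, mul_one]
      rfl
  | one =>
    refine ⟨[], by simp, ?_⟩
    simp only [evW, List.map_nil, List.prod_nil]
    rfl
  | mul x y _ _ hx hy =>
    obtain ⟨w, hw, rfl⟩ := hx
    obtain ⟨w', hw', rfl⟩ := hy
    refine ⟨w ++ w', ?_, ?_⟩
    · intro a ha
      rcases List.mem_append.1 ha with h | h
      · exact hw a h
      · exact hw' a h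
    · simp only [evW, List.map_append, List.prod_append]
      rfl

theorem PL_MM (S : FS (Fin 3) H) (T T' T'' : Big H) (hT : T ∈ MM S) (hT' : T' ∈ MM S)
    (hT'' : T'' ∈ MM S) : PL S T T' T'' := by
  obtain ⟨w, hw, rfl⟩ := MM_word S T hT
  obtain ⟨w', hw', rfl⟩ := MM_word S T' hT'
  obtain ⟨w'', hw'', rfl⟩ := MM_word S T'' hT''
  exact gue_conv3 S w w' w'' hw hw' hw''

theorem WA_lim3 (S : FS (Fin 3) H) (T T' T'' : Big H) (hT : T ∈ WA S) (hT' : T' ∈ WA S)
    (hT'' : T'' ∈ WA S) :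
    Tendsto (fun N : ℕ => ∫ x, tr (T.1 N x) * tr (T'.1 N x) * tr (T''.1 N x)
      ∂(stdGaussian (EX (N + 1)))) atTop
      (𝓝 (tau S.Ω T.2 * tau S.Ω T'.2 * tau S.Ω T''.2)) := by
  have h1 : ∀ T' ∈ MM S, ∀ T'' ∈ MM S, ∀ T ∈ WA S, PL S T T' T'' := fun T' hT' T'' hT'' T hT =>
    ext1 S T' T'' (MM_sub S T' hT') (MM_sub S T'' hT'')
      (fun T hT => PL_MM S T T' T'' hT hT' hT'') T hT
  have h2 : ∀ T'' ∈ MM S, ∀ T ∈ WA S, ∀ T' ∈ WA S, PL S T' T'' T := fun T'' hT'' T hT T' hT' =>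
    ext1 S T'' T (MM_sub S T'' hT'') hT
      (fun T' hT' => PL_rot S T T' T'' (h1 T' hT' T'' hT'' T hT)) T' hT'
  have h3 : PL S T'' T T' :=
    ext1 S T T' hT hT' (fun T'' hT'' => PL_rot S T' T'' T (h2 T'' hT'' T hT T' hT')) T'' hT''
  exact PL_rot S T'' T T' h3

end Pool.Agent.Helper38.FE.FG
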