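import Pool.Agent.Helper246.FG.W1

open MeasureTheory Filter Topology ProbabilityTheory
open scoped InnerProductSpace ENNReal

namespace Pool.Agent.Helper38.FE.FG

theorem fg1_PW_append {A : Type*} [Ring A] (u : Fin 3 → A) (l l' : List (Fin 3)) :
    PW u (l ++ l') = PW u l * PW u l' := by
  simp [PW]

theorem fg1_PW_cons {A : Type*} [Ring A] (u : Fin 3 → A) (a : Fin 3) (l : List (Fin 3)) :
    PW u (a :: l) = u a * PW u l := by
  simp [PW]

theorem fg1_PW_nil {A : Type*} [Ring A] (u : Fin 3 → A) : PW u [] = 1 := by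
  simp [PW]

theorem fg1_take {A : Type*} [Ring A] (u : Fin 3 → A) (b : List (Fin 3)) (j : Fin b.length) :
    PW u (b.take (j + 1)) = PW u (b.take j) * u (b.get j) := by
  rw [← List.take_append_getElem j.2, fg1_PW_append, fg1_PW_cons, fg1_PW_nil, mul_one]
  rfl

theorem fg1_drop {A : Type*} [Ring A] (u : Fin 3 → A) (b : List (Fin 3)) (j : Fin b.length) :
    PW u (b.drop j) = u (b.get j) * PW u (b.drop (j + 1)) := by
  rw [List.drop_eq_getElem_cons j.2, fg1_PW_cons]
  rfl

theorem AW_eq {A : Type*} [Ring A] (u : Fin 3 → A) (b : List (Fin 3)) (j : Fin b.length) :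
    AW u b j = PW u (b.take (j + 1)) - PW u (b.take j) := by
  rw [fg1_take, AW, mul_sub, mul_one]

theorem BW_eq {A : Type*} [Ring A] (u : Fin 3 → A) (b : List (Fin 3)) (j : Fin b.length) :
    BW u b j = PW u (b.drop j) - PW u (b.drop (j + 1)) := by
  rw [fg1_drop, BW, sub_mul, one_mul]

theorem EW_eq {A : Type*} [Ring A] (u : Fin 3 → A) (b : List (Fin 3)) (j l : Fin b.length)
    (h : j < l) : EW u b j l = PW u ((b.take (l + 1)).drop j) - PW u ((b.take (l + 1)).drop (j + 1))
      - PW u ((b.take l).drop j) + PW u ((b.take l).drop (j + 1)) := by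
  have hjl : (j : ℕ) < l := h
  have hlen : (b.take l).length = l := by
    rw [List.length_take]
    have := l.2
    omega
  have h1 : (b.take l).drop j = b.get j :: (b.take l).drop (j + 1) := by
    rw [List.drop_eq_getElem_cons (by rw [hlen]; exact hjl)]
    congr 1
    rw [List.getElem_take]
    rfl
  have h2 : (b.take (l + 1)).drop (j + 1) = (b.take l).drop (j + 1) ++ [b.get l] := by
    rw [← List.take_append_getElem l.2, List.drop_append_of_le_length (by rw [hlen]; omega)]
    rfl
  have h3 : (b.take (l + 1)).drop j = (b.take l).drop j ++ [b.get l] := by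
    rw [← List.take_append_getElem l.2, List.drop_append_of_le_length (by rw [hlen]; omega)]
    rfl
  rw [h3, h2, h1, fg1_PW_append, fg1_PW_append, fg1_PW_cons, fg1_PW_cons, fg1_PW_nil, EW,
    if_neg (ne_of_lt h)]
  noncomm_ring

theorem EW_diag {A : Type*} [Ring A] (u : Fin 3 → A) (b : List (Fin 3)) (j : Fin b.length) :
    EW u b j j = PW u [b.get j] - PW u [] := by
  rw [EW, if_pos rfl, fg1_PW_cons, fg1_PW_nil, mul_one]

theorem fg1_adj (b : List (Fin 3)) (hb : b.IsChain (· ≠ ·)) (j k : Fin b.length)
    (hjk : b.get j = b.get k) : (j : ℕ) ≠ k + 1 := by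
  intro h
  have h1 := (List.isChain_iff_getElem.1 hb) k (by rw [← h]; exact j.2)
  apply h1
  have h2 : b.get j = b[(k : ℕ) + 1]'(by rw [← h]; exact j.2) := by
    simp only [List.get_eq_getElem, h]
  rw [← h2, hjk]
  rfl

theorem fg1_take_eq (b : List (Fin 3)) (x y : ℕ) (hx : x ≤ b.length) (hy : y ≤ b.length) :
    b.take x = b.take y ↔ x = y := by
  constructor
  · intro h
    have := congrArg List.length h
    rw [List.length_take, List.length_take] at this
    omega
  · rintro rfl
    rfl

theorem fg1_drop_eq (b : List (Fin 3)) (x y : ℕ) (hx : x ≤ b.length) (hy : y ≤ b.length) :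
    b.drop x = b.drop y ↔ x = y := by
  constructor
  · intro h
    have := congrArg List.length h
    rw [List.length_drop, List.length_drop] at this
    omega
  · rintro rfl
    rfl

/-- orthogonality relations for the factors, from orthonormality of reduced positive words -/
theorem tau_AW {A : Type*} [Ring A] [StarRing A] [Algebra ℂ A] (τ : A →ₗ[ℂ] ℂ) (u : Fin 3 → A)
    (hτ : ∀ l l' : List (Fin 3), l.IsChain (· ≠ ·) → l'.IsChain (· ≠ ·) →
      τ (star (PW u l) * PW u l') = if l = l' then 1 else 0)
    (b : List (Fin 3)) (hb : b.IsChain (· ≠ ·)) (j k : Fin b.length) (hjk : b.get j = b.get k) :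
    τ (star (AW u b k) * AW u b j) = if j = k then 2 else 0 := by
  have hj := j.2
  have hk := k.2
  have key : ∀ x y : ℕ, x ≤ b.length → y ≤ b.length →
      τ (star (PW u (b.take x)) * PW u (b.take y)) = if x = y then 1 else 0 := by
    intro x y hx hy
    rw [hτ _ _ (hb.take x) (hb.take y)]
    simp only [fg1_take_eq b x y hx hy]
  have e : star (AW u b k) * AW u b j =
      star (PW u (b.take (k + 1))) * PW u (b.take (j + 1)) -
      star (PW u (b.take (k + 1))) * PW u (b.take j) -
      star (PW u (b.take k)) * PW u (b.take (j + 1)) +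
      star (PW u (b.take k)) * PW u (b.take j) := by
    rw [AW_eq, AW_eq, star_sub]
    noncomm_ring
  rw [e, map_add, map_sub, map_sub, key _ _ (by omega) (by omega), key _ _ (by omega) (by omega),
    key _ _ (by omega) (by omega), key _ _ (by omega) (by omega)]
  have h1 := fg1_adj b hb j k hjk
  have h2 := fg1_adj b hb k j hjk.symm
  have i1 : (if (k : ℕ) + 1 = j then (1 : ℂ) else 0) = 0 := if_neg (fun h => h1 h.symm)
  have i2 : (if (k : ℕ) = j + 1 then (1 : ℂ) else 0) = 0 := if_neg h2
  rw [i1, i2]
  by_cases h3 : j = k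
  · subst h3
    rw [if_pos rfl, if_pos rfl, if_pos rfl]
    norm_num
  · have h4 : (k : ℕ) ≠ j := fun h => h3 (Fin.ext h.symm)
    rw [if_neg (fun h => h4 (Nat.succ_injective h)), if_neg h4, if_neg h3]
    norm_num

theorem tau_BW {A : Type*} [Ring A] [StarRing A] [Algebra ℂ A] (τ : A →ₗ[ℂ] ℂ) (u : Fin 3 → A)
    (hτ : ∀ l l' : List (Fin 3), l.IsChain (· ≠ ·) → l'.IsChain (· ≠ ·) →
      τ (star (PW u l) * PW u l') = if l = l' then 1 else 0)
    (b : List (Fin 3)) (hb : b.IsChain (· ≠ ·)) (j k : Fin b.length) (hjk : b.get j = b.get k) :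
    τ (star (BW u b k) * BW u b j) = if j = k then 2 else 0 := by
  have hj := j.2
  have hk := k.2
  have key : ∀ x y : ℕ, x ≤ b.length → y ≤ b.length →
      τ (star (PW u (b.drop x)) * PW u (b.drop y)) = if x = y then 1 else 0 := by
    intro x y hx hy
    rw [hτ _ _ (hb.drop x) (hb.drop y)]
    simp only [fg1_drop_eq b x y hx hy]
  have e : star (BW u b k) * BW u b j =
      star (PW u (b.drop (k + 1))) * PW u (b.drop (j + 1)) -
      star (PW u (b.drop (k + 1))) * PW u (b.drop j) -
      star (PW u (b.drop k)) * PW u (b.drop (j + 1)) +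
      star (PW u (b.drop k)) * PW u (b.drop j) := by
    rw [BW_eq, BW_eq, star_sub]
    noncomm_ring
  rw [e, map_add, map_sub, map_sub, key _ _ (by omega) (by omega), key _ _ (by omega) (by omega),
    key _ _ (by omega) (by omega), key _ _ (by omega) (by omega)]
  have h1 := fg1_adj b hb j k hjk
  have h2 := fg1_adj b hb k j hjk.symm
  have i1 : (if (k : ℕ) + 1 = j then (1 : ℂ) else 0) = 0 := if_neg (fun h => h1 h.symm)
  have i2 : (if (k : ℕ) = j + 1 then (1 : ℂ) else 0) = 0 := if_neg h2
  rw [i1, i2]
  by_cases h3 : j = k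
  · subst h3
    rw [if_pos rfl, if_pos rfl, if_pos rfl]
    norm_num
  · have h4 : (k : ℕ) ≠ j := fun h => h3 (Fin.ext h.symm)
    rw [if_neg (fun h => h4 (Nat.succ_injective h)), if_neg h4, if_neg h3]
    norm_num

theorem tau_BA {A : Type*} [Ring A] [StarRing A] [Algebra ℂ A] (τ : A →ₗ[ℂ] ℂ) (u : Fin 3 → A)
    (hτ : ∀ l l' : List (Fin 3), l.IsChain (· ≠ ·) → l'.IsChain (· ≠ ·) →
      τ (star (PW u l) * PW u l') = if l = l' then 1 else 0)
    (b : List (Fin 3)) (hb : b.IsChain (· ≠ ·)) (hb' : ∀ h : b ≠ [], b.getLast h ≠ b.head h)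
    (j k : Fin b.length) (hjk : b.get j = b.get k) :
    τ (BW u b j * AW u b k) = 0 := by
  have hj := j.2
  have hk := k.2
  have hne : b ≠ [] := by
    rintro rfl
    exact absurd hj (by simp)
  have hlen : 0 < b.length := List.length_pos_iff.2 hne
  have hchain : ∀ x y : ℕ, (b.drop x ++ b.take y).IsChain (· ≠ ·) := by
    intro x y
    rw [List.isChain_append]
    refine ⟨hb.drop x, hb.take y, fun p hp q hq => ?_⟩
    rw [List.getLast?_drop] at hp
    rw [List.head?_take] at hq
    split_ifs at hp with h1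
    · simp at hp
    split_ifs at hq with h2
    · simp at hq
    rw [List.getLast?_eq_some_getLast hne] at hp
    rw [List.head?_eq_some_head hne] at hq
    simp only [Option.mem_def, Option.some.injEq] at hp hq
    rw [← hp, ← hq]
    exact hb' hne
  have key : ∀ x y : ℕ, (b.drop x ++ b.take y) ≠ [] →
      τ (PW u (b.drop x) * PW u (b.take y)) = 0 := by
    intro x y hxy
    have h1 := hτ [] (b.drop x ++ b.take y) (by simp) (hchain x y)
    rw [if_neg (Ne.symm hxy), fg1_PW_nil, star_one, one_mul, fg1_PW_append] at h1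
    exact h1
  have e : BW u b j * AW u b k =
      PW u (b.drop j) * PW u (b.take (k + 1)) - PW u (b.drop j) * PW u (b.take k) -
      PW u (b.drop (j + 1)) * PW u (b.take (k + 1)) + PW u (b.drop (j + 1)) * PW u (b.take k) := by
    rw [BW_eq, AW_eq]
    noncomm_ring
  have hn : ∀ x y : ℕ, (x < b.length ∨ 0 < y) → (b.drop x ++ b.take y) ≠ [] := by
    intro x y h h1
    have h2 := congrArg List.length h1
    rw [List.length_append, List.length_drop, List.length_take, List.length_nil] at h2
    omega
  rw [e, map_add, map_sub, map_sub, key _ _ (hn _ _ (Or.inl hj)), key _ _ (hn _ _ (Or.inl hj)),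
    key _ _ (hn _ _ (Or.inr (Nat.succ_pos _))), key _ _ (hn _ _ ?_)]
  · simp
  · by_contra hcon
    push Not at hcon
    have h1 : (j : ℕ) = b.length - 1 := by omega
    have h2 : (k : ℕ) = 0 := by omega
    apply hb' hne
    have h3 : b.getLast hne = b.get j := by
      rw [List.getLast_eq_getElem]
      simp only [List.get_eq_getElem, h1]
    have h4 : b.head hne = b.get k := by
      rw [List.head_eq_getElem]
      simp only [List.get_eq_getElem, h2]
    rw [h3, h4, hjk]

end Pool.Agent.Helper38.FE.FG
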