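import Pool.Agent.Helper246.FG.C1
import Pool.Agent.Helper246.FG.A4
import Pool.Agent.Helper246.FG.B5
import Pool.Agent.Helper246.FG.B6
import Pool.Agent.Helper246.FG.B7
import Pool.Agent.Helper246.FG.B9
import Pool.Agent.Helper246.FG.R0

open MeasureTheory Filter Topology ProbabilityTheory
open scoped InnerProductSpace ENNReal

namespace Pool.Agent.Helper38.FE.FG

theorem hs_Fc {N : ℕ} (hN : 0 < N) (b : List (Fin 3)) (x : EX N) :
    hs (fderiv ℝ (Fc N b) x) = (N : ℝ) ^ 2 * (S1 tr (uN N x) b).re := by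
  have h := hs_gen hN (AW (uN N x) b) (BW (uN N x) b) b.get
    (fun i p => DW (uN N x) (Xm N (EuclideanSpace.single (i, p) 1 : EX N)) b) (by
      intro i p
      unfold DW
      apply Finset.sum_congr rfl
      intro j _
      rw [Xm_single])
  unfold hs S1
  rw [← h, Fintype.sum_prod_type]
  apply Finset.sum_congr rfl
  intro i _
  apply Finset.sum_congr rfl
  intro p _
  rw [fderiv_Fc]

theorem hs2_Fc {N : ℕ} (hN : 0 < N) (b : List (Fin 3)) (x : EX N) :
    hs2 (fderiv ℝ (fderiv ℝ (Fc N b)) x) ≤ 4 * (N : ℝ) ^ 2 * (S2 tr (uN N x) b).re := by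
  have h := hs2_gen hN (AW (uN N x) b) (BW (uN N x) b) (EW (uN N x) b) b.get
    (fun i p i' p' => TW (uN N x) (Xm N (EuclideanSpace.single (i, p) 1 : EX N))
      (Xm N (EuclideanSpace.single (i', p') 1 : EX N)) b) (by
      intro i p i' p'
      unfold TW
      apply Finset.sum_congr rfl
      intro j _
      apply Finset.sum_congr rfl
      intro l _
      rw [Xm_single, Xm_single])
    (fun i p i' p' => D2W (uN N x) (Xm N (EuclideanSpace.single (i, p) 1 : EX N))
      (Xm N (EuclideanSpace.single (i', p') 1 : EX N)) b) (by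
      intro i p i' p'
      rfl)
  unfold hs2 S2
  refine le_trans (le_of_eq ?_) h
  apply Finset.sum_congr rfl
  intro e _
  apply Finset.sum_congr rfl
  intro e' _
  rw [fderiv2_Fc]

end Pool.Agent.Helper38.FE.FG
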