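import Pool.Agent.Helper246.FG.R0
import Pool.Agent.Helper246.FG.L0

open MeasureTheory Filter Topology ProbabilityTheory
open scoped InnerProductSpace ENNReal

namespace Pool.Agent.Helper38.FE.FG

variable {H : Type} [NormedAddCommGroup H] [InnerProductSpace ℂ H] [CompleteSpace H]

theorem lc_tr_cont {N : ℕ} : Continuous (tr : BN N → ℂ) := by
  unfold tr ent
  refine continuous_const.mul (continuous_finset_sum _ fun p _ => ?_)
  exact (EuclideanSpace.proj (𝕜 := ℂ) p).continuous.comp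
    (ContinuousLinearMap.apply ℂ (EuclideanSpace ℂ (Fin N)) (EuclideanSpace.single p (1:ℂ))).continuous

theorem lc_int (S : FS (Fin 3) H) (T T' T'' : Big H) (hT : T ∈ WA S) (hT' : T' ∈ WA S)
    (hT'' : T'' ∈ WA S) (N : ℕ) :
    Integrable (fun x => tr (T.1 N x) * tr (T'.1 N x) * tr (T''.1 N x)) (stdGaussian (EX (N + 1))) := by
  obtain ⟨K, hK⟩ := WA_bdd S T hT N
  obtain ⟨K', hK'⟩ := WA_bdd S T' hT' N
  obtain ⟨K'', hK''⟩ := WA_bdd S T'' hT'' N
  have hc : Continuous (fun x => tr (T.1 N x) * tr (T'.1 N x) * tr (T''.1 N x)) :=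
    ((lc_tr_cont.comp (WA_cont S T hT N)).mul (lc_tr_cont.comp (WA_cont S T' hT' N))).mul
      (lc_tr_cont.comp (WA_cont S T'' hT'' N))
  refine Integrable.of_bound hc.aestronglyMeasurable (K * K' * K'') (Filter.Eventually.of_forall fun x => ?_)
  rw [norm_mul, norm_mul]
  have a1 := (norm_tr_le (T.1 N x)).trans (hK x)
  have a2 := (norm_tr_le (T'.1 N x)).trans (hK' x)
  have a3 := (norm_tr_le (T''.1 N x)).trans (hK'' x)
  have b1 := norm_nonneg (tr (T.1 N x))
  have b2 := norm_nonneg (tr (T'.1 N x))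
  have b3 := norm_nonneg (tr (T''.1 N x))
  exact mul_le_mul (mul_le_mul a1 a2 b2 (b1.trans a1)) a3 b3 (mul_nonneg (b1.trans a1) (b2.trans a2))

/-- finite linear combinations of products of three traces: integrable, and the integral
converges -/
theorem lim_comb (S : FS (Fin 3) H) {κ : Type} (s : Finset κ) (c : κ → ℂ)
    (T T' T'' : κ → Big H) (hT : ∀ q ∈ s, T q ∈ WA S) (hT' : ∀ q ∈ s, T' q ∈ WA S)
    (hT'' : ∀ q ∈ s, T'' q ∈ WA S) :
    (∀ N : ℕ, Integrable (fun x => (∑ q ∈ s, c q * (tr ((T q).1 N x) * tr ((T' q).1 N x) *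
      tr ((T'' q).1 N x))).re) (stdGaussian (EX (N + 1)))) ∧
    Tendsto (fun N : ℕ => ∫ x, (∑ q ∈ s, c q * (tr ((T q).1 N x) * tr ((T' q).1 N x) *
      tr ((T'' q).1 N x))).re ∂(stdGaussian (EX (N + 1)))) atTop
      (𝓝 (∑ q ∈ s, c q * (tau S.Ω (T q).2 * tau S.Ω (T' q).2 * tau S.Ω (T'' q).2)).re) := by
  have hI2 : ∀ N, Integrable (fun x => ∑ q ∈ s, c q * (tr ((T q).1 N x) * tr ((T' q).1 N x) *
      tr ((T'' q).1 N x))) (stdGaussian (EX (N + 1))) := by
    intro N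
    refine integrable_finset_sum _ (fun q hq => ?_)
    exact (lc_int S _ _ _ (hT q hq) (hT' q hq) (hT'' q hq) N).const_mul _
  refine ⟨fun N => (hI2 N).re, ?_⟩
  have e : ∀ N : ℕ, ∫ x, (∑ q ∈ s, c q * (tr ((T q).1 N x) * tr ((T' q).1 N x) *
      tr ((T'' q).1 N x))).re ∂(stdGaussian (EX (N + 1))) =
      (∑ q ∈ s, c q * ∫ x, tr ((T q).1 N x) * tr ((T' q).1 N x) * tr ((T'' q).1 N x)
        ∂(stdGaussian (EX (N + 1)))).re := by
    intro N
    have h1 := integral_re (hI2 N)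
    have h2 : ∫ x, ∑ q ∈ s, c q * (tr ((T q).1 N x) * tr ((T' q).1 N x) *
      tr ((T'' q).1 N x)) ∂(stdGaussian (EX (N + 1))) = ∑ q ∈ s, c q * ∫ x, tr ((T q).1 N x) *
        tr ((T' q).1 N x) * tr ((T'' q).1 N x) ∂(stdGaussian (EX (N + 1))) := by
      rw [integral_finsetSum]
      · refine Finset.sum_congr rfl (fun q _ => ?_)
        rw [integral_const_mul]
      · intro q hq
        exact (lc_int S _ _ _ (hT q hq) (hT' q hq) (hT'' q hq) N).const_mul _
    rw [← h2]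
    exact h1
  simp_rw [e]
  refine (Complex.continuous_re.tendsto _).comp (tendsto_finset_sum _ fun q hq => ?_)
  exact (WA_lim3 S _ _ _ (hT q hq) (hT' q hq) (hT'' q hq)).const_mul _

end Pool.Agent.Helper38.FE.FG
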