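import Pool.Agent.Helper246.FG.Defs

open MeasureTheory Filter Topology ProbabilityTheory
open scoped InnerProductSpace ENNReal

namespace Pool.Agent.Helper38.FE.FG

theorem wc_aux_length (l : List Bool) :
    (l.flatMap fun e => [(0 : Fin 3), if e then 1 else 2]).length = 2 * l.length := by
  induction l with
  | nil => rfl
  | cons a t ih =>
    rw [List.flatMap_cons, List.length_append, ih]
    simp only [List.length_cons, List.length_nil]
    omega

theorem wc_aux_chain (l : List Bool) :
    (l.flatMap fun e => [(0 : Fin 3), if e then 1 else 2]).IsChain (· ≠ ·) := by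
  induction l with
  | nil => exact List.IsChain.nil
  | cons a t ih =>
    rw [List.flatMap_cons]
    cases t with
    | nil => cases a <;> decide
    | cons b t' =>
      rw [List.flatMap_cons] at ih ⊢
      cases a <;> simpa using ih

theorem wc_aux_head (l : List Bool)
    (h : (l.flatMap fun e => [(0 : Fin 3), if e then 1 else 2]) ≠ []) :
    (l.flatMap fun e => [(0 : Fin 3), if e then 1 else 2]).head h = 0 := by
  cases l with
  | nil => exact absurd rfl h
  | cons a t => rfl

theorem wc_aux_last (l : List Bool) :
    ∀ z ∈ (l.flatMap fun e => [(0 : Fin 3), if e then 1 else 2]).getLast?, z ≠ 0 := by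
  induction l with
  | nil => intro z hz; simp at hz
  | cons a t ih =>
    intro z hz
    rw [List.flatMap_cons] at hz
    cases t with
    | nil =>
      cases a <;> simp at hz <;> rw [← hz] <;> decide
    | cons b t' =>
      rw [List.getLast?_append] at hz
      have hne : ((b :: t').flatMap fun e => [(0 : Fin 3), if e then 1 else 2]) ≠ [] := by
        simp
      rw [List.getLast?_eq_some_getLast hne] at hz ih
      apply ih
      simpa using hz

theorem wc_length {m : ℕ} (c : Fin m → Bool) : (wc c).length = 2 * m := by
  unfold wc
  rw [wc_aux_length, List.length_ofFn]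

theorem wc_chain {m : ℕ} (c : Fin m → Bool) : (wc c).IsChain (· ≠ ·) := wc_aux_chain _

theorem wc_ends {m : ℕ} (c : Fin m → Bool) (h : wc c ≠ []) :
    (wc c).getLast h ≠ (wc c).head h := by
  have h1 : (wc c).head h = 0 := wc_aux_head _ h
  rw [h1]
  apply wc_aux_last (List.ofFn c)
  exact List.getLast?_eq_some_getLast h

/-- the number of `c ∈ {0,1}^m` with `c_{x+i} = c_{y+i}` for `i < e` (`x < y`, `y + e ≤ m`) -/
theorem card_coincide (m x y e : ℕ) (hxy : x < y) (hy : y + e ≤ m) :
    (Finset.univ.filter fun c : Fin m → Bool => ∀ i (hi : i < e),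
      c ⟨x + i, by omega⟩ = c ⟨y + i, by omega⟩).card ≤ 2 ^ (m - e) := by
  classical
  set p : Fin m → Prop := fun j => y ≤ j.val ∧ j.val < y + e with hp
  have hcard : Fintype.card {j : Fin m // ¬ p j} ≤ m - e := by
    rw [Fintype.card_subtype_compl, Fintype.card_fin]
    have h1 : e ≤ Fintype.card {j : Fin m // p j} := by
      have := Fintype.card_le_of_injective
        (fun i : Fin e => (⟨⟨y + i.val, by omega⟩, ⟨by simp, by simp⟩⟩ : {j : Fin m // p j}))
        (fun i i' h => by
          simp only [Subtype.mk.injEq, Fin.mk.injEq] at h
          ext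
          omega)
      simpa using this
    omega
  have hinj := Finset.card_le_card_of_injOn
    (s := Finset.univ.filter fun c : Fin m → Bool => ∀ i (hi : i < e),
      c ⟨x + i, by omega⟩ = c ⟨y + i, by omega⟩)
    (t := (Finset.univ : Finset ({j : Fin m // ¬ p j} → Bool)))
    (fun c => fun j => c j.val) (fun _ _ => Finset.mem_coe.mpr (Finset.mem_univ _)) (by
      intro c hc c' hc' hcc
      rw [Finset.mem_coe, Finset.mem_filter] at hc hc'
      have hc2 := hc.2
      have hc2' := hc'.2
      have key : ∀ n (hn : n < m), c ⟨n, hn⟩ = c' ⟨n, hn⟩ := by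
        intro n
        induction n using Nat.strong_induction_on with
        | _ n ih =>
          intro hn
          by_cases hq : p ⟨n, hn⟩
          · obtain ⟨h1, h2⟩ := hq
            simp only at h1 h2
            have hi : n - y < e := by omega
            have e1 := hc2 (n - y) hi
            have e2 := hc2' (n - y) hi
            have e3 : y + (n - y) = n := by omega
            have e4 := ih (x + (n - y)) (by omega) (by omega)
            simp only [e3] at e1 e2
            rw [← e1, ← e2, e4]
          · exact congrFun hcc ⟨⟨n, hn⟩, hq⟩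
      ext j
      rw [key j.val j.isLt])
  refine hinj.trans ?_
  rw [Finset.card_univ, Fintype.card_fun, Fintype.card_bool]
  exact Nat.pow_le_pow_right (by norm_num) hcard

end Pool.Agent.Helper38.FE.FG
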